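import Pool.Agent.Q88.NB.CaseA

/-!
# Case B
-/

set_option autoImplicit false

namespace Pool.Agent.Q88.NB

open MeasureTheory Set Metric Filter Topology
open scoped ENNReal NNReal ComplexConjugate ContDiff
open Pool.Agent.Y283.NK (ct)
open Pool.Agent.Y271.RO (ht Bd db Cut hHT hCTG hPOM)
open Pool.Agent.Y941.RO (CO)
open Pool.Agent.Q98.RB
open Pool.Agent.Q98.NR (IsK)
open Pool.Agent.Q130.TC (cau S_CAU WT S_MZ nm Am sm S_SM S_CMA IsW)

variable {X : Type} [NormedAddCommGroup X] [NormedSpace ℂ X]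
variable {N : X →L[ℂ] X} {R : ℝ} {Ψ : C(DD R, ℂ) →ₐ[ℂ] (X →L[ℂ] X)}

/-- the Cauchy transform of a pair `(v, η(N) x₀)` -/
theorem pairB (hΨ : Cal N R Ψ) {C₀ : ℝ} (hC : CB Ψ C₀) (v : X →L[ℂ] ℂ) (x₀ : X) {η : ℂ → ℂ}
    (hη : Continuous η) {a : ℂ} {τ Mη : ℝ} (hτ : 0 < τ) (hM0 : 0 ≤ Mη)
    (hMη : ∀ z, ‖z‖ ≤ R → ‖η z‖ ≤ Mη) (hη0 : ∀ z, z ∉ ball a (τ / 2) → η z = 0) :
    ∃ k : ℂ → ℂ, Measurable k ∧
      (∀ z, τ ≤ ‖z - a‖ → ‖k z‖ ≤ 2 / τ * (Mη * (C₀ * (‖v‖ * ‖x₀‖)))) ∧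
      ∀ (Θ : ℂ → ℂ) (r : ℝ), 0 < r → CO Θ a τ r →
        (∀ j : ℕ, Integrable (fun z => (z - a) ^ j * db Θ z * k z) ∧
          ∫ z, (z - a) ^ j * db Θ z * k z =
            -(Real.pi * v (op Ψ (fun z => (z - a) ^ j * η z) x₀))) ∧
        Integrable (fun z => (z - a)⁻¹ * db Θ z * k z) ∧
          ∫ z, (z - a)⁻¹ * db Θ z * k z = 0 := by
  obtain ⟨μ, hμ, σ, hσ, hσ1, hm, hr⟩ := pair_polar hΨ hC v x₀
  have h1 : MemLp (fun _ : DD R => (1:ℂ)) 2 μ := memLp_const 1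
  have hxm : Measurable fun s : DD R => η (ι R s) * σ s :=
    (hη.measurable.comp (ι_meas R)).mul hσ
  have hxb : ∀ s, ‖η (ι R s) * σ s‖ ≤ Mη := by
    intro s
    rw [norm_mul]
    calc ‖η (ι R s)‖ * ‖σ s‖ ≤ Mη * 1 :=
          mul_le_mul (hMη _ (ι_bd R s)) (hσ1 s) (norm_nonneg _) hM0
      _ = Mη := mul_one _
  have h2 : MemLp (fun s : DD R => η (ι R s) * σ s) 2 μ :=
    MemLp.of_bound hxm.aestronglyMeasurable Mη (Eventually.of_forall hxb)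
  set v₁ : Lp ℂ 2 μ := h1.toLp _ with hv₁
  set x₁ : Lp ℂ 2 μ := h2.toLp _ with hx₁
  have hx : ∀ᵐ s ∂μ, ι R s ∉ ball a (τ / 2) → x₁ s = 0 := by
    filter_upwards [h2.coeFn_toLp] with s hs hb
    rw [hx₁, hs, hη0 _ hb, zero_mul]
  have hint : ∫ s, ‖conj (v₁ s) * x₁ s‖ ∂μ ≤ Mη * (C₀ * (‖v‖ * ‖x₀‖)) := by
    have e : ∫ s, ‖conj (v₁ s) * x₁ s‖ ∂μ = ∫ s, ‖η (ι R s) * σ s‖ ∂μ := by
      refine integral_congr_ae ?_
      filter_upwards [h1.coeFn_toLp, h2.coeFn_toLp] with s e1 e2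
      rw [hv₁, hx₁, e1, e2]
      simp
    rw [e]
    calc ∫ s, ‖η (ι R s) * σ s‖ ∂μ ≤ ∫ _, Mη ∂μ :=
          integral_mono_of_nonneg (Eventually.of_forall fun s => norm_nonneg _)
            (integrable_const _) (Eventually.of_forall hxb)
      _ = Mη * μ.real univ := by simp [mul_comm]
      _ ≤ _ := mul_le_mul_of_nonneg_left hm hM0
  refine ⟨ct (ι R) v₁ x₁, (hCTG (DD R) μ (ι R) (ι_meas R) v₁ x₁).1, fun z hz => ?_,
    fun Θ r hr0 hΘ => ⟨fun j => ?_, ?_⟩⟩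
  · exact (Kbound v₁ x₁ hτ hx z hz).trans (mul_le_mul_of_nonneg_left hint (by positivity))
  · obtain ⟨p1, p2⟩ := pair_pow (ι_meas R) v₁ x₁ hΘ hτ hr0 hx j
    refine ⟨p1, ?_⟩
    rw [p2, hr _ (by fun_prop)]
    congr 2
    refine integral_congr_ae ?_
    filter_upwards [h1.coeFn_toLp, h2.coeFn_toLp] with s e1 e2
    rw [hv₁, hx₁, e1, e2, map_one]
    ring
  · exact pair_inv (ι_meas R) v₁ x₁ hΘ hτ hr0 hx

/-- the vectors `∑ ht (q_j) (N) u_j` -/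
noncomputable def YY (Ψ : C(DD R, ℂ) →ₐ[ℂ] (X →L[ℂ] X)) (u : ℕ → X) (m : ℕ) (q : ℕ → ℂ → ℂ) : X :=
  ∑ j ∈ Finset.range m, op Ψ (ht (q j)) (u j)

theorem YY_step (hΨ : Cal N R Ψ) {C₀ : ℝ} (hC : CB Ψ C₀) {u : ℕ → X} {v : ℕ → (X →L[ℂ] ℂ)}
    {F : ℕ → ℕ → ℂ → ℂ} (hF : ∀ i j, IsK Ψ (v i) (u j) (F i j)) {a : ℂ} {r Kr : ℝ} (hr : 0 < r)
    (hK0 : 0 ≤ Kr)
    (hK : ∀ (c : ℂ) (M : ℝ) (g : ℂ → ℂ), Bd g c r M →
      Integrable g ∧ Measurable (ht g) ∧ (∀ l, Integrable (fun z => g z * (z - l)⁻¹)) ∧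
      (∀ l, ‖ht g l‖ ≤ Kr * M) ∧
      ∀ b l : ℂ, ht (fun z => (z - b) * g z) l = (l - b) * ht g l + ∫ z, g z)
    {m : ℕ} {q : ℕ → ℂ → ℂ} {M U : ℝ} (hq : ∀ j < m, Bd (q j) a r M) (hM : 0 ≤ M)
    (hU : ∑ j ∈ Finset.range m, ‖u j‖ ≤ U) :
    (∀ i, Integrable fun z => ∑ j ∈ Finset.range m, F i j z * q j z) ∧
    (N + fr u v m) (YY Ψ u m q) - a • YY Ψ u m q = YY Ψ u m (fun j z => (z - a) * q j z) -
      ∑ i ∈ Finset.range m, (∫ z, (q i z - ∑ j ∈ Finset.range m, F i j z * q j z)) • u i ∧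
    ‖YY Ψ u m q‖ ≤ C₀ * (Kr * M) * U := by
  have hint : ∀ i, ∀ j ∈ Finset.range m, Integrable fun z => F i j z * q j z := by
    intro i j hj
    have h1 := ((hF i j).int a r M _ (hq j (Finset.mem_range.1 hj))).1
    exact h1.congr (Eventually.of_forall fun z => mul_comm _ _)
  have hb' : ∀ j < m, Bd (fun z => (z - a) * q j z) a r (r * M) := by
    intro j hj
    have hb := hq j hj
    refine ⟨?_, mul_nonneg hr.le hM, ?_, ?_⟩
    · exact (measurable_id.sub_const a).mul hb.meas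
    · intro z
      rw [norm_mul]
      by_cases hz : z ∈ ball a r
      · rw [mem_ball, dist_eq_norm] at hz
        exact mul_le_mul hz.le (hb.bd z) (norm_nonneg _) hr.le
      · rw [hb.supp z hz, norm_zero, mul_zero]
        exact mul_nonneg hr.le hM
    · intro z hz
      rw [hb.supp z hz, mul_zero]
  have hsum : ∀ i, Integrable fun z => ∑ j ∈ Finset.range m, F i j z * q j z := fun i =>
    integrable_finsetSum _ (hint i)
  refine ⟨hsum, ?_, ?_⟩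
  · -- the multiplication
    have h1 : N (YY Ψ u m q) - a • YY Ψ u m q = YY Ψ u m (fun j z => (z - a) * q j z) -
        ∑ j ∈ Finset.range m, (∫ z, q j z) • u j := by
      unfold YY
      rw [map_sum, Finset.smul_sum, ← Finset.sum_sub_distrib, ← Finset.sum_sub_distrib]
      refine Finset.sum_congr rfl fun j hj => ?_
      have hj' := Finset.mem_range.1 hj
      obtain ⟨-, -, -, -, h5⟩ := hK a M _ (hq j hj')
      rw [op_step hΨ (ht_cont hr (hq j hj')) (ht_cont hr (hb' j hj')) a (-∫ z, q j z)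
        (fun l => by rw [h5 a l]; ring) (u j), neg_smul, ← sub_eq_add_neg]
    have h2 : ∀ i, v i (YY Ψ u m q) = ∫ z, ∑ j ∈ Finset.range m, F i j z * q j z := by
      intro i
      rw [integral_finsetSum _ (hint i)]
      unfold YY
      rw [map_sum]
      refine Finset.sum_congr rfl fun j hj => ?_
      rw [← ((hF i j).int a r M _ (hq j (Finset.mem_range.1 hj))).2]
      exact integral_congr_ae (Eventually.of_forall fun z => mul_comm _ _)
    have h3 : ∑ i ∈ Finset.range m,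
        (∫ z, (q i z - ∑ j ∈ Finset.range m, F i j z * q j z)) • u i =
        (∑ j ∈ Finset.range m, (∫ z, q j z) • u j) -
          ∑ i ∈ Finset.range m, v i (YY Ψ u m q) • u i := by
      rw [← Finset.sum_sub_distrib]
      refine Finset.sum_congr rfl fun i hi => ?_
      rw [integral_sub (hK a M _ (hq i (Finset.mem_range.1 hi))).1 (hsum i), h2, sub_smul]
    rw [add_apply, fr_apply, h3, eq_add_of_sub_eq h1]
    abel
  · unfold YY
    calc ‖∑ j ∈ Finset.range m, op Ψ (ht (q j)) (u j)‖ ≤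
          ∑ j ∈ Finset.range m, C₀ * (Kr * M) * ‖u j‖ := by
          refine (norm_sum_le _ _).trans (Finset.sum_le_sum fun j hj => ?_)
          have hb := hq j (Finset.mem_range.1 hj)
          refine ((op Ψ _).le_opNorm _).trans (mul_le_mul_of_nonneg_right ?_ (norm_nonneg _))
          exact hC.op _ _ (ht_cont hr hb) (by positivity) fun z _ => (hK a M _ hb).2.2.2.1 z
      _ = C₀ * (Kr * M) * ∑ j ∈ Finset.range m, ‖u j‖ := by rw [Finset.mul_sum]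
      _ ≤ _ := mul_le_mul_of_nonneg_left hU (by have := hC.1; positivity)

end Pool.Agent.Q88.NB
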