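import Pool.Agent.Q88.NB.CaseB

/-!
# Case B, the vectors
-/

set_option autoImplicit false

namespace Pool.Agent.Q88.NB

open MeasureTheory Set Metric Filter Topology
open scoped ENNReal NNReal ComplexConjugate ContDiff
open Pool.Agent.Y283.NK (ct)
open Pool.Agent.Y271.RO (ht Bd db Cut hHT hCTG hPOM)
open Pool.Agent.Y941.RO (CO)
open Pool.Agent.Q98.RB
open Pool.Agent.Q98.NR (IsK)
open Pool.Agent.Q130.TC (cau S_CAU WT S_MZ nm Am sm S_SM S_CMA IsW)

variable {X : Type} [NormedAddCommGroup X] [NormedSpace ℂ X]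
variable {N : X →L[ℂ] X} {R : ℝ} {Ψ : C(DD R, ℂ) →ₐ[ℂ] (X →L[ℂ] X)}

theorem cutvB (hSM : S_SM) (hΨ : Cal N R Ψ) {S : Type} [MeasurableSpace S] {μ : Measure S}
    [SigmaFinite μ] {φ : S → ℂ} {u' v' : ℕ → Lp ℂ 2 μ} (hφ : Measurable φ)
    {K : X →L[ℂ] X} {u : ℕ → X} {v : ℕ → (X →L[ℂ] ℂ)}
    (hF : ∀ i j, IsK Ψ (v i) (u j) (ct φ (v' i) (u' j))) (hK : Nuc K u v)
    {w : ℂ → ℝ} (hw : IsW φ u' v' w) {a : ℂ} {τ r : ℝ} (hτ : 0 < τ) (hτr : τ < r)
    (hcut : Cut (fun z => (w z : ℂ)) a τ r) (x₀ : X) {η : ℂ → ℂ}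
    (hη : Continuous η) (hη0 : ∀ z, z ∉ ball a (τ / 2) → η z = 0) :
    ∃ (Z : ℕ → ℕ → X) (V : ℕ → X) (C : ℝ), (∀ n k, ‖Z n k‖ ≤ C * r ^ k) ∧
      (∀ n, ‖V n‖ ≤ C) ∧
      (∀ k, Tendsto (fun n => (N + K) (Z n k) - a • Z n k - Z n (k + 1)) atTop (𝓝 0)) ∧
      Tendsto (fun n => op Ψ η x₀ - Z n 0 - ((N + K) (V n) - a • V n)) atTop (𝓝 0) := by
  classical
  obtain ⟨Θ, g, Cg, c1, c2, c3, c4, c5, c6, c7, c8⟩ := hcut
  have hr : 0 < r := hτ.trans hτr
  obtain ⟨Kr, hK0, hKr⟩ := hHT r hr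
  obtain ⟨C₀, hC⟩ := exists_CB hΨ
  have hC₀ := hC.1
  obtain ⟨Mη, hMη0, hMη⟩ := exists_bd hη R
  have hCg0 : 0 ≤ Cg := (norm_nonneg _).trans (c5 0 0)
  have hΘ : ∀ n, CO (Θ n) a τ r := fun n => ⟨(c1 n).of_le (by exact_mod_cast le_top), c2 n, c3 n⟩
  choose k hkm hkb hkΘ using fun i => pairB hΨ hC (v i) x₀ hη hτ hMη0 hMη hη0
  obtain ⟨tl, htl0, htl, htail⟩ := hK.tail
  have hUm : ∀ m, ∑ j ∈ Finset.range m, ‖u j‖ ≤ ∑' j, ‖u j‖ := fun m =>
    hK.su.sum_le_tsum _ fun _ _ => norm_nonneg _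
  set U : ℝ := ∑' j, ‖u j‖ with hU
  have hU0 : 0 ≤ U := tsum_nonneg fun _ => norm_nonneg _
  set VV : ℝ := ∑' j, ‖v j‖ with hVV
  have hVV0 : 0 ≤ VV := tsum_nonneg fun _ => norm_nonneg _
  set G : ℝ := ∑' j, ‖v j‖ * ‖u j‖ with hG
  have hG0 : 0 ≤ G := tsum_nonneg fun _ => by positivity
  set κ : ℝ := 2 / τ * (Mη * (C₀ * ‖x₀‖)) with hκ
  have hκ0 : 0 ≤ κ := by positivity
  have hkb' : ∀ i z, τ ≤ ‖z - a‖ → ‖k i z‖ ≤ κ * ‖v i‖ := by
    intro i z hz
    refine (hkb i z hz).trans (le_of_eq ?_)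
    rw [hκ]
    ring
  set b : ℕ → ℂ → ℂ := fun i z => if z ∈ ball a τ then 0 else k i z with hb
  have hbm : ∀ i, Measurable (b i) := fun i =>
    Measurable.ite measurableSet_ball measurable_const (hkm i)
  have hbb : ∀ i z, ‖b i z‖ ≤ κ * ‖v i‖ := by
    intro i z
    simp only [hb]
    split_ifs with h
    · rw [norm_zero]
      positivity
    · rw [mem_ball, dist_eq_norm, not_lt] at h
      exact hkb' i z h
  set KV : ℝ := κ * VV with hKV
  have hKV0 : 0 ≤ KV := by positivity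
  have hnb : ∀ m z, nm m (fun i => b i z) ≤ KV := by
    intro m z
    refine (nm_le_sum _ _).trans ?_
    calc ∑ i ∈ Finset.range m, ‖b i z‖ ≤ ∑ i ∈ Finset.range m, κ * ‖v i‖ :=
          Finset.sum_le_sum fun i _ => hbb i z
      _ = κ * ∑ i ∈ Finset.range m, ‖v i‖ := by rw [Finset.mul_sum]
      _ ≤ _ := mul_le_mul_of_nonneg_left (hK.sv.sum_le_tsum _ fun _ _ => norm_nonneg _) hκ0
  -- the sizes
  have hsub : ball a (r + 1) ⊆ ball (0:ℂ) (‖a‖ + (r + 1)) := by
    intro z hz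
    rw [mem_ball, dist_eq_norm] at hz
    rw [mem_ball_zero_iff]
    calc ‖z‖ = ‖(z - a) + a‖ := by rw [sub_add_cancel]
      _ ≤ ‖z - a‖ + ‖a‖ := norm_add_le _ _
      _ < _ := by linarith
  set R' : ℝ := ‖a‖ + (r + 1) with hR'
  have hm : ∀ n : ℕ, ∃ m, 1 ≤ m ∧ tl m ≤ 1 / (n + 1) ∧
      (∫⁻ z in ball (0:ℂ) R', ‖sm φ u' v' m z - w z‖ₑ) ≤ ENNReal.ofReal (1 / (n + 1)) := by
    intro n
    have e1 : ∀ᶠ m in atTop, tl m ≤ 1 / ((n:ℝ) + 1) := htl.eventually_le_const (by positivity)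
    have e2 := (hw.lim R').eventually_le_const
      (show (0:ℝ≥0∞) < ENNReal.ofReal (1 / ((n:ℝ) + 1)) from ENNReal.ofReal_pos.2 (by positivity))
    exact ((eventually_ge_atTop 1).and (e1.and e2)).exists
  choose m hm1 hm2 hm3 using hm
  have hSM' : ∀ n, Measurable (sm φ u' v' (m n)) ∧ (∀ z, 0 ≤ sm φ u' v' (m n) z) ∧
      ∃ h : ℕ → ℂ → ℂ, (∀ j, Measurable (h j)) ∧
        ∀ z, (∀ i < m n, Am φ u' v' (m n) z (fun j => h j z) i =
          (sm φ u' v' (m n) z : ℂ) * b i z) ∧ nm (m n) (fun j => h j z) ≤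
            nm (m n) (fun j => b j z) := by
    intro n
    obtain ⟨h1, h2, -, h3⟩ := hSM S μ φ hφ u' v' (m n) (hm1 n)
    exact ⟨h1, h2, h3 b hbm⟩
  choose hsmm hsm0 h hhm hh using hSM'
  have hhb : ∀ n, ∀ j < m n, ∀ z, ‖h n j z‖ ≤ KV := fun n j hj z =>
    (nm_coord (c := fun j => h n j z) hj).trans ((hh n z).2.trans (hnb _ _))
  -- the product of a bounded function with `g n` and `h n j`
  set q : (ℂ → ℂ) → ℕ → ℕ → ℂ → ℂ := fun P n j z => P z * (g n z * h n j z) with hq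
  have hbd : ∀ (P : ℂ → ℂ) (B : ℝ), Measurable P → 0 ≤ B →
      (∀ z, τ ≤ ‖z - a‖ → ‖z - a‖ ≤ r → ‖P z‖ ≤ B) → ∀ n, ∀ j < m n,
      Bd (q P n j) a r (B * (Cg * KV)) := by
    intro P B hP hB0 hB n j hj
    refine ⟨hP.mul ((c4 n).mul (hhm n j)), by positivity, ?_, ?_⟩
    · intro z
      simp only [hq]
      by_cases h1 : z ∈ ball a τ
      · rw [c6 n z h1]
        simp only [zero_mul, mul_zero, norm_zero]
        positivity
      · rw [mem_ball, dist_eq_norm, not_lt] at h1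
        by_cases h2 : ‖z - a‖ ≤ r
        · rw [norm_mul, norm_mul]
          exact mul_le_mul (hB z h1 h2) (mul_le_mul (c5 n z) (hhb n j hj z) (norm_nonneg _) hCg0)
            (by positivity) hB0
        · rw [c7 n z (not_le.mp h2).le]
          simp only [zero_mul, mul_zero, norm_zero]
          positivity
    · intro z hz
      rw [mem_ball, dist_eq_norm, not_lt] at hz
      simp only [hq]
      rw [c7 n z hz]
      ring
  -- integrability of the differences
  have hdbi : ∀ n, Integrable (db (Θ n)) := by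
    intro n
    obtain ⟨M, hM⟩ := (hΘ n).bd hPOM (fun _ => 1) measurable_const 1 zero_le_one
      (fun z _ _ => by simp)
    have h1 := ((hHT (r + 1) (by linarith)).choose_spec.2 a M _ hM).1
    simpa using h1
  have hwg : ∀ n, Integrable fun z => (w z : ℂ) * g n z := by
    intro n
    have h1 : IntegrableOn w (ball a r) :=
      (hw.loc.integrableOn_isCompact (isCompact_closedBall a r)).mono_set ball_subset_closedBall
    have h2 : Integrable fun z => (ball a r).indicator (fun z => Cg * w z) z :=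
      (integrable_indicator_iff measurableSet_ball).2 (h1.const_mul _)
    refine h2.mono' ((Complex.measurable_ofReal.comp hw.meas).mul (c4 n)).aestronglyMeasurable
      (Eventually.of_forall fun z => ?_)
    rw [norm_mul, Complex.norm_real, Real.norm_of_nonneg (hw.nonneg z)]
    by_cases hz : z ∈ ball a r
    · rw [indicator_of_mem hz, mul_comm]
      exact mul_le_mul_of_nonneg_right (c5 n z) (hw.nonneg z)
    · rw [indicator_of_notMem hz]
      rw [mem_ball, dist_eq_norm, not_lt] at hz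
      rw [c7 n z hz, norm_zero, mul_zero]
  have hD1 : ∀ n, Integrable fun z => ‖(w z : ℂ) * g n z - db (Θ n) z‖ := fun n =>
    ((hwg n).sub (hdbi n)).norm
  have hdi : ∀ n, IntegrableOn (fun z => sm φ u' v' (m n) z - w z) (ball (0:ℂ) R') := by
    intro n
    refine ⟨((hsmm n).sub hw.meas).aestronglyMeasurable, ?_⟩
    unfold HasFiniteIntegral
    exact lt_of_le_of_lt (hm3 n) ENNReal.ofReal_lt_top
  have hD2 : ∀ n, Integrable fun z => (ball (0:ℂ) R').indicator
      (fun z => Cg * ‖sm φ u' v' (m n) z - w z‖) z := fun n =>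
    (integrable_indicator_iff measurableSet_ball).2 ((hdi n).norm.const_mul _)
  set ε : ℕ → ℝ := fun n => (∫ z, ‖(w z : ℂ) * g n z - db (Θ n) z‖) + Cg * (1 / (n + 1)) with hε
  have hε0 : Tendsto ε atTop (𝓝 0) := by
    have h1 : Tendsto (fun n => ∫ z, ‖(w z : ℂ) * g n z - db (Θ n) z‖) atTop (𝓝 0) := by
      have h2 : ∀ n, ∫ z, ‖(w z : ℂ) * g n z - db (Θ n) z‖ =
          (∫⁻ z, ‖(w z : ℂ) * g n z - db (Θ n) z‖ₑ).toReal := fun n =>
        integral_norm_eq_lintegral_enorm ((hwg n).sub (hdbi n)).1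
      simp_rw [h2]
      have := (ENNReal.tendsto_toReal ENNReal.zero_ne_top).comp c8
      rw [ENNReal.toReal_zero] at this
      exact this
    have h2 : Tendsto (fun n : ℕ => Cg * (1 / ((n:ℝ) + 1))) atTop (𝓝 0) := by
      simpa using (tendsto_one_div_add_atTop_nhds_zero_nat (𝕜 := ℝ)).const_mul Cg
    have h3 := h1.add h2
    rw [add_zero] at h3
    exact h3
  have hD3 : ∀ n, ∫ z, (‖(w z : ℂ) * g n z - db (Θ n) z‖ + (ball (0:ℂ) R').indicator
      (fun z => Cg * ‖sm φ u' v' (m n) z - w z‖) z) ≤ ε n := by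
    intro n
    rw [integral_add (hD1 n) (hD2 n)]
    refine add_le_add le_rfl ?_
    rw [integral_indicator measurableSet_ball, integral_const_mul,
      integral_norm_eq_lintegral_enorm (hdi n).1]
    have h1 := ENNReal.toReal_mono ENNReal.ofReal_ne_top (hm3 n)
    rw [ENNReal.toReal_ofReal (by positivity)] at h1
    exact mul_le_mul_of_nonneg_left h1 hCg0
  -- the errors
  have herr : ∀ (P : ℂ → ℂ) (B : ℝ), Measurable P → 0 ≤ B →
      (∀ z, τ ≤ ‖z - a‖ → ‖z - a‖ ≤ r → ‖P z‖ ≤ B) → ∀ n,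
      (∀ i, Integrable fun z => P z * db (Θ n) z * k i z) →
      ‖∑ i ∈ Finset.range (m n), ((∫ z, (q P n i z - ∑ j ∈ Finset.range (m n),
        ct φ (v' i) (u' j) z * q P n j z)) - ∫ z, P z * db (Θ n) z * k i z) • u i‖ ≤
        B * κ * G * ε n := by
    intro P B hP hB0 hB n hPi
    have hone : ∀ i ∈ Finset.range (m n), ‖(∫ z, (q P n i z - ∑ j ∈ Finset.range (m n),
        ct φ (v' i) (u' j) z * q P n j z)) - ∫ z, P z * db (Θ n) z * k i z‖ ≤
        B * κ * ε n * ‖v i‖ := by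
      intro i hi
      have hi' := Finset.mem_range.1 hi
      obtain ⟨hs1, -, -⟩ := YY_step hΨ hC hF hr hK0 hKr (hbd P B hP hB0 hB n)
        (by positivity : 0 ≤ B * (Cg * KV)) (hUm (m n))
      have hs2 := (hKr a _ _ (hbd P B hP hB0 hB n i hi')).1
      have e1 := integral_sub (hs2.sub (hs1 i)) (hPi i)
      simp only [Pi.sub_apply] at e1
      rw [← e1]
      have e2 : B * κ * ε n * ‖v i‖ = (B * (κ * ‖v i‖)) * ε n := by ring
      rw [e2]
      refine le_trans ?_ (mul_le_mul_of_nonneg_left (hD3 n) (by positivity))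
      rw [← integral_const_mul]
      refine norm_integral_le_of_norm_le (((hD1 n).add (hD2 n)).const_mul _)
        (Eventually.of_forall fun z => ?_)
      have e3 : q P n i z - ∑ j ∈ Finset.range (m n), ct φ (v' i) (u' j) z * q P n j z =
          P z * g n z * ((sm φ u' v' (m n) z : ℂ) * b i z) := by
        rw [← (hh n z).1 i hi']
        simp only [hq, Am]
        rw [mul_sub, Finset.mul_sum]
        congr 1
        · ring
        · refine Finset.sum_congr rfl fun j _ => ?_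
          ring
      show ‖q P n i z - ∑ j ∈ Finset.range (m n), ct φ (v' i) (u' j) z * q P n j z -
        P z * db (Θ n) z * k i z‖ ≤ B * (κ * ‖v i‖) * (‖(w z : ℂ) * g n z - db (Θ n) z‖ +
          (ball (0:ℂ) R').indicator (fun z => Cg * ‖sm φ u' v' (m n) z - w z‖) z)
      rw [e3]
      have hnn : 0 ≤ (ball (0:ℂ) R').indicator
          (fun z => Cg * ‖sm φ u' v' (m n) z - w z‖) z :=
        indicator_nonneg (fun z _ => mul_nonneg hCg0 (norm_nonneg _)) z
      by_cases h1 : z ∈ ball a τ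
      · rw [c6 n z h1, (hΘ n).db_in hPOM z h1]
        simp only [mul_zero, zero_mul, sub_self, norm_zero]
        positivity
      · have hbk : b i z = k i z := by
          simp only [hb]
          rw [if_neg h1]
        rw [mem_ball, dist_eq_norm, not_lt] at h1
        by_cases h2 : ‖z - a‖ ≤ r
        · have hz' : z ∈ ball (0:ℂ) R' := hsub (by
            rw [mem_ball, dist_eq_norm]
            linarith)
          rw [indicator_of_mem hz', hbk]
          have e4 : P z * g n z * ((sm φ u' v' (m n) z : ℂ) * k i z) - P z * db (Θ n) z * k i z =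
              (P z * k i z) * (((w z : ℂ) * g n z - db (Θ n) z) +
                g n z * ((sm φ u' v' (m n) z - w z : ℝ) : ℂ)) := by
            push_cast
            ring
          rw [e4, norm_mul, norm_mul]
          refine mul_le_mul (mul_le_mul (hB z h1 h2) (hkb' i z h1) (norm_nonneg _) hB0) ?_
            (norm_nonneg _) (by positivity)
          refine (norm_add_le _ _).trans (add_le_add le_rfl ?_)
          rw [norm_mul, Complex.norm_real]
          exact mul_le_mul_of_nonneg_right (c5 n z) (norm_nonneg _)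
        · rw [c7 n z (not_le.mp h2).le, (hΘ n).db_out hPOM z (not_le.mp h2)]
          simp only [mul_zero, zero_mul, sub_self, norm_zero]
          positivity
    have hεn : 0 ≤ ε n := by
      simp only [hε]
      have : 0 ≤ ∫ z, ‖(w z : ℂ) * g n z - db (Θ n) z‖ := integral_nonneg fun z => norm_nonneg _
      positivity
    calc _ ≤ ∑ i ∈ Finset.range (m n), B * κ * ε n * (‖v i‖ * ‖u i‖) := by
          refine (norm_sum_le _ _).trans (Finset.sum_le_sum fun i hi => ?_)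
          rw [norm_smul]
          calc _ ≤ (B * κ * ε n * ‖v i‖) * ‖u i‖ :=
                mul_le_mul_of_nonneg_right (hone i hi) (norm_nonneg _)
            _ = _ := by ring
      _ = B * κ * ε n * ∑ i ∈ Finset.range (m n), ‖v i‖ * ‖u i‖ := by rw [Finset.mul_sum]
      _ ≤ B * κ * ε n * G := mul_le_mul_of_nonneg_left
          (hK.sprod.sum_le_tsum _ fun _ _ => by positivity) (by positivity)
      _ = _ := by ring
  -- the vectors `(N - a)^k x`
  set A : ℕ → X := fun k => op Ψ (fun z => (z - a) ^ k * η z) x₀ with hA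
  have hAc : ∀ k : ℕ, Continuous (fun z => (z - a) ^ k * η z) := fun k => by fun_prop
  have hA0 : A 0 = op Ψ η x₀ := by
    simp only [hA, pow_zero, one_mul]
  have hAs : ∀ k, N (A k) - a • A k = A (k + 1) := by
    intro k
    have h1 := op_step hΨ (hAc k) (hAc (k + 1)) a 0 (fun z => by ring) x₀
    rw [zero_smul, add_zero] at h1
    exact h1
  have hAb : ∀ k, ‖A k‖ ≤ C₀ * Mη * ‖x₀‖ * r ^ k := by
    intro k
    have h1 := hC.op (fun z => (z - a) ^ k * η z) (r ^ k * Mη) (hAc k) (by positivity)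
      (fun z hz => by
        by_cases hb : z ∈ ball a (τ / 2)
        · rw [norm_mul, norm_pow]
          rw [mem_ball, dist_eq_norm] at hb
          exact mul_le_mul (pow_le_pow_left₀ (norm_nonneg _) (by linarith) k) (hMη z hz)
            (norm_nonneg _) (by positivity)
        · rw [hη0 z hb, mul_zero, norm_zero]
          positivity)
    calc ‖A k‖ ≤ ‖op Ψ (fun z => (z - a) ^ k * η z)‖ * ‖x₀‖ := (op Ψ _).le_opNorm x₀
      _ ≤ C₀ * (r ^ k * Mη) * ‖x₀‖ := by gcongr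
      _ = _ := by ring
  have hpi : (Real.pi : ℂ) ≠ 0 := by exact_mod_cast Real.pi_ne_zero
  have hpi' : ‖(1 / Real.pi : ℂ)‖ = 1 / Real.pi := by
    rw [norm_div, norm_one, Complex.norm_real, Real.norm_eq_abs, abs_of_pos Real.pi_pos]
  have hpB : ∀ (k : ℕ) (z : ℂ), τ ≤ ‖z - a‖ → ‖z - a‖ ≤ r → ‖(z - a) ^ k‖ ≤ r ^ k :=
    fun k z _ hz => by rw [norm_pow]; exact pow_le_pow_left₀ (norm_nonneg _) hz k
  have hiB : ∀ z : ℂ, τ ≤ ‖z - a‖ → ‖z - a‖ ≤ r → ‖(z - a)⁻¹‖ ≤ τ⁻¹ :=
    fun z hz _ => by rw [norm_inv]; exact inv_anti₀ hτ hz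
  have hpm : ∀ k : ℕ, Measurable fun z : ℂ => (z - a) ^ k := fun k => by fun_prop
  have him : Measurable fun z : ℂ => (z - a)⁻¹ := by fun_prop
  have hYp : ∀ n k, _ := fun n k => YY_step hΨ hC hF hr hK0 hKr
    (hbd (fun z => (z - a) ^ k) (r ^ k) (hpm k) (by positivity) (hpB k) n)
    (by positivity : 0 ≤ r ^ k * (Cg * KV)) (hUm (m n))
  have hYi : ∀ n, _ := fun n => YY_step hΨ hC hF hr hK0 hKr
    (hbd (fun z => (z - a)⁻¹) τ⁻¹ him (by positivity) hiB n)
    (by positivity : 0 ≤ τ⁻¹ * (Cg * KV)) (hUm (m n))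
  have hlim1 : Tendsto (fun n : ℕ => (1:ℝ) / (n + 1)) atTop (𝓝 0) :=
    tendsto_one_div_add_atTop_nhds_zero_nat
  set Z : ℕ → ℕ → X := fun n k => A k - (1 / Real.pi : ℂ) •
    YY Ψ u (m n) (q (fun z => (z - a) ^ k) n) with hZ
  set V : ℕ → X := fun n => (1 / Real.pi : ℂ) • YY Ψ u (m n) (q (fun z => (z - a)⁻¹) n) with hV
  set CC : ℝ := (C₀ * Mη * ‖x₀‖ + 1 / Real.pi * (C₀ * (Kr * (Cg * KV)) * U)) +
      1 / Real.pi * (C₀ * (Kr * (τ⁻¹ * (Cg * KV))) * U) with hCC
  have hCC1 : 0 ≤ C₀ * Mη * ‖x₀‖ + 1 / Real.pi * (C₀ * (Kr * (Cg * KV)) * U) := by positivity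
  have hCC2 : 0 ≤ 1 / Real.pi * (C₀ * (Kr * (τ⁻¹ * (Cg * KV))) * U) := by positivity
  have hZb : ∀ n k, ‖Z n k‖ ≤ CC * r ^ k := by
    intro n k
    obtain ⟨-, -, h3⟩ := hYp n k
    have h4 := hAb k
    have hrk : 0 < r ^ k := by positivity
    simp only [hZ]
    calc _ ≤ ‖A k‖ + ‖(1 / Real.pi : ℂ) • YY Ψ u (m n) (q (fun z => (z - a) ^ k) n)‖ :=
          norm_sub_le _ _
      _ ≤ C₀ * Mη * ‖x₀‖ * r ^ k + 1 / Real.pi * (C₀ * (Kr * (r ^ k * (Cg * KV))) * U) := by
          rw [norm_smul, hpi']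
          gcongr
      _ = (C₀ * Mη * ‖x₀‖ + 1 / Real.pi * (C₀ * (Kr * (Cg * KV)) * U)) * r ^ k := by ring
      _ ≤ _ := mul_le_mul_of_nonneg_right (by rw [hCC]; linarith) hrk.le
  have hVb : ∀ n, ‖V n‖ ≤ CC := by
    intro n
    obtain ⟨-, -, h3⟩ := hYi n
    simp only [hV]
    calc _ ≤ 1 / Real.pi * (C₀ * (Kr * (τ⁻¹ * (Cg * KV))) * U) := by
          rw [norm_smul, hpi']
          gcongr
      _ ≤ _ := by rw [hCC]; linarith
  -- the errors in the limit
  have hlimE : ∀ B : ℝ, Tendsto (fun n => 1 / Real.pi * (B * κ * G * ε n) +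
      (1 / ((n:ℝ) + 1)) * CC * (B + 1)) atTop (𝓝 0) := by
    intro B
    have h1 := (hε0.const_mul (B * κ * G)).const_mul (1 / Real.pi)
    have h2 := (hlim1.mul_const CC).mul_const (B + 1)
    have h3 := h1.add h2
    simpa using h3
  refine ⟨Z, V, CC, hZb, hVb, fun k' => ?_, ?_⟩
  · refine squeeze_zero_norm (fun n => ?_) (hlimE (r ^ k'))
    obtain ⟨-, i2, -⟩ := hYp n k'
    have e4 : (fun j z => (z - a) * q (fun z => (z - a) ^ k') n j z) =
        q (fun z => (z - a) ^ (k' + 1)) n := by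
      funext j z
      simp only [hq]
      ring
    rw [e4] at i2
    have hfr : (N + fr u v (m n)) (A k') - a • A k' = A (k' + 1) +
        ∑ i ∈ Finset.range (m n), v i (A k') • u i := by
      rw [add_apply, fr_apply, add_sub_right_comm, hAs]
    have hE : (N + fr u v (m n)) (Z n k') - a • Z n k' - Z n (k' + 1) =
        (1 / Real.pi : ℂ) • ∑ i ∈ Finset.range (m n),
          ((∫ z, (q (fun z => (z - a) ^ k') n i z - ∑ j ∈ Finset.range (m n),
          ct φ (v' i) (u' j) z * q (fun z => (z - a) ^ k') n j z)) -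
            ∫ z, (z - a) ^ k' * db (Θ n) z * k i z) • u i := by
      have h5 : ∀ i, ∫ z, (z - a) ^ k' * db (Θ n) z * k i z = -(Real.pi * v i (A k')) := fun i =>
        (((hkΘ i) (Θ n) r hr (hΘ n)).1 k').2
      simp_rw [h5]
      simp only [hZ, map_sub, map_smul]
      rw [eq_add_of_sub_eq hfr, eq_add_of_sub_eq i2]
      simp only [sub_neg_eq_add, add_smul, Finset.sum_add_distrib, smul_sub, smul_add,
        Finset.smul_sum, smul_smul, mul_add]
      have h6 : ∀ i, (1 / Real.pi : ℂ) * (Real.pi * v i (A k')) = v i (A k') := fun i => by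
        field_simp
      simp_rw [h6]
      rw [mul_comm (1 / Real.pi : ℂ) a]
      abel
    have e : (N + K) (Z n k') - a • Z n k' - Z n (k' + 1) =
        ((N + fr u v (m n)) (Z n k') - a • Z n k' - Z n (k' + 1)) +
        (K (Z n k') - fr u v (m n) (Z n k')) := by
      rw [add_apply, add_apply]
      abel
    rw [e, hE]
    refine (norm_add_le _ _).trans (add_le_add ?_ ?_)
    · rw [norm_smul, hpi']
      exact mul_le_mul_of_nonneg_left (herr _ (r ^ k') (hpm k') (by positivity) (hpB k') n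
        (fun i => (((hkΘ i) (Θ n) r hr (hΘ n)).1 k').1)) (by positivity)
    · have h2 := htail (m n) (Z n k')
      have h4 : tl (m n) * ‖Z n k'‖ ≤ (1 / ((n:ℝ) + 1)) * (CC * r ^ k') :=
        mul_le_mul (hm2 n) (hZb n k') (norm_nonneg _) (by positivity)
      refine (h2.trans h4).trans ?_
      have h5 : 0 ≤ CC := by rw [hCC]; linarith
      have h6 : (0:ℝ) ≤ 1 / ((n:ℝ) + 1) := by positivity
      calc (1 / ((n:ℝ) + 1)) * (CC * r ^ k') = (1 / ((n:ℝ) + 1)) * CC * r ^ k' := by ring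
        _ ≤ (1 / ((n:ℝ) + 1)) * CC * (r ^ k' + 1) :=
            mul_le_mul_of_nonneg_left (by linarith) (mul_nonneg h6 h5)
  · refine squeeze_zero_norm (fun n => ?_) (hlimE τ⁻¹)
    obtain ⟨-, i2, -⟩ := hYi n
    have e4 : YY Ψ u (m n) (fun j z => (z - a) * q (fun z => (z - a)⁻¹) n j z) =
        YY Ψ u (m n) (q (fun z => (z - a) ^ 0) n) := by
      congr 1
      funext j z
      simp only [hq]
      by_cases hz : z = a
      · rw [hz, c6 n a (mem_ball_self hτ)]
        simp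
      · have : z - a ≠ 0 := sub_ne_zero.mpr hz
        field_simp
    rw [e4] at i2
    have hE : op Ψ η x₀ - Z n 0 - ((N + fr u v (m n)) (V n) - a • V n) =
        (1 / Real.pi : ℂ) • ∑ i ∈ Finset.range (m n),
          ((∫ z, (q (fun z => (z - a)⁻¹) n i z - ∑ j ∈ Finset.range (m n),
          ct φ (v' i) (u' j) z * q (fun z => (z - a)⁻¹) n j z)) -
            ∫ z, (z - a)⁻¹ * db (Θ n) z * k i z) • u i := by
      have h5 : ∀ i, ∫ z, (z - a)⁻¹ * db (Θ n) z * k i z = 0 := fun i =>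
        ((hkΘ i) (Θ n) r hr (hΘ n)).2.2
      simp_rw [h5, sub_zero]
      rw [← hA0]
      simp only [hZ, hV, map_smul]
      rw [eq_add_of_sub_eq i2]
      simp only [smul_sub, smul_add, smul_smul]
      rw [mul_comm (1 / Real.pi : ℂ) a]
      abel
    have e : op Ψ η x₀ - Z n 0 - ((N + K) (V n) - a • V n) =
        (op Ψ η x₀ - Z n 0 - ((N + fr u v (m n)) (V n) - a • V n)) +
        -(K (V n) - fr u v (m n) (V n)) := by
      rw [add_apply, add_apply]
      abel
    rw [e, hE]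
    refine (norm_add_le _ _).trans (add_le_add ?_ ?_)
    · rw [norm_smul, hpi']
      exact mul_le_mul_of_nonneg_left (herr _ τ⁻¹ him (by positivity) hiB n
        (fun i => ((hkΘ i) (Θ n) r hr (hΘ n)).2.1)) (by positivity)
    · rw [norm_neg]
      have h2 := htail (m n) (V n)
      have h4 : tl (m n) * ‖V n‖ ≤ (1 / ((n:ℝ) + 1)) * CC :=
        mul_le_mul (hm2 n) (hVb n) (norm_nonneg _) (by positivity)
      refine (h2.trans h4).trans ?_
      have h5 : 0 ≤ CC := by rw [hCC]; linarith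
      have h6 : (0:ℝ) ≤ 1 / ((n:ℝ) + 1) := by positivity
      have h7 : 0 ≤ τ⁻¹ := by positivity
      calc (1 / ((n:ℝ) + 1)) * CC = (1 / ((n:ℝ) + 1)) * CC * 1 := (mul_one _).symm
        _ ≤ (1 / ((n:ℝ) + 1)) * CC * (τ⁻¹ + 1) :=
            mul_le_mul_of_nonneg_left (by linarith) (mul_nonneg h6 h5)

end Pool.Agent.Q88.NB
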