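import Pool.Agent.Q88.NB.CaseB2

/-!
# Chains at the points of the essential spectrum
-/

set_option autoImplicit false

namespace Pool.Agent.Q88.NB

open MeasureTheory Set Metric Filter Topology
open scoped ENNReal NNReal ComplexConjugate ContDiff
open Pool.Agent.Y283.NK (ct)
open Pool.Agent.Y271.RO (ht Bd db Cut hHT hCTG hPOM pw fd Cheap)
open Pool.Agent.Y941.RO (CO)
open Pool.Agent.Q98.RB
open Pool.Agent.Q98.NR (IsK)
open Pool.Agent.Q130.TC (cau S_CAU WT S_MZ nm Am sm S_SM S_CMA IsW S_WTI S_LW S_LNK)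

variable {X : Type} [NormedAddCommGroup X] [NormedSpace ℂ X]
variable {N : X →L[ℂ] X} {R : ℝ} {Ψ : C(DD R, ℂ) →ₐ[ℂ] (X →L[ℂ] X)}

/-- a functional which vanishes on a subspace of finite dimension but not at the range of an operator
which is not of finite rank -/
theorem exists_fun_fin {P : X →L[ℂ] X} (hP : ¬ FR P) (F : Submodule ℂ X)
    [hfin : FiniteDimensional ℂ F] :
    ∃ w : X →L[ℂ] ℂ, (∀ y ∈ F, w y = 0) ∧ w.comp P ≠ 0 := by
  by_contra hcon
  push Not at hcon
  apply hP
  have hle : LinearMap.range (P : X →ₗ[ℂ] X) ≤ F := by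
    rintro _ ⟨x, rfl⟩
    by_contra hx
    obtain ⟨π, hπ⟩ := Submodule.ClosedComplemented.of_finiteDimensional F
    have hne : P x - (π (P x) : X) ≠ 0 := by
      intro h
      apply hx
      rw [sub_eq_zero] at h
      show P x ∈ _
      rw [h]
      exact (π (P x)).2
    obtain ⟨f, hf⟩ := SeparatingDual.exists_ne_zero (R := ℂ) hne
    have h1 := hcon (f.comp (ContinuousLinearMap.id ℂ X - F.subtypeL.comp π)) (by
      intro y hy
      have h2 := hπ ⟨y, hy⟩
      have h3 : ((π y : F) : X) = y := congrArg Subtype.val h2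
      simp [h3])
    apply hf
    have h4 := congrArg (fun g : X →L[ℂ] ℂ => g x) h1
    simpa using h4
  unfold FR
  exact Submodule.finiteDimensional_of_le hle

/-- near a point of the essential spectrum `N + K - a` is not surjective modulo the range of `K` -/
theorem surK [CompleteSpace X] (hΨ : Cal N R Ψ) {K : X →L[ℂ] X} (hK : IsCompactOperator (⇑K))
    {a : ℂ} (hE : Ess Ψ a) : ¬ ∀ x : X, ∃ W W' : X, x = (N + K) W - a • W + K W' := by
  classical
  intro hsurj
  obtain ⟨C₀, hC₀, hop⟩ := op_bound hΨ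
  let L : (X × X) →L[ℂ] X :=
    (N + K - a • ContinuousLinearMap.id ℂ X).comp (ContinuousLinearMap.fst ℂ X X) +
      K.comp (ContinuousLinearMap.snd ℂ X X)
  have hL : ∀ W W' : X, L (W, W') = (N + K) W - a • W + K W' := by
    intro W W'
    simp [L]
  have hs : Function.Surjective L := by
    intro x
    obtain ⟨W, W', h⟩ := hsurj x
    exact ⟨(W, W'), by rw [hL, ← h]⟩
  obtain ⟨C, hC0, hC⟩ := L.exists_preimage_norm_le hs
  -- the radius
  obtain ⟨t, ht⟩ : ∃ t : ℝ, t = 1 / (16 * (C * C₀ + 1)) := ⟨_, rfl⟩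
  have ht0 : 0 < t := by rw [ht]; positivity
  -- the net
  obtain ⟨e, he⟩ : ∃ e : ℝ, e = 1 / (16 * (C + 1)) := ⟨_, rfl⟩
  have he0 : 0 < e := by rw [he]; positivity
  have htb : TotallyBounded (K '' closedBall (0:X) 1) := by
    have h1 := hK.isCompact_closure_image_closedBall (𝕜₁ := ℂ) 1
    exact (h1.totallyBounded).subset subset_closure
  obtain ⟨Y, hYf, hY⟩ := Metric.totallyBounded_iff.1 htb e he0
  have hFfin : FiniteDimensional ℂ (Submodule.span ℂ ((op Ψ (cf a t)) '' Y)) :=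
    FiniteDimensional.span_of_finite ℂ (hYf.image _)
  obtain ⟨w₀, hw₀, hw₁⟩ := exists_fun_fin (hE t ht0) (Submodule.span ℂ ((op Ψ (cf a t)) '' Y))
  obtain ⟨w, hw⟩ : ∃ w, w = w₀.comp (op Ψ (cf a t)) := ⟨_, rfl⟩
  rw [← hw] at hw₁
  have hwY : ∀ y ∈ Y, w y = 0 := by
    intro y hy
    rw [hw]
    exact hw₀ _ (Submodule.subset_span (mem_image_of_mem _ hy))
  have hwK : ∀ x, ‖w (K x)‖ ≤ ‖w‖ * e * ‖x‖ := by
    have h1 : ∀ x : X, ‖x‖ ≤ 1 → ‖(w.comp K) x‖ ≤ ‖w‖ * e := by
      intro x hx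
      have h2 : K x ∈ ⋃ y ∈ Y, ball y e := hY (mem_image_of_mem _ (mem_closedBall_zero_iff.2 hx))
      obtain ⟨y, hy, hxy⟩ := mem_iUnion₂.1 h2
      rw [mem_ball, dist_eq_norm] at hxy
      have h3 : (w.comp K) x = w (K x - y) := by
        rw [map_sub, hwY y hy, sub_zero]
        rfl
      rw [h3]
      exact (w.le_opNorm _).trans (mul_le_mul_of_nonneg_left hxy.le (norm_nonneg _))
    have h2 : ‖w.comp K‖ ≤ ‖w‖ * e := by
      refine ContinuousLinearMap.opNorm_le_of_unit_norm (by positivity) fun x hx => h1 x hx.le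
    intro x
    have h3 := (w.comp K).le_opNorm x
    exact h3.trans (mul_le_mul_of_nonneg_right h2 (norm_nonneg _))
  have hww : ∀ x, w x = w (op Ψ (cf a (2 * t)) x) := by
    intro x
    rw [hw]
    show w₀ (op Ψ (cf a t) x) = w₀ (op Ψ (cf a t) (op Ψ (cf a (2 * t)) x))
    rw [← op_mul_apply (cf_cont _ _) (cf_cont _ _)]
    congr 2
    congr 1
    funext z
    rcases le_or_gt (2 * t) ‖z - a‖ with h | h
    · rw [cf_zero ht0 h, zero_mul]
    · rw [cf_one (t := 2 * t) (by positivity) h.le, mul_one]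
  have hcc : Continuous fun z => (z - a) * cf a (2 * t) z := by
    have := cf_cont a (2 * t)
    fun_prop
  have hwN : ∀ W, w (N W - a • W) = w (op Ψ (fun z => (z - a) * cf a (2 * t) z) W) := by
    intro W
    have h1 := op_mul_apply (Ψ := Ψ) (cf_cont a (2 * t))
      (show Continuous fun z : ℂ => z - a by fun_prop) W
    have h2 : op Ψ (fun z : ℂ => z - a) W = N W - a • W := by
      rw [op_sub continuous_id' continuous_const, op_id hΨ, op_const]
      rfl
    rw [hww, ← h2, ← h1]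
    congr 2
    congr 1
    funext z
    ring
  have hbd : ‖op Ψ (fun z => (z - a) * cf a (2 * t) z)‖ ≤ C₀ * (4 * t) := by
    refine hop _ _ hcc (by positivity) fun z _ => ?_
    rcases le_or_gt (4 * t) ‖z - a‖ with h | h
    · rw [cf_zero (t := 2 * t) (by positivity) (by linarith), mul_zero, norm_zero]
      positivity
    · rw [norm_mul]
      calc ‖z - a‖ * ‖cf a (2 * t) z‖ ≤ 4 * t * 1 :=
            mul_le_mul h.le (cf_norm _ _ _) (norm_nonneg _) (by positivity)
        _ = _ := mul_one _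
  have hnorm : ‖w‖ ≤ ‖w‖ * ((C₀ * (4 * t)) * C + e * (2 * C)) := by
    refine w.opNorm_le_bound (by positivity) fun x => ?_
    obtain ⟨p, hp, hpn⟩ := hC x
    have hp1 : ‖p.1‖ ≤ C * ‖x‖ := (norm_fst_le p).trans hpn
    have hp2 : ‖p.2‖ ≤ C * ‖x‖ := (norm_snd_le p).trans hpn
    have h1 : w x = w (N p.1 - a • p.1) + w (K (p.1 + p.2)) := by
      have h2 : x = (N + K) p.1 - a • p.1 + K p.2 := by
        rw [← hL, Prod.mk.eta, hp]
      rw [← map_add]
      congr 1
      rw [h2, add_apply, map_add]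
      abel
    rw [h1, hwN]
    have h3 : ‖w (op Ψ (fun z => (z - a) * cf a (2 * t) z) p.1)‖ ≤
        ‖w‖ * ((C₀ * (4 * t)) * (C * ‖x‖)) := by
      calc ‖w (op Ψ (fun z => (z - a) * cf a (2 * t) z) p.1)‖
          ≤ ‖w‖ * (‖op Ψ (fun z => (z - a) * cf a (2 * t) z)‖ * ‖p.1‖) :=
            (w.le_opNorm _).trans (mul_le_mul_of_nonneg_left ((op Ψ _).le_opNorm _) (norm_nonneg w))
        _ ≤ ‖w‖ * ((C₀ * (4 * t)) * (C * ‖x‖)) := by gcongr
    have h4 : ‖w (K (p.1 + p.2))‖ ≤ ‖w‖ * e * (2 * (C * ‖x‖)) := by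
      refine (hwK _).trans (mul_le_mul_of_nonneg_left ?_ (by positivity))
      exact (norm_add_le _ _).trans (by linarith)
    refine (norm_add_le _ _).trans ((add_le_add h3 h4).trans (le_of_eq (by ring)))
  have hsmall : (C₀ * (4 * t)) * C + e * (2 * C) ≤ 1 / 2 := by
    have h1 : 0 ≤ C * C₀ := by positivity
    have h2 : C₀ * (4 * (1 / (16 * (C * C₀ + 1)))) * C = (C * C₀) / (4 * (C * C₀ + 1)) := by
      field_simp
      ring
    have h3 : (1 / (16 * (C + 1))) * (2 * C) = C / (8 * (C + 1)) := by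
      field_simp
      ring
    have h4 : (C * C₀) / (4 * (C * C₀ + 1)) ≤ 1 / 4 := by
      rw [div_le_div_iff₀ (by positivity) (by norm_num)]
      linarith
    have h5 : C / (8 * (C + 1)) ≤ 1 / 8 := by
      rw [div_le_div_iff₀ (by positivity) (by norm_num)]
      linarith
    rw [ht, he, h2, h3]
    linarith
  have hw0 : 0 < ‖w‖ := norm_pos_iff.2 hw₁
  nlinarith

/-- the steps of project TC which are used -/
structure TCH : Prop where
  cau : S_CAU
  mz : S_MZ
  wti : S_WTI
  sm : S_SM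
  lw : S_LW
  cma : S_CMA
  lnk : S_LNK

/-- case B -/
theorem caseB (hSM : S_SM) [CompleteSpace X] (hX : Refl X) (hΨ : Cal N R Ψ) {S : Type}
    [MeasurableSpace S] {μ : Measure S}
    [SigmaFinite μ] {φ : S → ℂ} {u' v' : ℕ → Lp ℂ 2 μ} (hφ : Measurable φ)
    {K : X →L[ℂ] X} {u : ℕ → X} {v : ℕ → (X →L[ℂ] ℂ)}
    (hF : ∀ i j, IsK Ψ (v i) (u j) (ct φ (v' i) (u' j))) (hK : Nuc K u v)
    (hKc : IsCompactOperator (⇑K))
    {w : ℂ → ℝ} (hw : IsW φ u' v' w) {a : ℂ} {τ r : ℝ} (hτ : 0 < τ) (hτr : τ < r)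
    (hcut : Cut (fun z => (w z : ℂ)) a τ r) (hE : Ess Ψ a) : HasCh (N + K) a r := by
  by_contra hno
  have hch : ∀ Y, IsChain (N + K) a r Y → Y 0 = 0 := by
    intro Y hY
    by_contra h0
    exact hno ⟨Y, hY, h0⟩
  refine surK hΨ hKc hE fun x => ?_
  -- the splitting of `x`
  have ht : 0 < τ / 4 := by positivity
  have hη := cf_cont a (τ / 4)
  set k : ℂ → ℂ := fun z => Hm a (τ / 4) z * (1 - cf a (τ / 4) z) with hk
  have hkc : Continuous k := (Hm_cont a ht).mul (continuous_const.sub hη)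
  obtain ⟨Z, V, C, h1, h2, h3, h4⟩ := cutvB hSM hΨ hφ hF hK hw hτ hτr hcut x hη (fun z hz => by
    rw [mem_ball, dist_eq_norm, not_lt] at hz
    exact cf_zero ht (by linarith))
  obtain ⟨Y, W', hY, hx⟩ := (wlim_chain hX (N + K) a r C Z h1 h3).1 a (op Ψ (cf a (τ / 4)) x)
    V C h2 h4
  have h5 : x = op Ψ (cf a (τ / 4)) x + (N (op Ψ k x) - a • op Ψ k x) := by
    have h6 := op_step hΨ hkc (k := fun z => 1 - cf a (τ / 4) z) (continuous_const.sub hη) a 0
      (fun z => by
        rw [hk, add_zero]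
        rcases le_or_gt (τ / 4) ‖z - a‖ with h | h
        · have hne : z - a ≠ 0 := by
            intro h0
            rw [h0, norm_zero] at h
            linarith
          simp only
          rw [Hm_far ht h]
          field_simp
        · simp only
          rw [cf_one ht h.le]
          simp) x
    rw [h6, zero_smul, add_zero, op_sub continuous_const hη, op_const, one_smul]
    simp
  refine ⟨W' + op Ψ k x, -(op Ψ k x), ?_⟩
  conv_lhs => rw [h5, hx, hch Y hY]
  rw [map_add, smul_add, map_neg, add_apply N K (op Ψ k x)]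
  abel

/-- chains at the points of the essential spectrum, if there are biorthogonal functionals -/
theorem chain_bio (H : TCH) [CompleteSpace X] (hX : Refl X) (hΨ : Cal N R Ψ)
    {K : X →L[ℂ] X} {u : ℕ → X} {v : ℕ → (X →L[ℂ] ℂ)} (hK : Nuc K u v)
    (hKc : IsCompactOperator (⇑K))
    {f : ℕ → (X →L[ℂ] ℂ)} (hf : ∀ i j, f i (u j) = if i = j then 1 else 0)
    (a : ℂ) {r : ℝ} (hr : 0 < r) (hE : Ess Ψ a) : HasCh (N + K) a r := by
  obtain ⟨S, _, μ, _, φ, u', v', hφ, hu', hv', hF⟩ := real_mat hΨ u v hK.su hK.sv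
  obtain ⟨w, hw⟩ := H.lw S μ φ hφ u' v' hu' hv'
  set ρ : ℝ := r / 4 with hρ
  have hρ0 : 0 < ρ := by positivity
  have hwm : Measurable fun z => (w z : ℂ) := Complex.measurable_ofReal.comp hw.meas
  by_cases hne : ∀ᵐ z ∂(volume.restrict (ball a ρ)), (w z : ℂ) ≠ 0
  · by_cases hcheap : ∀ k : ℕ, ∃ n : ℕ, k ≤ n ∧
      Cheap (pw (fd (fun z => (w z : ℂ)) a ρ) (1 / (n + 1))) a (1 / (k + 1)) ρ (1 / (k + 1))
    · have hi : IntegrableOn (fun z => (w z : ℂ)) (ball a ρ) := by
        have h1 : IntegrableOn w (ball a ρ) :=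
          (hw.loc.integrableOn_isCompact (isCompact_closedBall a ρ)).mono_set
            ball_subset_closedBall
        exact h1.ofReal
      obtain ⟨C, c₀, l, δ, hC, hc₀, hl1, hl2, hl3, hδ, hδ0, hWT, hlim⟩ :=
        H.lnk _ a ρ hρ0 hwm hi hcheap
      have hB : ∀ n, ∃ B : ℝ, ∀ z, l n z ≤ B := by
        intro n
        obtain ⟨B, hB⟩ := (hl1 n).cont.bounded_above_of_compact_support (hl1 n).supp
        exact ⟨B, fun z => (le_abs_self _).trans (hB z)⟩
      choose B hB using hB
      have h4 := caseA (C := max C c₀) H.cau H.mz H.sm H.cma hX hΨ hφ hu' hv' hF hK hf hw hρ0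
        (lt_max_of_lt_left hC) hc₀ (fun n => (hl1 n).cont.measurable)
        (fun n z => ⟨(hl1 n).nonneg z, hB n z⟩) hl2 (fun n => (hl3 n).ge)
        (fun n => (hl3 n).le.trans (le_max_right _ _)) hδ hδ0 (fun n => by
          intro S' _ μ' _ φ' k' hφ' hk' t ht
          refine (hWT n S' μ' φ' k' hφ' hk' t ht).trans ?_
          have h5 : 0 ≤ ∫ s, ‖k' s‖ ∂μ' := integral_nonneg fun s => norm_nonneg _
          have h6 := le_max_left C c₀
          gcongr) (by
          refine hlim.congr fun n => ?_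
          refine integral_congr_ae (Eventually.of_forall fun z => ?_)
          simp only
          rw [Complex.norm_real, Real.norm_of_nonneg (hw.nonneg z)])
      rwa [show 4 * ρ = r by rw [hρ]; ring] at h4
    · -- case B
      have hi : IntegrableOn (fun z => (w z : ℂ)) (ball a ρ) := by
        have h1 : IntegrableOn w (ball a ρ) :=
          (hw.loc.integrableOn_isCompact (isCompact_closedBall a ρ)).mono_set
            ball_subset_closedBall
        exact h1.ofReal
      push Not at hcheap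
      obtain ⟨k, hk⟩ := hcheap
      have hk1 : (0:ℝ) < 1 / ((k:ℝ) + 1) := by positivity
      set τ0 : ℝ := min (1 / ((k:ℝ) + 1)) (ρ / 2) with hτ0
      have hτpos : 0 < τ0 := lt_min hk1 (by positivity)
      have hτr : τ0 < ρ := (min_le_right _ _).trans_lt (by linarith)
      obtain ⟨hc, hL⟩ := Pool.Agent.Y271.RO.hPCA (fd (fun z => (w z : ℂ)) a ρ)
        (Pool.Agent.Y271.RO.fd_integrable hi) (Pool.Agent.Y271.RO.fd_nonneg _ a ρ)
      have hstep : ∀ n : ℕ, ∃ Θ' : ℂ → ℂ, ContDiff ℝ ∞ Θ' ∧ (∀ z ∈ ball a (τ0 / 2), Θ' z = 1) ∧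
          (∀ z, 2 * ρ ≤ ‖z - a‖ → Θ' z = 0) ∧
          ∀ z, ‖db Θ' z‖ ≤ 1 / (1 / ((k:ℝ) + 1)) *
            (pw (fd (fun z => (w z : ℂ)) a ρ) (1 / ((n + k : ℕ) + 1)) z + 1 / (n + 1)) := by
        intro n
        have hε : (0:ℝ) < 1 / (((n + k : ℕ) : ℝ) + 1) := by positivity
        obtain ⟨hWc, hW0⟩ := hc _ hε
        rcases Pool.Agent.Y271.RO.hALT _ a τ0 ρ (1 / ((k:ℝ) + 1)) hWc hW0 hτpos hτr hk1 with
          h1 | ⟨Θ, h1, h2, h3, h4⟩
        · exact absurd (h1.mono (min_le_left _ _)) (hk (n + k) (by omega))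
        · exact Pool.Agent.Y271.RO.hSMO _ Θ a τ0 ρ (1 / ((k:ℝ) + 1)) (1 / ((n:ℝ) + 1)) hWc hW0
            hτpos hτr hk1 (by positivity) h1 h2 h3 h4
      choose Θ' h1 h2 h3 h4 using hstep
      have hcut : Cut (fun z => (w z : ℂ)) a (τ0 / 2) (2 * ρ) :=
        Pool.Agent.Y271.RO.hCUTA Pool.Agent.Y271.RO.hPCA (fun z => (w z : ℂ)) a (τ0 / 2) ρ
          (1 / ((k:ℝ) + 1)) k (by positivity) (by linarith) hk1 hwm hi hne Θ' h1 h2 h3 h4
      exact (caseB H.sm hX hΨ hφ hF hK hKc hw (by positivity) (by linarith) hcut hE).mono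
        (by positivity) (by rw [hρ]; linarith)
  · -- zeros of positive area
    set G : Set ℂ := ball a ρ ∩ {z | w z = 0} with hG
    have hGm : MeasurableSet G := measurableSet_ball.inter (hw.meas (measurableSet_singleton 0))
    have hGpos : volume G ≠ 0 := by
      intro h0
      apply hne
      rw [ae_restrict_iff' measurableSet_ball, ae_iff]
      refine measure_mono_null (fun z hz => ?_) h0
      simp only [ne_eq, mem_setOf_eq, Classical.not_imp, not_not] at hz
      exact ⟨hz.1, by exact_mod_cast hz.2⟩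
    have hGfin : volume G ≠ ⊤ :=
      ne_top_of_le_ne_top measure_ball_lt_top.ne (measure_mono inter_subset_left)
    have hGr : 0 < volume.real G := by
      rw [measureReal_def]
      exact ENNReal.toReal_pos hGpos hGfin
    obtain ⟨C, hC, hWT⟩ := H.wti ρ hρ0
    have hI : ∫ z, G.indicator (fun _ => (1:ℝ)) z = volume.real G := by
      rw [integral_indicator hGm]
      simp
    have h4 := caseA (C := max C (volume.real G)) (l := fun _ => G.indicator fun _ => (1:ℝ))
      (B := fun _ => 1) (δ := fun _ => 0) H.cau H.mz H.sm H.cma hX hΨ hφ hu' hv' hF hK hf hw hρ0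
      (lt_max_of_lt_left hC) hGr (fun n => measurable_const.indicator hGm)
      (fun n z => ⟨indicator_nonneg (fun _ _ => zero_le_one) z,
        indicator_le_self' (fun _ _ => zero_le_one) z⟩)
      (fun n z hz => indicator_of_notMem (fun h => hz h.1) _) (fun n => hI.ge)
      (fun n => hI.le.trans (le_max_right _ _)) (fun n => le_rfl) tendsto_const_nhds
      (fun n => by
        intro S' _ μ' _ φ' k' hφ' hk' t ht
        refine (hWT a G hGm inter_subset_left S' μ' φ' k' hφ' hk' t ht).trans ?_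
        have h5 : 0 ≤ ∫ s, ‖k' s‖ ∂μ' := integral_nonneg fun s => norm_nonneg _
        have h6 := le_max_left C (volume.real G)
        gcongr) (by
        have h5 : ∀ z, w z * G.indicator (fun _ => (1:ℝ)) z = 0 := by
          intro z
          by_cases hz : z ∈ G
          · rw [hz.2, zero_mul]
          · rw [indicator_of_notMem hz, mul_zero]
        simp_rw [h5]
        simp)
    rwa [show 4 * ρ = r by rw [hρ]; ring] at h4

end Pool.Agent.Q88.NB
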