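import Pool.Agent.Q88.NB.Chain
import Pool.Agent.Q88.RF.DualV

/-!
# Chains at the points of the essential spectrum: the general case

The vectors `u_j` need not have biorthogonal functionals: we add a summand `ℓ²` on which `N` is a
multiple `μ` of the identity, with `μ` far away.
-/

set_option autoImplicit false

namespace Pool.Agent.Q88.NB

open Set Metric Filter Topology
open scoped ENNReal NNReal ComplexConjugate
open Pool.Agent.Q98.RB
open Pool.Agent.Q88.RF (HC)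

variable {X : Type} [NormedAddCommGroup X] [NormedSpace ℂ X]
variable {N : X →L[ℂ] X} {R : ℝ} {Ψ : C(DD R, ℂ) →ₐ[ℂ] (X →L[ℂ] X)}

/-! ### Reflexive spaces -/

theorem Refl.prod {Z : Type} [NormedAddCommGroup Z] [NormedSpace ℂ Z] (hX : Refl X)
    (hZ : Refl Z) : Refl (X × Z) := by
  intro F
  obtain ⟨x, hx⟩ := hX (F.comp ((ContinuousLinearMap.compL ℂ (X × Z) X ℂ).flip
    (ContinuousLinearMap.fst ℂ X Z)))
  obtain ⟨z, hz⟩ := hZ (F.comp ((ContinuousLinearMap.compL ℂ (X × Z) Z ℂ).flip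
    (ContinuousLinearMap.snd ℂ X Z)))
  refine ⟨(x, z), ?_⟩
  ext w
  have h1 : w = (w.comp (ContinuousLinearMap.inl ℂ X Z)).comp (ContinuousLinearMap.fst ℂ X Z) +
      (w.comp (ContinuousLinearMap.inr ℂ X Z)).comp (ContinuousLinearMap.snd ℂ X Z) := by
    refine ContinuousLinearMap.ext fun p => ?_
    obtain ⟨a, b⟩ := p
    show w (a, b) = w (a, 0) + w (0, b)
    rw [← map_add]
    simp
  have h2 := congrArg (fun G : StrongDual ℂ (StrongDual ℂ X) =>
    G (w.comp (ContinuousLinearMap.inl ℂ X Z))) hx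
  have h3 : w (x, 0) = F ((w.comp (ContinuousLinearMap.inl ℂ X Z)).comp
    (ContinuousLinearMap.fst ℂ X Z)) := h2
  have h4 := congrArg (fun G : StrongDual ℂ (StrongDual ℂ Z) =>
    G (w.comp (ContinuousLinearMap.inr ℂ X Z))) hz
  have h5 : w (0, z) = F ((w.comp (ContinuousLinearMap.inr ℂ X Z)).comp
    (ContinuousLinearMap.snd ℂ X Z)) := h4
  show w (x, z) = F w
  conv_rhs => rw [h1, map_add, ← h3, ← h5, ← map_add]
  simp

theorem Refl.hilbert {E : Type} [NormedAddCommGroup E] [InnerProductSpace ℂ E]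
    [CompleteSpace E] : Refl E := by
  intro F
  -- the conjugate linear functional `F ∘ toDual`
  let L : E →ₗ[ℂ] ℂ :=
    { toFun := fun y => conj (F (InnerProductSpace.toDual ℂ E y))
      map_add' := by
        intro y z
        simp only [map_add]
      map_smul' := by
        intro c y
        simp only [LinearIsometryEquiv.map_smulₛₗ, map_smul, smul_eq_mul, map_mul,
          RingHom.id_apply, Complex.conj_conj] }
  let L' : E →L[ℂ] ℂ := L.mkContinuous ‖F‖ (fun y => by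
    show ‖conj (F (InnerProductSpace.toDual ℂ E y))‖ ≤ _
    rw [RCLike.norm_conj]
    refine (F.le_opNorm _).trans ?_
    rw [LinearIsometryEquiv.norm_map])
  refine ⟨(InnerProductSpace.toDual ℂ E).symm L', ?_⟩
  ext w
  obtain ⟨y, rfl⟩ := (InnerProductSpace.toDual ℂ E).surjective w
  show (InnerProductSpace.toDual ℂ E y) ((InnerProductSpace.toDual ℂ E).symm L') = _
  rw [InnerProductSpace.toDual_apply_apply, ← inner_conj_symm,
    InnerProductSpace.toDual_symm_apply]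
  show conj (conj (F (InnerProductSpace.toDual ℂ E y))) = _
  rw [Complex.conj_conj]

/-! ### The calculus of a direct sum -/

theorem Cal.prodM {Z : Type} [NormedAddCommGroup Z] [NormedSpace ℂ Z] (hΨ : Cal N R Ψ) (μ : ℂ) :
    ∃ (R' : ℝ) (Ψ' : C(DD R', ℂ) →ₐ[ℂ] (X × Z →L[ℂ] X × Z)),
      Cal (N.prodMap (μ • (1 : Z →L[ℂ] Z))) R' Ψ' ∧
      ∀ a, Ess Ψ a → Ess Ψ' a := by
  set R' : ℝ := max R ‖μ‖ with hR'
  have hR : R ≤ R' := le_max_left _ _
  have hμ : μ ∈ closedBall (0:ℂ) R' := mem_closedBall_zero_iff.2 (le_max_right _ _)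
  let f : C(DD R, DD R') := ⟨fun z => ⟨z, closedBall_subset_closedBall hR z.2⟩, by fun_prop⟩
  let Ψ₁ : C(DD R', ℂ) →ₐ[ℂ] (X →L[ℂ] X) := Ψ.comp (ContinuousMap.compRightAlgHom ℂ ℂ f)
  have hΨ₁ : Continuous Ψ₁ := hΨ.cont.comp (ContinuousMap.compRightAlgHom_continuous ℂ ℂ f)
  let Ψ₂ : C(DD R', ℂ) →ₐ[ℂ] (X × Z →L[ℂ] X × Z) := AlgHom.ofLinearMap
    { toFun := fun g => (Ψ₁ g).prodMap (g ⟨μ, hμ⟩ • (1 : Z →L[ℂ] Z))
      map_add' := by
        intro g h
        refine ContinuousLinearMap.ext fun p => ?_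
        show ((Ψ₁ (g + h)) p.1, (g ⟨μ, hμ⟩ + h ⟨μ, hμ⟩) • p.2) =
          (Ψ₁ g p.1, g ⟨μ, hμ⟩ • p.2) + (Ψ₁ h p.1, h ⟨μ, hμ⟩ • p.2)
        rw [map_add, Prod.mk_add_mk, add_smul]
        rfl
      map_smul' := by
        intro c g
        refine ContinuousLinearMap.ext fun p => ?_
        show ((Ψ₁ (c • g)) p.1, (c * g ⟨μ, hμ⟩) • p.2) =
          c • (Ψ₁ g p.1, g ⟨μ, hμ⟩ • p.2)
        rw [map_smul, Prod.smul_mk, smul_smul]
        rfl }
    (by
      refine ContinuousLinearMap.ext fun p => ?_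
      show ((Ψ₁ 1) p.1, (1 : ℂ) • p.2) = p
      rw [map_one, one_smul]
      rfl)
    (by
      intro g h
      refine ContinuousLinearMap.ext fun p => ?_
      show ((Ψ₁ (g * h)) p.1, (g ⟨μ, hμ⟩ * h ⟨μ, hμ⟩) • p.2) =
        (Ψ₁ g (Ψ₁ h p.1), g ⟨μ, hμ⟩ • (h ⟨μ, hμ⟩ • p.2))
      rw [map_mul, smul_smul]
      rfl)
  refine ⟨R', Ψ₂, ⟨lt_of_lt_of_le hΨ.pos hR, ?_, ?_⟩, fun a hE t ht hF => hE t ht ?_⟩
  · have h1 : Continuous fun g : C(DD R', ℂ) =>
        ContinuousLinearMap.prodMapL ℂ X X Z Z (Ψ₁ g, g ⟨μ, hμ⟩ • (1 : Z →L[ℂ] Z)) := by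
      refine (ContinuousLinearMap.continuous _).comp (hΨ₁.prodMk ?_)
      exact (continuous_eval_const (F := C(DD R', ℂ)) _).smul continuous_const
    exact h1
  · have h1 := hΨ.id
    show (Ψ ((⟨Subtype.val, continuous_subtype_val⟩ : C(DD R', ℂ)).comp f)).prodMap
      (μ • (1 : Z →L[ℂ] Z)) = _
    rw [← h1]
    rfl
  · have h1 : ∀ x : X, (op Ψ₂ (cf a t) (x, 0)).1 = op Ψ (cf a t) x := by
      intro x
      have h2 : (rs R' (cf a t)).comp f = rs R (cf a t) := by
        ext s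
        rw [ContinuousMap.comp_apply, rs_apply (cf_cont a t), rs_apply (cf_cont a t)]
        rfl
      show Ψ ((rs R' (cf a t)).comp f) x = _
      rw [h2]
      rfl
    have hF' : FiniteDimensional ℂ (LinearMap.range (op Ψ₂ (cf a t) : X × Z →ₗ[ℂ] X × Z)) := hF
    have h2 : FiniteDimensional ℂ ((LinearMap.range (op Ψ₂ (cf a t) : X × Z →ₗ[ℂ] X × Z)).map
        (LinearMap.fst ℂ X Z)) := inferInstance
    refine Submodule.finiteDimensional_of_le (S₂ := (LinearMap.range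
      (op Ψ₂ (cf a t) : X × Z →ₗ[ℂ] X × Z)).map (LinearMap.fst ℂ X Z)) ?_
    rintro _ ⟨x, rfl⟩
    exact ⟨_, ⟨(x, 0), rfl⟩, h1 x⟩

/-! ### Nuclear operators -/

/-- the operator with given vectors and functionals -/
theorem exists_nuc [CompleteSpace X] {u : ℕ → X} {v : ℕ → (X →L[ℂ] ℂ)}
    (hu : Summable fun j => ‖u j‖) (hv : Summable fun j => ‖v j‖) :
    ∃ K : X →L[ℂ] X, Nuc K u v := by
  have hs : Summable fun j => ‖v j‖ * ‖u j‖ := by
    obtain ⟨M, hM⟩ := hu.tendsto_atTop_zero.bddAbove_range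
    refine Summable.of_nonneg_of_le (fun j => by positivity) (fun j => ?_) (hv.mul_right M)
    exact mul_le_mul_of_nonneg_left (hM ⟨j, rfl⟩) (norm_nonneg _)
  have h1 : Summable fun j => (v j).smulRight (u j) := by
    refine Summable.of_norm_bounded hs fun j => ?_
    rw [ContinuousLinearMap.norm_smulRight_apply]
  obtain ⟨K, hK⟩ := h1
  refine ⟨K, hu, hv, fun x => ?_⟩
  have h2 := hK.mapL (ContinuousLinearMap.apply ℂ X x)
  exact h2

theorem fr_compact (u : ℕ → X) (v : ℕ → (X →L[ℂ] ℂ)) (m : ℕ) :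
    IsCompactOperator (⇑(fr u v m)) := by
  have h1 : fr u v m ∈ (compactOperator (RingHom.id ℂ) X X : Submodule ℂ (X →L[ℂ] X)) := by
    unfold fr
    refine Submodule.sum_mem _ fun j _ => ?_
    exact rank_compact (u j) (v j)
  exact h1

theorem Nuc.compact [CompleteSpace X] {K : X →L[ℂ] X} {u : ℕ → X} {v : ℕ → (X →L[ℂ] ℂ)}
    (h : Nuc K u v) : IsCompactOperator (⇑K) := by
  obtain ⟨τ, hτ0, hτ, hb⟩ := h.tail
  have hlim : Tendsto (fr u v) atTop (𝓝 K) := by
    rw [tendsto_iff_norm_sub_tendsto_zero]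
    refine squeeze_zero (fun _ => norm_nonneg _) (fun m => ?_) hτ
    rw [norm_sub_rev]
    exact ContinuousLinearMap.opNorm_le_bound _ (hτ0 m) fun x => hb m x
  exact isCompactOperator_of_tendsto hlim (Eventually.of_forall (fr_compact u v))

/-- **chains at the points of the essential spectrum** -/
theorem chain (H : TCH) [CompleteSpace X] (hX : Refl X) (hΨ : Cal N R Ψ)
    {K : X →L[ℂ] X} {u : ℕ → X} {v : ℕ → (X →L[ℂ] ℂ)} (hK : Nuc K u v)
    (a : ℂ) {r : ℝ} (hr : 0 < r) (hE : Ess Ψ a) : HasCh (N + K) a r := by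
  set Z := lp (fun _ : ℕ => ℂ) 2 with hZ
  set μ : ℂ := a + ((r + 1 : ℝ) : ℂ) with hμ
  have hμa : r < ‖μ - a‖ := by
    rw [hμ, add_sub_cancel_left, Complex.norm_real, Real.norm_of_nonneg (by positivity)]
    linarith
  obtain ⟨R', Ψ', hΨ', hE'⟩ := Cal.prodM (Z := Z) hΨ μ
  have hXZ : Refl (X × Z) := Refl.prod hX Refl.hilbert
  -- the data
  let e : ℕ → Z := fun j => lp.single 2 j (1:ℂ)
  have he : ∀ j, ‖e j‖ = 1 := by
    intro j
    have := lp.norm_single (E := fun _ : ℕ => ℂ) (p := 2) (by norm_num) j (1:ℂ)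
    rw [this, norm_one]
  let u' : ℕ → X × Z := fun j => (u j, ((1/2:ℂ) ^ j) • e j)
  let v' : ℕ → (X × Z →L[ℂ] ℂ) := fun j => (v j).comp (ContinuousLinearMap.fst ℂ X Z)
  have hu' : Summable fun j => ‖u' j‖ := by
    have h1 : Summable fun j : ℕ => ‖u j‖ + (1/2:ℝ) ^ j := hK.su.add summable_geometric_two
    refine Summable.of_nonneg_of_le (fun j => norm_nonneg _) (fun j => ?_) h1
    show ‖(u j, ((1/2:ℂ) ^ j) • e j)‖ ≤ _
    rw [Prod.norm_def]
    have h2 : ‖((1/2:ℂ) ^ j) • e j‖ = (1/2:ℝ) ^ j := by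
      rw [norm_smul, he, mul_one, norm_pow]
      norm_num
    refine max_le ?_ ?_
    · have : (0:ℝ) ≤ (1/2) ^ j := by positivity
      show ‖u j‖ ≤ _
      linarith
    · show ‖((1/2:ℂ) ^ j) • e j‖ ≤ _
      rw [h2]
      have := norm_nonneg (u j)
      linarith
  have hv' : Summable fun j => ‖v' j‖ := by
    refine Summable.of_nonneg_of_le (fun j => norm_nonneg _) (fun j => ?_) hK.sv
    refine ContinuousLinearMap.opNorm_le_bound _ (norm_nonneg _) fun p => ?_
    exact ((v j).le_opNorm _).trans (mul_le_mul_of_nonneg_left (norm_fst_le p) (norm_nonneg _))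
  obtain ⟨K', hK'⟩ := exists_nuc hu' hv'
  have hK1 : ∀ p, (K' p).1 = K p.1 := by
    intro p
    have h1 := (hK'.rep p).mapL (ContinuousLinearMap.fst ℂ X Z)
    exact h1.unique (hK.rep p.1)
  have hK0 : ∀ p : X × Z, p.1 = 0 → K' p = 0 := by
    intro p hp
    have h1 := hK'.rep p
    have h2 : (fun j => v' j p • u' j) = fun _ => 0 := by
      funext j
      show v j p.1 • u' j = 0
      rw [hp, map_zero, zero_smul]
    rw [h2] at h1
    exact h1.unique hasSum_zero
  let f : ℕ → (X × Z →L[ℂ] ℂ) := fun i =>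
    ((2:ℂ) ^ i) • (lp.evalCLM (𝕜 := ℂ) (fun _ : ℕ => ℂ) 2 i).comp (ContinuousLinearMap.snd ℂ X Z)
  have hf : ∀ i j, f i (u' j) = if i = j then 1 else 0 := by
    intro i j
    show (2:ℂ) ^ i * ((((1/2:ℂ) ^ j) • e j : Z) i) = _
    have h1 : ((((1/2:ℂ) ^ j) • e j : Z) i) = (1/2:ℂ) ^ j * (e j i) := rfl
    rw [h1]
    by_cases hij : i = j
    · subst hij
      rw [if_pos rfl]
      have h2 : e i i = 1 := lp.single_apply_self (E := fun _ : ℕ => ℂ) 2 i (1:ℂ)
      rw [h2, mul_one, ← mul_pow]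
      norm_num
    · rw [if_neg hij]
      have h2 : e j i = 0 := lp.single_apply_ne (E := fun _ : ℕ => ℂ) 2 j (1:ℂ) hij
      rw [h2, mul_zero, mul_zero]
  obtain ⟨Y, ⟨h1, C, h2⟩, h3⟩ := chain_bio H hXZ hΨ' hK' hK'.compact hf a hr (hE' a hE)
  have hstep : ∀ k, (N + K) (Y k).1 - a • (Y k).1 = (Y (k + 1)).1 := by
    intro k
    rw [← h1 k, add_apply, add_apply]
    show _ = (N (Y k).1 + (K' (Y k)).1) - a • (Y k).1
    rw [hK1]
  refine ⟨fun k => (Y k).1, ⟨hstep, C, fun k => (norm_fst_le _).trans (h2 k)⟩, fun h0 => h3 ?_⟩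
  -- the first components vanish
  have hz : ∀ k, (Y k).1 = 0 := by
    intro k
    induction k with
    | zero => exact h0
    | succ k ih => rw [← hstep, ih, map_zero, smul_zero, sub_zero]
  have hs : ∀ k, (Y k).2 = (μ - a) ^ k • (Y 0).2 := by
    intro k
    induction k with
    | zero => simp
    | succ k ih =>
      rw [← h1 k, add_apply, hK0 _ (hz k), add_zero]
      show μ • (Y k).2 - a • (Y k).2 = _
      rw [← sub_smul, ih, smul_smul, pow_succ, mul_comm]
  have hY2 : (Y 0).2 = 0 := by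
    by_contra hne
    have hpos : 0 < ‖(Y 0).2‖ := norm_pos_iff.2 hne
    have hbd : ∀ k : ℕ, (‖μ - a‖ / r) ^ k ≤ C / ‖(Y 0).2‖ := by
      intro k
      have h4 : ‖(Y k).2‖ ≤ C * r ^ k := (norm_snd_le _).trans (h2 k)
      rw [hs, norm_smul, norm_pow] at h4
      rw [div_pow, div_le_div_iff₀ (by positivity) hpos]
      linarith
    obtain ⟨k, hk⟩ := pow_unbounded_of_one_lt (C / ‖(Y 0).2‖) ((one_lt_div hr).2 hμa)
    exact absurd (hbd k) (not_le.2 hk)
  exact Prod.ext (hz 0) hY2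

/-- the adjoint of a nuclear operator -/
theorem Nuc.tr [CompleteSpace X] {K : X →L[ℂ] X} {u : ℕ → X} {v : ℕ → (X →L[ℂ] ℂ)}
    (h : Nuc K u v) :
    Nuc (Q98.RB.tr K) v (fun j => NormedSpace.inclusionInDoubleDual ℂ X (u j)) := by
  refine ⟨h.sv, ?_, fun w => ?_⟩
  · refine Summable.of_nonneg_of_le (fun j => norm_nonneg _) (fun j => ?_) h.su
    exact NormedSpace.double_dual_bound ℂ X (u j)
  · have h1 : Summable fun j => w (u j) • v j := by
      refine Summable.of_norm_bounded (h.sprod.mul_left ‖w‖) fun j => ?_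
      rw [norm_smul]
      calc ‖w (u j)‖ * ‖v j‖ ≤ (‖w‖ * ‖u j‖) * ‖v j‖ :=
            mul_le_mul_of_nonneg_right (w.le_opNorm _) (norm_nonneg _)
        _ = _ := by ring
    obtain ⟨g, hg⟩ := h1
    have h2 : g = Q98.RB.tr K w := by
      ext x
      have h3 := hg.mapL (ContinuousLinearMap.apply ℂ ℂ x)
      have h4 := (h.rep x).mapL w
      have h5 : (fun j => w (v j x • u j)) =
          fun j => (ContinuousLinearMap.apply ℂ ℂ x) (w (u j) • v j) := by
        funext j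
        rw [map_smul, smul_eq_mul, mul_comm]
        rfl
      rw [h5] at h4
      exact h3.unique h4
    rw [← h2]
    exact hg

end Pool.Agent.Q88.NB
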