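import Pool.Agent.Q88.NB.Fred3
import Pool.Agent.Q88.RF.Conc2

/-!
# Defects which are sums of a 1/2-nuclear operator and of series over orbits
-/

set_option autoImplicit false

namespace Pool.Agent.Q88.NB

open Pool.Agent.Q98.RB
open Pool.Agent.Q88.RF (Conc HC tq fred_tq conc_of_tr Fr Ap fred_iff fred_add Kn Kn_fr Kn_eq Kn_norm
  tr_pow tr_norm tq_apply)
open Module Filter Topology Set Metric

variable {X Y : Type} [NormedAddCommGroup X] [NormedSpace ℂ X] [NormedAddCommGroup Y]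
  [NormedSpace ℂ Y]

/-- series over the orbit of a vector -/
def Orb (N : Y →L[ℂ] Y) (ρ : ℝ) (D : X →L[ℂ] Y) : Prop :=
  ∃ (u : Y) (w : ℕ → X →L[ℂ] ℂ), (Summable fun n : ℕ => (n + 1) * ρ ^ n * ‖w n‖) ∧
    ∀ x, HasSum (fun n => w n x • (N ^ n) u) (D x)

/-- series over the orbit of a functional -/
def Orb' (N : Y →L[ℂ] Y) (ρ : ℝ) (D : Y →L[ℂ] X) : Prop :=
  ∃ (w : Y →L[ℂ] ℂ) (u : ℕ → X), (Summable fun n : ℕ => (n + 1) * ρ ^ n * ‖u n‖) ∧
    ∀ y, HasSum (fun n => w ((N ^ n) y) • u n) (D y)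

theorem Orb.red [CompleteSpace Y] {N : Y →L[ℂ] Y} {T : X →L[ℂ] X} {C ρ : ℝ}
    (hρ : 0 < ρ) (hTρ : ∀ k, ‖T ^ k‖ ≤ C * ρ ^ k) (hNρ : ∀ k, ‖N ^ k‖ ≤ C * ρ ^ k)
    {D : X →L[ℂ] Y} (hD : Orb N ρ D) :
    ∃ (K : X →L[ℂ] Y) (u : Y) (v : X →L[ℂ] ℂ), Ap K ∧
      D + (K.comp T - N.comp K) = v.smulRight u := by
  obtain ⟨u, w, hw, h⟩ := hD
  have hC : 0 ≤ C := by
    have := (norm_nonneg _).trans (hTρ 0)
    simpa using this
  have hK : Summable fun n => Kn T N u (w n) n := by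
    refine Summable.of_norm_bounded (hw.mul_left (C ^ 2 * ‖u‖ / ρ)) fun n => ?_
    refine (Kn_norm hρ hTρ hNρ u (w n) n).trans ?_
    refine mul_le_mul_of_nonneg_left ?_ (by positivity)
    have : (0:ℝ) ≤ ρ ^ n * ‖w n‖ := by positivity
    nlinarith
  have hv : Summable fun n => (w n).comp (T ^ n) := by
    refine Summable.of_norm_bounded (hw.mul_left C) fun n => ?_
    refine (ContinuousLinearMap.opNorm_comp_le _ _).trans ?_
    calc ‖w n‖ * ‖T ^ n‖ ≤ ‖w n‖ * (C * ρ ^ n) :=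
          mul_le_mul_of_nonneg_left (hTρ n) (norm_nonneg _)
      _ = C * (ρ ^ n * ‖w n‖) := by ring
      _ ≤ C * ((n + 1) * ρ ^ n * ‖w n‖) := by
          refine mul_le_mul_of_nonneg_left ?_ hC
          have : (0:ℝ) ≤ n * (ρ ^ n * ‖w n‖) := by positivity
          nlinarith
  obtain ⟨K, hK⟩ := hK
  obtain ⟨v, hv⟩ := hv
  refine ⟨K, u, v, Ap.hasSum (fun n => Kn_fr _ _ _ _ _) hK, ?_⟩
  ext x
  have h1 : HasSum (fun n => Kn T N u (w n) n (T x)) (K (T x)) :=
    hK.mapL (ContinuousLinearMap.apply ℂ Y (T x))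
  have h2 : HasSum (fun n => N (Kn T N u (w n) n x)) (N (K x)) :=
    (hK.mapL (ContinuousLinearMap.apply ℂ Y x)).mapL N
  have h3 : HasSum (fun n => w n ((T ^ n) x) • u) (v x • u) :=
    (hv.mapL (ContinuousLinearMap.apply ℂ ℂ x)).smul_const u
  have h4 := h1.add (h x)
  have h5 := h2.add h3
  have h6 : (fun n => Kn T N u (w n) n (T x) + w n x • (N ^ n) u) =
      fun n => N (Kn T N u (w n) n x) + w n ((T ^ n) x) • u := by
    funext n
    exact Kn_eq T N u (w n) n x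
  rw [h6] at h4
  have h7 := h4.unique h5
  show D x + (K (T x) - N (K x)) = v x • u
  have h8 : v x • u = K (T x) + D x - N (K x) := by
    rw [h7]
    abel
  rw [h8]
  abel

/-- **Fredholm intertwining; the defect is the sum of a 1/2-nuclear operator and of finitely many
series over orbits.** -/
theorem ser (H : TCH) [CompleteSpace X] [CompleteSpace Y] (hY : Refl Y) {N : Y →L[ℂ] Y}
    (hN : HC N) {T : X →L[ℂ] X} {C ρ : ℝ} (hρ : 0 < ρ) (hTρ : ∀ k, ‖T ^ k‖ ≤ C * ρ ^ k)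
    (hNρ : ∀ k, ‖N ^ k‖ ≤ C * ρ ^ k) (m : ℕ) (E : ℕ → X →L[ℂ] Y)
    (hE : ∀ i < m, Orb N ρ (E i)) : ∀ (S D : X →L[ℂ] Y), S.IsFredholm → NU D →
      S.comp T - N.comp S = D + ∑ i ∈ Finset.range m, E i → Conc T := by
  induction m with
  | zero =>
    intro S D hS hD h
    refine fred H hY hN hS ?_
    rw [h, Finset.range_zero, Finset.sum_empty, add_zero]
    exact hD
  | succ m ih =>
    intro S D hS hD h
    obtain ⟨K, u, v, hK, hKe⟩ := (hE m (Nat.lt_succ_self m)).red hρ hTρ hNρ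
    refine ih (fun i hi => hE i (Nat.lt_succ_of_lt hi)) (S + K) (D + v.smulRight u)
      (fred_add hS hK) (hD.add (NU.rank _ _)) ?_
    have e : (S + K).comp T - N.comp (S + K) =
        (S.comp T - N.comp S) + (K.comp T - N.comp K) := by
      rw [ContinuousLinearMap.add_comp, ContinuousLinearMap.comp_add]
      abel
    rw [e, h, Finset.sum_range_succ, ← hKe]
    abel

theorem Orb'.tq [CompleteSpace X] [CompleteSpace Y] {N : Y →L[ℂ] Y} {C ρ : ℝ} (hρ : 0 < ρ)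
    (hC : 0 ≤ C) (hNρ : ∀ k, ‖N ^ k‖ ≤ C * ρ ^ k) {D : Y →L[ℂ] X} (hD : Orb' N ρ D) :
    Orb (Q98.RB.tr N) ρ (RF.tq D) := by
  obtain ⟨w, u, hu, h⟩ := hD
  refine ⟨w, fun n => NormedSpace.inclusionInDoubleDual ℂ X (u n), ?_, fun f => ?_⟩
  · refine Summable.of_nonneg_of_le (fun n => by positivity) (fun n => ?_) hu
    exact mul_le_mul_of_nonneg_left (NormedSpace.double_dual_bound ℂ X (u n)) (by positivity)
  · have h1 : Summable fun n => f (u n) • (Q98.RB.tr N ^ n) w := by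
      refine Summable.of_norm_bounded (hu.mul_left (‖f‖ * C * ‖w‖)) fun n => ?_
      rw [norm_smul, tr_pow]
      have e1 : ‖(Q98.RB.tr (N ^ n)) w‖ ≤ C * ρ ^ n * ‖w‖ :=
        ((Q98.RB.tr (N ^ n)).le_opNorm w).trans
          (mul_le_mul_of_nonneg_right ((tr_norm _).trans (hNρ n)) (norm_nonneg w))
      calc ‖f (u n)‖ * ‖(Q98.RB.tr (N ^ n)) w‖ ≤ (‖f‖ * ‖u n‖) * (C * ρ ^ n * ‖w‖) :=
            mul_le_mul (f.le_opNorm _) e1 (norm_nonneg _) (by positivity)
        _ = ‖f‖ * C * ‖w‖ * (ρ ^ n * ‖u n‖) := by ring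
        _ ≤ ‖f‖ * C * ‖w‖ * ((n + 1) * ρ ^ n * ‖u n‖) := by
            refine mul_le_mul_of_nonneg_left ?_ (by positivity)
            have : (0:ℝ) ≤ n * (ρ ^ n * ‖u n‖) := by positivity
            nlinarith
    obtain ⟨g, hg⟩ := h1
    have h2 : g = RF.tq D f := by
      ext y
      have h3 : HasSum (fun n => f (u n) * w ((N ^ n) y)) (g y) := by
        have h4 := hg.mapL (ContinuousLinearMap.apply ℂ ℂ y)
        have h5 : (fun n => (ContinuousLinearMap.apply ℂ ℂ y) (f (u n) • (Q98.RB.tr N ^ n) w)) =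
            fun n => f (u n) * w ((N ^ n) y) := by
          funext n
          rw [tr_pow]
          rfl
        rw [h5] at h4
        exact h4
      have h6 := (h y).mapL f
      have h7 : (fun n => f (w ((N ^ n) y) • u n)) = fun n => f (u n) * w ((N ^ n) y) := by
        funext n
        rw [map_smul, smul_eq_mul, mul_comm]
      rw [h7] at h6
      rw [h3.unique h6]
      rfl
    rw [← h2]
    exact hg

/-- The dual version. -/
theorem ser_dual (H : TCH) [CompleteSpace X] [CompleteSpace Y] (hX : Refl X) (hY : Refl Y)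
    {N : Y →L[ℂ] Y} (hN : HC N) {T : X →L[ℂ] X} {C ρ : ℝ} (hρ : 0 < ρ)
    (hTρ : ∀ k, ‖T ^ k‖ ≤ C * ρ ^ k) (hNρ : ∀ k, ‖N ^ k‖ ≤ C * ρ ^ k) (m : ℕ)
    (E : ℕ → Y →L[ℂ] X) (hE : ∀ i < m, Orb' N ρ (E i)) {S D : Y →L[ℂ] X} (hS : S.IsFredholm)
    (hD : NU D) (h : T.comp S - S.comp N = D + ∑ i ∈ Finset.range m, E i) : Conc T := by
  have hC : 0 ≤ C := by
    have := (norm_nonneg _).trans (hTρ 0)
    simpa using this
  refine conc_of_tr hX (ser H hY.dual (RF.HC.tr hN) (T := tr T) (C := C) hρ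
    (fun k => by rw [tr_pow]; exact (tr_norm _).trans (hTρ k))
    (fun k => by rw [tr_pow]; exact (tr_norm _).trans (hNρ k)) m (fun i => tq (E i))
    (fun i hi => (hE i hi).tq hρ hC hNρ) (tq S) (tq D) (fred_tq hS) hD.tq ?_)
  have e : (tq S).comp (tr T) - (tr N).comp (tq S) = tq (T.comp S - S.comp N) := by
    ext w y
    show w (T (S y)) - w (S (N y)) = w (T (S y) - S (N y))
    rw [map_sub]
  rw [e, h]
  have e2 : ∀ A : Y →L[ℂ] X, tq A = (ContinuousLinearMap.compL ℂ Y X ℂ).flip A := fun _ => rfl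
  simp only [e2]
  rw [map_add, map_sum]

/-- compressions of `N + K`, `K` 1/2-nuclear, to closed subspaces of finite codimension -/
theorem compr (H : TCH) [CompleteSpace X] [CompleteSpace Y] (hY : Refl Y) {N K : Y →L[ℂ] Y}
    (hN : HC N) (hK : NU K) {J : X →L[ℂ] Y} {P : Y →L[ℂ] X} (hPJ : ∀ x, P (J x) = x)
    (hF : FiniteDimensional ℂ (LinearMap.range ((1 - J.comp P : Y →L[ℂ] Y) : Y →ₗ[ℂ] Y))) :
    Conc (P.comp ((N + K).comp J)) := by
  have hJ : J.IsFredholm := by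
    refine fred_iff.2 ⟨P, ?_, ?_⟩
    · have e : P.comp J - 1 = 0 := by
        ext x
        show P (J x) - x = 0
        rw [hPJ, sub_self]
      rw [e]
      exact Fr.zero
    · have e : J.comp P - 1 = 0 - (1 - J.comp P : Y →L[ℂ] Y) := by
        abel
      rw [e]
      exact Fr.zero.sub (Module.Finite.iff_fg.1 hF)
  refine fred H hY hN hJ ?_
  have e : J.comp (P.comp ((N + K).comp J)) - N.comp J =
      K.comp J + (1 - J.comp P : Y →L[ℂ] Y).comp (-((N + K).comp J)) := by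
    ext x
    show J (P (N (J x) + K (J x))) - N (J x) =
      K (J x) + (-(N (J x) + K (J x)) - J (P (-(N (J x) + K (J x)))))
    rw [map_neg, map_neg]
    abel
  rw [e]
  exact (hK.comp_right J).add ((NU.fin hF).comp_right _)

end Pool.Agent.Q88.NB
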