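import Pool.Agent.Q130.TC.Final
import Pool.Agent.Q88.NB.Ser2

/-!
# The parts of project TC which are used
-/

set_option autoImplicit false

namespace Pool.Agent.Q88.NB

open Pool.Agent.Q130.TC

theorem tch : TCH where
  cau := wCAU
  mz := wMZ
  wti := wWTI
  sm := Pool.Agent.Q144.TC.SM.sm_main
  lw := Pool.Agent.Q237.TC.lw wCAU Pool.Agent.Q144.TC.SM.sm_main
  cma := Pool.Agent.Q275.TC.cma wCAU wMZ
  lnk := wLNK

end Pool.Agent.Q88.NB
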