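import Pool.Agent.Q88.NB.Ext

/-!
# Fredholm intertwining with a 1/2-nuclear defect
-/

set_option autoImplicit false

namespace Pool.Agent.Q88.NB

open Pool.Agent.Q98.RB
open Pool.Agent.Q88.RF (Conc conc_of_eig HC An An_fd hyp_of_comm comm_aeval int_aeval Gr Gr_inv
  eig_of_grow chain_iff compact_of_fin eig_of_alg fredProd tq fred_tq conc_of_tr)
open Module Filter Topology Set Metric

variable {X Y Z : Type} [NormedAddCommGroup X] [NormedSpace ℂ X] [NormedAddCommGroup Y]
  [NormedSpace ℂ Y] [NormedAddCommGroup Z] [NormedSpace ℂ Z]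

/-! ### 1/2-nuclear operators -/

/-- the 1/2-nuclear operators -/
def NU (D : X →L[ℂ] Y) : Prop :=
  ∃ (u : ℕ → Y) (v : ℕ → (X →L[ℂ] ℂ)), (Summable fun j => ‖u j‖) ∧ (Summable fun j => ‖v j‖) ∧
    ∀ x, HasSum (fun j => v j x • u j) (D x)

theorem NU.comp_left {D : X →L[ℂ] Y} (h : NU D) (A : Y →L[ℂ] Z) : NU (A.comp D) := by
  obtain ⟨u, v, hu, hv, hD⟩ := h
  refine ⟨fun j => A (u j), v, ?_, hv, fun x => ?_⟩
  · exact Summable.of_nonneg_of_le (fun j => norm_nonneg _) (fun j => A.le_opNorm _)
      (hu.mul_left ‖A‖)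
  · have h1 := (hD x).mapL A
    have h2 : (fun j => A (v j x • u j)) = fun j => v j x • A (u j) := by
      funext j
      rw [map_smul]
    rw [h2] at h1
    exact h1

theorem NU.comp_right {D : X →L[ℂ] Y} (h : NU D) (B : Z →L[ℂ] X) : NU (D.comp B) := by
  obtain ⟨u, v, hu, hv, hD⟩ := h
  refine ⟨u, fun j => (v j).comp B, hu, ?_, fun x => hD (B x)⟩
  exact Summable.of_nonneg_of_le (fun j => norm_nonneg _)
    (fun j => ContinuousLinearMap.opNorm_comp_le _ _) (hv.mul_right ‖B‖)

theorem NU.add {D D' : X →L[ℂ] Y} (h : NU D) (h' : NU D') : NU (D + D') := by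
  obtain ⟨u, v, hu, hv, hD⟩ := h
  obtain ⟨u', v', hu', hv', hD'⟩ := h'
  obtain ⟨e⟩ : Nonempty (ℕ ≃ ℕ ⊕ ℕ) := ⟨Equiv.natSumNatEquivNat.symm⟩
  refine ⟨Sum.elim u u' ∘ e, Sum.elim v v' ∘ e, ?_, ?_, fun x => ?_⟩
  · have h1 : Summable fun s : ℕ ⊕ ℕ => ‖Sum.elim u u' s‖ := Summable.sum _ hu hu'
    have h2 := h1.comp_injective e.injective
    exact h2
  · have h1 : Summable fun s : ℕ ⊕ ℕ => ‖Sum.elim v v' s‖ := Summable.sum _ hv hv'
    have h2 := h1.comp_injective e.injective
    exact h2
  · have h1 : HasSum (fun s : ℕ ⊕ ℕ => (Sum.elim v v' s) x • Sum.elim u u' s) (D x + D' x) :=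
      HasSum.sum (hD x) (hD' x)
    have h2 := (Equiv.hasSum_iff e).2 h1
    exact h2

theorem NU.zero : NU (0 : X →L[ℂ] Y) :=
  ⟨fun _ => 0, fun _ => 0, by simp, by simp, fun x => by simp⟩

theorem NU.rank (u : Y) (v : X →L[ℂ] ℂ) : NU (v.smulRight u) := by
  refine ⟨fun j => if j = 0 then u else 0, fun j => if j = 0 then v else 0, ?_, ?_, fun x => ?_⟩
  · refine summable_of_ne_finset_zero (s := {0}) fun j hj => ?_
    rw [Finset.mem_singleton] at hj
    simp [hj]
  · refine summable_of_ne_finset_zero (s := {0}) fun j hj => ?_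
    rw [Finset.mem_singleton] at hj
    simp [hj]
  · have h1 := hasSum_single (f := fun j : ℕ => (if j = 0 then v else 0) x • if j = 0 then u else 0)
      0 (fun j hj => by simp [hj])
    simpa using h1

theorem NU.sum {ι : Type} (s : Finset ι) (D : ι → X →L[ℂ] Y) (h : ∀ i ∈ s, NU (D i)) :
    NU (∑ i ∈ s, D i) := by
  classical
  induction s using Finset.induction_on with
  | empty =>
    rw [Finset.sum_empty]
    exact NU.zero
  | insert b s hb ih =>
    rw [Finset.sum_insert hb]
    exact (h b (Finset.mem_insert_self b s)).add (ih fun i hi => h i (Finset.mem_insert_of_mem hi))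

/-- operators of finite rank -/
theorem NU.fin {D : X →L[ℂ] Y} (h : FiniteDimensional ℂ (LinearMap.range (D : X →ₗ[ℂ] Y))) :
    NU D := by
  classical
  set F := LinearMap.range (D : X →ₗ[ℂ] Y) with hF
  let b := Module.finBasis ℂ F
  let D' : X →L[ℂ] F := D.codRestrict F (fun x => ⟨x, rfl⟩)
  let c : Fin (finrank ℂ F) → (F →L[ℂ] ℂ) := fun i => LinearMap.toContinuousLinearMap (b.coord i)
  have h1 : D = ∑ i, ((c i).comp D').smulRight ((b i : F) : Y) := by
    ext x
    have h2 : D x = ((D' x : F) : Y) := rfl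
    rw [h2]
    conv_lhs => rw [← b.sum_repr (D' x)]
    rw [sum_apply]
    push_cast
    rfl
  rw [h1]
  exact NU.sum _ _ fun i _ => NU.rank _ _

theorem NU.tq {D : X →L[ℂ] Y} (h : NU D) : NU (RF.tq D) := by
  obtain ⟨u, v, hu, hv, hD⟩ := h
  refine ⟨v, fun j => NormedSpace.inclusionInDoubleDual ℂ Y (u j), hv, ?_, fun w => ?_⟩
  · refine Summable.of_nonneg_of_le (fun j => norm_nonneg _) (fun j => ?_) hu
    exact NormedSpace.double_dual_bound ℂ Y (u j)
  · have h1 : Summable fun j => w (u j) • v j := by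
      obtain ⟨M, hM⟩ := hu.tendsto_atTop_zero.bddAbove_range
      refine Summable.of_norm_bounded (hv.mul_left (‖w‖ * M)) fun j => ?_
      rw [norm_smul]
      refine mul_le_mul_of_nonneg_right ((w.le_opNorm _).trans ?_) (norm_nonneg _)
      exact mul_le_mul_of_nonneg_left (hM ⟨j, rfl⟩) (norm_nonneg _)
    obtain ⟨g, hg⟩ := h1
    have h2 : g = RF.tq D w := by
      ext x
      have h3 := hg.mapL (ContinuousLinearMap.apply ℂ ℂ x)
      have h4 := (hD x).mapL w
      have h5 : (fun j => w (v j x • u j)) =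
          fun j => (ContinuousLinearMap.apply ℂ ℂ x) (w (u j) • v j) := by
        funext j
        rw [map_smul, smul_eq_mul, mul_comm]
        rfl
      rw [h5] at h4
      exact h3.unique h4
    rw [← h2]
    exact hg

/-! ### Restrictions to invariant subspaces of finite codimension -/

/-- polynomials of a compact perturbation -/
theorem aeval_compact {N K : Y →L[ℂ] Y} (hK : IsCompactOperator (⇑K)) (p : Polynomial ℂ) :
    IsCompactOperator (⇑(Polynomial.aeval (N + K) p - Polynomial.aeval N p)) := by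
  have hz : IsCompactOperator (⇑(0 : Y →L[ℂ] Y)) :=
    (0 : (compactOperator (RingHom.id ℂ) Y Y : Submodule ℂ (Y →L[ℂ] Y))).2
  induction p using Polynomial.induction_on with
  | C a => simpa using hz
  | add p q hp hq =>
    have e : Polynomial.aeval (N + K) (p + q) - Polynomial.aeval N (p + q) =
        (Polynomial.aeval (N + K) p - Polynomial.aeval N p) +
        (Polynomial.aeval (N + K) q - Polynomial.aeval N q) := by
      rw [map_add, map_add]; abel
    rw [e]
    exact hp.add hq
  | monomial n a ih =>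
    have e2 : Polynomial.C a * Polynomial.X ^ (n + 1) =
        (Polynomial.C a * Polynomial.X ^ n) * Polynomial.X := by ring
    rw [e2, map_mul _ (Polynomial.C a * Polynomial.X ^ n),
      map_mul _ (Polynomial.C a * Polynomial.X ^ n), Polynomial.aeval_X, Polynomial.aeval_X]
    set P := Polynomial.aeval (N + K) (Polynomial.C a * Polynomial.X ^ n)
    set P' := Polynomial.aeval N (Polynomial.C a * Polynomial.X ^ n)
    have e : P * (N + K) - P' * N = (P - P') * (N + K) + P' * K := by
      rw [sub_mul, mul_add P' N]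
      abel
    rw [e]
    exact (ih.comp_clm (N + K)).add (hK.clm_comp P')

end Pool.Agent.Q88.NB
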