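import Pool.Agent.Q88.NB.Fred2

/-!
# Fredholm intertwining with a 1/2-nuclear defect
-/

set_option autoImplicit false

namespace Pool.Agent.Q88.NB

open Pool.Agent.Q98.RB
open Pool.Agent.Q88.RF (Conc conc_of_eig HC An An_fd hyp_of_comm comm_aeval int_aeval Gr Gr_inv
  eig_of_grow chain_iff compact_of_fin eig_of_alg fredProd tq fred_tq conc_of_tr)
open Module Filter Topology Set Metric

variable {X Y Z : Type} [NormedAddCommGroup X] [NormedSpace ℂ X] [NormedAddCommGroup Y]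
  [NormedSpace ℂ Y] [NormedAddCommGroup Z] [NormedSpace ℂ Z]

/-- `T` is intertwined with `N + K` by an injective operator with closed range of finite
codimension -/
theorem inj_case (H : TCH) [CompleteSpace X] [CompleteSpace Y] (hY : Refl Y) {N : Y →L[ℂ] Y} {R : ℝ}
    {Ψ : C(DD R, ℂ) →ₐ[ℂ] (Y →L[ℂ] Y)} (hΨ : Cal N R Ψ) {T : X →L[ℂ] X} {S : X →L[ℂ] Y}
    (hinj : Function.Injective S) (hcl : IsClosed (LinearMap.range (S : X →ₗ[ℂ] Y) : Set Y))
    (hco : FiniteDimensional ℂ (Y ⧸ LinearMap.range (S : X →ₗ[ℂ] Y))) {K : Y →L[ℂ] Y} {u : ℕ → Y} {v : ℕ → (Y →L[ℂ] ℂ)} (hK : Nuc K u v)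
    (h : ∀ x, S (T x) = (N + K) (S x)) : Conc T := by
  classical
  have hclr : IsClosed (Set.range S) := by
    have h1 : (LinearMap.range (S : X →ₗ[ℂ] Y) : Set Y) = Set.range S := by
      ext y; rfl
    rwa [h1] at hcl
  obtain ⟨κ, hκ⟩ := S.antilipschitz_of_injective_of_isClosed_range hinj hclr
  have hbd : ∀ x, ‖x‖ ≤ κ * ‖S x‖ := S.bound_of_antilipschitz hκ
  set Y0 := LinearMap.range (S : X →ₗ[ℂ] Y) with hY0
  set A := N + K with hA
  have hinv : ∀ y ∈ Y0, A y ∈ Y0 := by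
    rintro _ ⟨x, rfl⟩
    exact ⟨T x, h x⟩
  let B : Module.End ℂ (Y ⧸ Y0) := Y0.mapQ Y0 (A : Y →ₗ[ℂ] Y) hinv
  have hBmk : ∀ y, B (Y0.mkQ y) = Y0.mkQ (A y) := fun y => Submodule.mapQ_apply _ _ _ _
  set Λ : Set ℂ := {c | B.HasEigenvalue c} with hΛ
  have hΛfin : Λ.Finite := B.finite_hasEigenvalue
  have claim0 : ∀ c, c ∉ Λ → ∀ g, A g = c • g → g ∈ Y0 := by
    intro c hc g hg
    by_contra hgY
    apply hc
    have h1 : Y0.mkQ g ≠ 0 := by
      intro h0
      exact hgY ((Submodule.Quotient.mk_eq_zero Y0).1 h0)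
    have h2 : B (Y0.mkQ g) = c • Y0.mkQ g := by rw [hBmk, hg, map_smul]
    exact Module.End.hasEigenvalue_of_hasEigenvector ⟨Module.End.mem_eigenspace_iff.2 h2, h1⟩
  have claim0' : ∀ c, c ∉ Λ → ∀ w : Y →L[ℂ] ℂ, (∀ y ∈ Y0, w y = 0) →
      (∀ y, w (A y) = c * w y) → w = 0 := by
    intro c hc w hw hwA
    have h1 : Function.Injective (B - c • (1 : Module.End ℂ (Y ⧸ Y0))) := by
      rw [injective_iff_map_eq_zero]
      intro z hz
      by_contra hz0
      apply hc
      refine Module.End.hasEigenvalue_of_hasEigenvector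
        ⟨Module.End.mem_eigenspace_iff.2 (?_ : B z = c • z), hz0⟩
      have h3 : B z - c • z = 0 := by simpa using hz
      exact sub_eq_zero.1 h3
    have h2 := LinearMap.injective_iff_surjective.1 h1
    ext y
    obtain ⟨z', hz'⟩ := h2 (Y0.mkQ y)
    obtain ⟨z, rfl⟩ := Y0.mkQ_surjective z'
    have h3 : Y0.mkQ (A z - c • z - y) = 0 := by
      have h4 : B (Y0.mkQ z) - c • Y0.mkQ z = Y0.mkQ y := by simpa using hz'
      rw [map_sub, map_sub, map_smul, ← hBmk, h4, sub_self]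
    have h5 := hw _ ((Submodule.Quotient.mk_eq_zero Y0).1 h3)
    rw [map_sub, map_sub, map_smul, hwA, smul_eq_mul, sub_self, zero_sub, neg_eq_zero] at h5
    exact h5
  have hpow : ∀ (a : ℂ) (k : ℕ) (x : X), S (((T - a • (1 : X →L[ℂ] X)) ^ k) x) =
      ((A - a • (1 : Y →L[ℂ] Y)) ^ k) (S x) := by
    intro a k
    induction k with
    | zero => intro x; simp
    | succ k ih =>
      intro x
      rw [pow_succ, pow_succ]
      show S (((T - a • (1 : X →L[ℂ] X)) ^ k) (T x - a • x)) =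
        ((A - a • (1 : Y →L[ℂ] Y)) ^ k) (A (S x) - a • S x)
      rw [ih, map_sub, map_smul, h]
  have claim1 : ∀ (a : ℂ) (r : ℝ), 0 < r → Ess Ψ a → (∀ c ∈ Λ, r < ‖c - a‖) → HasCh T a r := by
    intro a r hr hE hr'
    obtain ⟨y, hy0, hy⟩ := chain_iff.1 (chain H hY hΨ hK a hr hE)
    rw [← hA] at hy
    by_cases hG : ∃ y', y' ≠ 0 ∧ y' ∈ Y0 ∧ y' ∈ Gr (A - a • (1 : Y →L[ℂ] Y)) r
    · obtain ⟨_, hy1, ⟨x, rfl⟩, C, hC⟩ := hG
      refine chain_iff.2 ⟨x, fun h0 => hy1 (by rw [h0, map_zero]), κ * C, fun k => ?_⟩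
      refine (hbd _).trans ?_
      rw [hpow, mul_assoc]
      exact mul_le_mul_of_nonneg_left (hC k) κ.2
    · exfalso
      push Not at hG
      have hfd : FiniteDimensional ℂ (Gr (A - a • (1 : Y →L[ℂ] Y)) r) := by
        refine Module.Finite.of_injective (Y0.mkQ.comp (Submodule.subtype _)) ?_
        rw [injective_iff_map_eq_zero]
        intro z hz
        apply Subtype.ext
        by_contra hz0
        exact hG z hz0 ((Submodule.Quotient.mk_eq_zero Y0).1 hz) z.2
      obtain ⟨c, g, hg, hg0, hAg, hcr⟩ := eig_of_grow hr _ hfd (fun x hx => Gr_inv rfl hx) hy hy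
        hy0
      have h1 : A g = (a + c) • g := by
        have h2 : A g - a • g = c • g := hAg
        rw [add_smul, ← h2]
        abel
      have h2 : a + c ∉ Λ := by
        intro h3
        have := hr' _ h3
        rw [add_sub_cancel_left] at this
        linarith
      exact hG g hg0 (claim0 _ h2 g h1) hg
  have hpow' : ∀ (b : ℂ) (k : ℕ) (w : StrongDual ℂ Y),
      ((tr T - b • (1 : StrongDual ℂ X →L[ℂ] StrongDual ℂ X)) ^ k) (w.comp S) =
      (((tr A - b • (1 : StrongDual ℂ Y →L[ℂ] StrongDual ℂ Y)) ^ k) w).comp S := by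
    intro b k
    induction k with
    | zero => intro w; simp
    | succ k ih =>
      intro w
      rw [pow_succ, pow_succ]
      have e : (tr T - b • (1 : StrongDual ℂ X →L[ℂ] StrongDual ℂ X)) (w.comp S) =
          ((tr A - b • (1 : StrongDual ℂ Y →L[ℂ] StrongDual ℂ Y)) w).comp S := by
        ext x
        show w (S (T x)) - b * w (S x) = w (A (S x)) - b * w (S x)
        rw [h]
      show ((tr T - b • (1 : StrongDual ℂ X →L[ℂ] StrongDual ℂ X)) ^ k)
        ((tr T - b • (1 : StrongDual ℂ X →L[ℂ] StrongDual ℂ X)) (w.comp S)) = _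
      rw [e, ih]
      rfl
  have claim2 : ∀ (b : ℂ) (r : ℝ), 0 < r → Ess Ψ b → (∀ c ∈ Λ, r < ‖c - b‖) →
      HasCh (tr T) b r := by
    intro b r hr hE hr'
    have h1 := chain H hY.dual hΨ.tr hK.tr b hr hE.tr
    rw [← map_add] at h1
    obtain ⟨w, hw0, hw⟩ := chain_iff.1 h1
    rw [← hA] at hw
    by_cases hz : w.comp S = 0
    · exfalso
      have hwZ : w ∈ An Y0 := by
        rintro _ ⟨x, rfl⟩
        exact congrArg (fun f : X →L[ℂ] ℂ => f x) hz
      obtain ⟨c, g, hg, hg0, hAg, hcr⟩ := eig_of_grow hr (An Y0) (An_fd hco) (fun f hf y hy => by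
        show f (A y) - b * f y = 0
        rw [hf _ (hinv y hy), hf y hy, mul_zero, sub_zero]) hwZ hw hw0
      refine hg0 (claim0' (b + c) ?_ g hg fun y => ?_)
      · intro h3
        have := hr' _ h3
        rw [add_sub_cancel_left] at this
        linarith
      · have h2 := congrArg (fun f : StrongDual ℂ Y => f y) hAg
        have h3 : g (A y) - b * g y = c * g y := h2
        linear_combination h3
    · obtain ⟨C, hC⟩ := hw
      refine chain_iff.2 ⟨w.comp S, hz, ‖S‖ * C, fun k => ?_⟩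
      rw [hpow']
      refine (ContinuousLinearMap.opNorm_comp_le _ _).trans ?_
      rw [mul_comm, mul_assoc]
      exact mul_le_mul_of_nonneg_left (hC k) (norm_nonneg S)
  by_cases hab : ∃ a b : ℂ, a ≠ b ∧ Ess Ψ a ∧ Ess Ψ b ∧ a ∉ Λ ∧ b ∉ Λ
  · right
    obtain ⟨a, b, hab, ha, hb, haΛ, hbΛ⟩ := hab
    have hdist : 0 < ‖a - b‖ := norm_pos_iff.2 (sub_ne_zero.2 hab)
    have hop : ∀ a, a ∉ Λ → ∃ ε : ℝ, 0 < ε ∧ ∀ c ∈ Λ, ε ≤ ‖c - a‖ := by
      intro a ha
      obtain ⟨ε, hε, hb⟩ := Metric.isOpen_iff.1 hΛfin.isClosed.isOpen_compl a ha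
      refine ⟨ε, hε, fun c hc => ?_⟩
      by_contra hcon
      push Not at hcon
      exact hb (by rw [mem_ball, dist_eq_norm]; exact hcon) hc
    obtain ⟨ε, hε, hε'⟩ := hop a haΛ
    obtain ⟨δ, hδ, hδ'⟩ := hop b hbΛ
    obtain ⟨x, ⟨X1, C₁, X2⟩, X3⟩ := claim1 a (min (‖a - b‖ / 3) (ε / 2)) (by positivity) ha
      (fun c hc => lt_of_lt_of_le (lt_of_le_of_lt (min_le_right _ _) (by linarith)) (hε' c hc))
    obtain ⟨Z, ⟨Y1, C₂, Y2⟩, Y3⟩ := claim2 b (min (‖a - b‖ / 3) (δ / 2)) (by positivity) hb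
      (fun c hc => lt_of_lt_of_le (lt_of_le_of_lt (min_le_right _ _) (by linarith)) (hδ' c hc))
    refine ann T a b _ _ C₁ C₂ x Z (by positivity) (by positivity) ?_ X1 X2 Y1 Y2 X3 Y3
    have e1 := min_le_left (‖a - b‖ / 3) (ε / 2)
    have e2 := min_le_left (‖a - b‖ / 3) (δ / 2)
    linarith
  · obtain ⟨F, hFne, hF⟩ : ∃ F : Finset ℂ, F.Nonempty ∧ ∀ a, a ∉ F → ¬ Ess Ψ a := by
      by_cases h2 : ∃ a, Ess Ψ a ∧ a ∉ Λ
      · obtain ⟨a, ha, haΛ⟩ := h2
        refine ⟨insert a hΛfin.toFinset, Finset.insert_nonempty _ _, fun b hb hE => hab ?_⟩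
        rw [Finset.mem_insert, not_or, Set.Finite.mem_toFinset] at hb
        exact ⟨a, b, fun h => hb.1 h.symm, ha, hE, haΛ, hb.2⟩
      · push Not at h2
        refine ⟨insert 0 hΛfin.toFinset, Finset.insert_nonempty _ _, fun b hb hE => ?_⟩
        rw [Finset.mem_insert, not_or, Set.Finite.mem_toFinset] at hb
        exact hb.2 (h2 b hE)
    set P : Polynomial ℂ := ∏ a ∈ F, (Polynomial.X - Polynomial.C a) with hP
    have hcN : IsCompactOperator (⇑(Polynomial.aeval N P)) := compact_of_fin hΨ F hF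
    have hcA : IsCompactOperator (⇑(Polynomial.aeval A P)) := by
      have e : Polynomial.aeval A P = (Polynomial.aeval A P - Polynomial.aeval N P) +
          Polynomial.aeval N P := by abel
      rw [e]
      exact (aeval_compact hK.compact P).add hcN
    have hcT : IsCompactOperator (⇑(Polynomial.aeval T P)) := by
      let D := S.equivRange hinj hclr
      have h1 : IsCompactOperator (⇑(S.comp (Polynomial.aeval T P))) := by
        have e : S.comp (Polynomial.aeval T P) = (Polynomial.aeval A P).comp S := by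
          ext x
          exact int_aeval h P x
        rw [e]
        exact hcA.comp_clm S
      have h2 := IsCompactOperator.codRestrict h1 (V := (S : X →ₗ[ℂ] Y).range)
        (fun x => ⟨_, rfl⟩) hcl
      have h3 := h2.clm_comp (D.symm : (S : X →ₗ[ℂ] Y).range →L[ℂ] X)
      have h4 : (⇑(Polynomial.aeval T P) : X → X) =
          ⇑(D.symm : (S : X →ₗ[ℂ] Y).range →L[ℂ] X) ∘
            Set.codRestrict (⇑(S.comp (Polynomial.aeval T P))) ((S : X →ₗ[ℂ] Y).range : Set Y)
              (fun x => ⟨_, rfl⟩) := by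
        funext x
        exact (S.equivRange_symm_apply hinj hclr (Polynomial.aeval T P x)).symm
      rw [h4]
      exact h3
    have hdeg : 0 < P.natDegree := by
      rw [hP, Polynomial.natDegree_prod_of_monic _ _ fun a _ => Polynomial.monic_X_sub_C a]
      simp only [Polynomial.natDegree_X_sub_C, Finset.sum_const, smul_eq_mul, mul_one]
      exact Finset.card_pos.2 hFne
    by_cases hsc : ∃ c : ℂ, Polynomial.aeval T P = c • (1 : X →L[ℂ] X)
    · obtain ⟨c, hc⟩ := hsc
      by_cases hx : ∃ x : X, x ≠ 0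
      · obtain ⟨x, hx⟩ := hx
        have h1 : P - Polynomial.C c ≠ 0 := by
          intro h0
          rw [sub_eq_zero] at h0
          rw [h0, Polynomial.natDegree_C] at hdeg
          exact lt_irrefl _ hdeg
        obtain ⟨d, g, hg, hTg⟩ := eig_of_alg h1 (by
          rw [map_sub, Polynomial.aeval_C, hc, Algebra.algebraMap_eq_smul_one, sub_self]) hx
        exact conc_of_eig hg hTg
      · left
        push Not at hx
        refine ⟨0, ?_⟩
        ext x
        rw [hx x, map_zero, map_zero]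
    · right
      exact hyp_of_comm (fun Q hQ => comm_aeval hQ P)
        (Pool.Agent.W577.HI.G1.main _ _ hcT hsc)



/-- a left inverse of an injective operator with closed range of finite codimension -/
theorem left_inv [CompleteSpace X] [CompleteSpace Y] {S : X →L[ℂ] Y}
    (hinj : Function.Injective S) (hcl : IsClosed (LinearMap.range (S : X →ₗ[ℂ] Y) : Set Y))
    (hco : FiniteDimensional ℂ (Y ⧸ LinearMap.range (S : X →ₗ[ℂ] Y))) :
    ∃ L : Y →L[ℂ] X, ∀ x, L (S x) = x := by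
  have hclr : IsClosed (Set.range S) := by
    have h1 : (LinearMap.range (S : X →ₗ[ℂ] Y) : Set Y) = Set.range S := by
      ext y; rfl
    rwa [h1] at hcl
  let D := S.equivRange hinj hclr
  have hcc : (LinearMap.range (S : X →ₗ[ℂ] Y)).ClosedComplemented :=
    Submodule.ClosedComplemented.of_finiteDimensional_quotient hcl
  obtain ⟨P, hP⟩ := hcc
  refine ⟨(D.symm : (S : X →ₗ[ℂ] Y).range →L[ℂ] X).comp P, fun x => ?_⟩
  have h1 : P (S x) = ⟨S x, ⟨x, rfl⟩⟩ := hP ⟨S x, ⟨x, rfl⟩⟩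
  show D.symm (P (S x)) = x
  rw [h1]
  exact S.equivRange_symm_apply hinj hclr x

theorem fred_aux (H : TCH) [CompleteSpace X] {T : X →L[ℂ] X} (n : ℕ) : ∀ (Y : Type)
    [NormedAddCommGroup Y] [NormedSpace ℂ Y] [CompleteSpace Y], Refl Y → ∀ N : Y →L[ℂ] Y, HC N →
    ∀ S : X →L[ℂ] Y, S.IsFredholm → finrank ℂ (LinearMap.ker (S : X →ₗ[ℂ] Y)) ≤ n →
    NU (S.comp T - N.comp S) → Conc T := by
  induction n with
  | zero =>
    intro Y _ _ _ hY N hN S hS hk hD
    have hfd := hS.finite_ker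
    have hk' : LinearMap.ker (S : X →ₗ[ℂ] Y) = ⊥ := by
      rw [← Submodule.finrank_eq_zero (R := ℂ)]
      exact Nat.le_zero.1 hk
    have hinj : Function.Injective S := LinearMap.ker_eq_bot.1 hk'
    obtain ⟨L, hL⟩ := left_inv hinj hS.isClosed_range hS.finite_coker
    obtain ⟨R, Ψ, hΨ⟩ := hN
    obtain ⟨u, v, hu, hv, hr⟩ := hD.comp_right L
    refine inj_case H hY hΨ hinj hS.isClosed_range hS.finite_coker
      (K := (S.comp T - N.comp S).comp L) ⟨hu, hv, hr⟩ fun x => ?_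
    show S (T x) = N (S x) + (S (T (L (S x))) - N (S (L (S x))))
    rw [hL]
    abel
  | succ n ih =>
    intro Y _ _ _ hY N hN S hS hk hD
    have hfd := hS.finite_ker
    by_cases hle : finrank ℂ (LinearMap.ker (S : X →ₗ[ℂ] Y)) ≤ n
    · exact ih Y hY N hN S hS hle hD
    have hkn : finrank ℂ (LinearMap.ker (S : X →ₗ[ℂ] Y)) = n + 1 := by omega
    have hkne : LinearMap.ker (S : X →ₗ[ℂ] Y) ≠ ⊥ := by
      intro h0
      rw [h0, finrank_bot] at hkn
      omega
    obtain ⟨x₀, hx₀, hx₀'⟩ := Submodule.exists_mem_ne_zero_of_ne_bot hkne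
    obtain ⟨f, hf⟩ := SeparatingDual.exists_ne_zero (R := ℂ) hx₀'
    refine ih (Y × ℂ) (RF.Refl.prodC hY) (N.prodMap ((0:ℂ) • (1 : ℂ →L[ℂ] ℂ))) (hN.prodC 0)
      (S.prod f) (fredProd hS f) ?_ ?_
    · have h1 : LinearMap.ker ((S.prod f : X →L[ℂ] Y × ℂ) : X →ₗ[ℂ] Y × ℂ) <
          LinearMap.ker (S : X →ₗ[ℂ] Y) := by
        refine lt_of_le_of_ne (fun x hx => ?_) (fun h0 => ?_)
        · have h2 : (S x, f x) = ((0 : Y), (0 : ℂ)) := hx
          exact (Prod.mk.inj h2).1
        · rw [← h0] at hx₀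
          have h2 : (S x₀, f x₀) = ((0 : Y), (0 : ℂ)) := hx₀
          exact hf (Prod.mk.inj h2).2
      have h2 := Submodule.finrank_lt_finrank_of_lt h1
      omega
    · have e : (S.prod f).comp T - (N.prodMap ((0:ℂ) • (1 : ℂ →L[ℂ] ℂ))).comp (S.prod f) =
          (ContinuousLinearMap.inl ℂ Y ℂ).comp (S.comp T - N.comp S) +
            (f.comp T).smulRight ((0 : Y), (1 : ℂ)) := by
        refine ContinuousLinearMap.ext fun x => ?_
        show (S (T x), f (T x)) - (N (S x), (0:ℂ) * f x) =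
          (S (T x) - N (S x), (0:ℂ)) + f (T x) • ((0 : Y), (1 : ℂ))
        simp
      rw [e]
      exact (hD.comp_left _).add (NU.rank _ _)

/-- **Fredholm intertwining with a 1/2-nuclear defect.** -/
theorem fred (H : TCH) [CompleteSpace X] [CompleteSpace Y] (hY : Refl Y) {N : Y →L[ℂ] Y}
    (hN : HC N) {T : X →L[ℂ] X} {S : X →L[ℂ] Y} (hS : S.IsFredholm)
    (hD : NU (S.comp T - N.comp S)) : Conc T :=
  fred_aux H _ Y hY N hN S hS le_rfl hD

/-- The dual version. -/
theorem fred_dual (H : TCH) [CompleteSpace X] [CompleteSpace Y] (hX : Refl X) (hY : Refl Y)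
    {N : Y →L[ℂ] Y} (hN : HC N) {T : X →L[ℂ] X} {S : Y →L[ℂ] X} (hS : S.IsFredholm)
    (hD : NU (T.comp S - S.comp N)) : Conc T := by
  refine conc_of_tr hX (fred H hY.dual (RF.HC.tr hN) (S := tq S) (fred_tq hS) ?_)
  have e : (tq S).comp (tr T) - (tr N).comp (tq S) = tq (T.comp S - S.comp N) := by
    ext w y
    show w (T (S y)) - w (S (N y)) = w (T (S y) - S (N y))
    rw [map_sub]
  rw [e]
  exact hD.tq

end Pool.Agent.Q88.NB
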