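import Pool.Agent.Q88.NB.Vk

/-!
# The error of the approximate chains; densities for which the vectors are bounded
-/

set_option autoImplicit false

namespace Pool.Agent.Q88.NB

open MeasureTheory Set Metric Filter Topology
open scoped ENNReal NNReal ComplexConjugate
open Pool.Agent.Y283.NK (ct)
open Pool.Agent.Y271.RO (ht Bd hHT hCTG)
open Pool.Agent.Q98.RB
open Pool.Agent.Q98.NR (IsK)
open Pool.Agent.Q130.TC (cau S_CAU WT S_MZ nm Am)

variable {X : Type} [NormedAddCommGroup X] [NormedSpace ℂ X]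
variable {N : X →L[ℂ] X} {R : ℝ} {Ψ : C(DD R, ℂ) →ₐ[ℂ] (X →L[ℂ] X)}
variable {m : ℕ} {a : ℂ} {ρ B : ℝ} {g : ℂ → ℝ} {c : ℕ → ℂ → ℂ}

section err

variable {S : Type} [MeasurableSpace S] {μ : Measure S} {φ : S → ℂ} {u' v' : ℕ → Lp ℂ 2 μ}

theorem Am_meas (hF : ∀ i j, Measurable (ct φ (v' i) (u' j))) (hc : ∀ j, Measurable (c j)) (i : ℕ) :
    Measurable fun z => Am φ u' v' m z (fun j => c j z) i := by
  unfold Am
  exact (hc i).sub (Finset.measurable_sum _ fun j _ => (hF i j).mul (hc j))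

/-- integrability of the errors -/
theorem Dat.Am_int (h : Dat m a ρ B g c) {u : ℕ → X} {v : ℕ → (X →L[ℂ] ℂ)}
    (hF : ∀ i j, IsK Ψ (v i) (u j) (ct φ (v' i) (u' j))) :
    (∀ i < m, Integrable fun z => (g z : ℂ) * Am φ u' v' m z (fun j => c j z) i) ∧
    Integrable fun z => g z * nm m (Am φ u' v' m z fun j => c j z) := by
  have h1 : ∀ i < m, Integrable fun z => (g z : ℂ) * Am φ u' v' m z (fun j => c j z) i := by
    intro i hi
    obtain ⟨h2, -⟩ := VV_pair h u (v i) (fun j => ct φ (v' i) (u' j)) (fun j _ => hF i j) 0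
    have h3 := ((hHT ρ h.rpos).choose_spec.2 a _ _ (h.bd hi 0)).1
    refine (h3.sub h2).congr (Eventually.of_forall fun z => ?_)
    simp only [Pi.sub_apply, pow_zero, one_mul, Am]
    rw [mul_sub]
    congr 2
    refine Finset.sum_congr rfl fun j _ => ?_
    ring
  refine ⟨h1, ?_⟩
  have hm : Measurable fun z => nm m (Am φ u' v' m z fun j => c j z) := by
    unfold nm
    refine (Finset.measurable_sum _ fun i _ => ?_).sqrt
    exact (Am_meas (fun i j => (hF i j).meas) h.cm i).norm.pow_const 2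
  have h4 : Integrable fun z => ∑ i ∈ Finset.range m,
      ‖(g z : ℂ) * Am φ u' v' m z (fun j => c j z) i‖ :=
    integrable_finsetSum _ fun i hi => (h1 i (Finset.mem_range.1 hi)).norm
  refine h4.mono' (h.gm.mul hm).aestronglyMeasurable (Eventually.of_forall fun z => ?_)
  rw [norm_mul, Real.norm_of_nonneg (h.g0 z), Real.norm_of_nonneg (nm_nonneg _ _)]
  calc g z * nm m (Am φ u' v' m z fun j => c j z) ≤
        g z * ∑ i ∈ Finset.range m, ‖Am φ u' v' m z (fun j => c j z) i‖ :=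
        mul_le_mul_of_nonneg_left (nm_le_sum _ _) (h.g0 z)
    _ = _ := by
        rw [Finset.mul_sum]
        refine Finset.sum_congr rfl fun i _ => ?_
        rw [norm_mul, Complex.norm_real, Real.norm_of_nonneg (h.g0 z)]

/-- the error of the approximate chain -/
theorem VV_err (hΨ : Cal N R Ψ) (h : Dat m a ρ B g c) {u : ℕ → X} {v : ℕ → (X →L[ℂ] ℂ)}
    (hF : ∀ i j, IsK Ψ (v i) (u j) (ct φ (v' i) (u' j))) {U₀ : ℝ}
    (hU : ∑ j ∈ Finset.range m, ‖u j‖ ≤ U₀) (k : ℕ) :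
    ‖(N + fr u v m) (VV Ψ u m a g c k) - a • VV Ψ u m a g c k - VV Ψ u m a g c (k + 1)‖ ≤
      U₀ * ρ ^ k * ∫ z, g z * nm m (Am φ u' v' m z fun j => c j z) := by
  obtain ⟨hi1, hi2⟩ := h.Am_int hF
  have hρ := h.rpos
  set E : ℕ → ℂ := fun i => ∫ z, (z - a) ^ k * ((g z : ℂ) * Am φ u' v' m z (fun j => c j z) i)
    with hE
  have hI : 0 ≤ ∫ z, g z * nm m (Am φ u' v' m z fun j => c j z) :=
    integral_nonneg fun z => mul_nonneg (h.g0 z) (nm_nonneg _ _)
  have e1 : (N + fr u v m) (VV Ψ u m a g c k) - a • VV Ψ u m a g c k - VV Ψ u m a g c (k + 1) =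
      -∑ i ∈ Finset.range m, E i • u i := by
    have h1 : (N + fr u v m) (VV Ψ u m a g c k) = N (VV Ψ u m a g c k) +
        ∑ i ∈ Finset.range m, v i (VV Ψ u m a g c k) • u i := by
      rw [add_apply, fr_apply]
    have h2 : ∀ i ∈ Finset.range m, E i =
        (∫ z, (z - a) ^ k * ((g z : ℂ) * c i z)) - v i (VV Ψ u m a g c k) := by
      intro i hi
      obtain ⟨h3, h4⟩ := VV_pair h u (v i) (fun j => ct φ (v' i) (u' j)) (fun j _ => hF i j) k
      have h5 := ((hHT ρ h.rpos).choose_spec.2 a _ _ (h.bd (Finset.mem_range.1 hi) k)).1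
      rw [h4, ← integral_sub h5 h3]
      simp only [hE]
      refine integral_congr_ae (Eventually.of_forall fun z => ?_)
      simp only [Am]
      have e : ∑ j ∈ Finset.range m, ct φ (v' i) (u' j) z * c j z =
          ∑ j ∈ Finset.range m, c j z * ct φ (v' i) (u' j) z :=
        Finset.sum_congr rfl fun j _ => mul_comm _ _
      rw [e]
      ring
    have h3 : ∑ i ∈ Finset.range m, E i • u i =
        (∑ j ∈ Finset.range m, (∫ z, (z - a) ^ k * ((g z : ℂ) * c j z)) • u j) -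
        ∑ i ∈ Finset.range m, v i (VV Ψ u m a g c k) • u i := by
      rw [← Finset.sum_sub_distrib]
      refine Finset.sum_congr rfl fun i hi => ?_
      rw [h2 i hi, sub_smul]
    rw [h1, h3]
    have h4 := VV_step hΨ h u k
    have h5 : N (VV Ψ u m a g c k) = a • VV Ψ u m a g c k + (VV Ψ u m a g c (k + 1) -
      ∑ j ∈ Finset.range m, (∫ z, (z - a) ^ k * ((g z : ℂ) * c j z)) • u j) := by
      rw [← h4]
      abel
    rw [h5]
    abel
  rw [e1, norm_neg]
  have h2 : ∀ i ∈ Finset.range m, ‖E i‖ ≤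
      ρ ^ k * ∫ z, g z * nm m (Am φ u' v' m z fun j => c j z) := by
    intro i hi
    rw [← integral_const_mul]
    refine norm_integral_le_of_norm_le (hi2.const_mul _) (Eventually.of_forall fun z => ?_)
    rw [norm_mul, norm_mul, norm_pow, Complex.norm_real, Real.norm_of_nonneg (h.g0 z)]
    by_cases hz : z ∈ ball a ρ
    · rw [mem_ball, dist_eq_norm] at hz
      refine mul_le_mul (pow_le_pow_left₀ (norm_nonneg _) hz.le k) ?_
        (mul_nonneg (h.g0 z) (norm_nonneg _)) (by positivity)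
      exact mul_le_mul_of_nonneg_left (nm_coord (Finset.mem_range.1 hi)) (h.g0 z)
    · rw [h.gs z hz]
      simp
  calc ‖∑ i ∈ Finset.range m, E i • u i‖ ≤ ∑ i ∈ Finset.range m, ‖E i • u i‖ := norm_sum_le _ _
    _ ≤ ∑ i ∈ Finset.range m, (ρ ^ k * ∫ z, g z * nm m (Am φ u' v' m z fun j => c j z)) *
          ‖u i‖ := by
        refine Finset.sum_le_sum fun i hi => ?_
        rw [norm_smul]
        exact mul_le_mul_of_nonneg_right (h2 i hi) (norm_nonneg _)
    _ = (ρ ^ k * ∫ z, g z * nm m (Am φ u' v' m z fun j => c j z)) *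
          ∑ i ∈ Finset.range m, ‖u i‖ := by rw [Finset.mul_sum]
    _ ≤ (ρ ^ k * ∫ z, g z * nm m (Am φ u' v' m z fun j => c j z)) * U₀ :=
        mul_le_mul_of_nonneg_left hU (by positivity)
    _ = _ := by ring

end err

/-- linearity in the density -/
theorem VV_lin {g₁ g₂ : ℂ → ℝ} (h₁ : Dat m a ρ B g₁ c) (h₂ : Dat m a ρ B g₂ c) (u : ℕ → X)
    (t₁ t₂ : ℝ) (k : ℕ) :
    VV Ψ u m a (fun z => t₁ * g₁ z + t₂ * g₂ z) c k =
      (t₁ : ℂ) • VV Ψ u m a g₁ c k + (t₂ : ℂ) • VV Ψ u m a g₂ c k := by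
  unfold VV
  rw [Finset.smul_sum, Finset.smul_sum, ← Finset.sum_add_distrib]
  refine Finset.sum_congr rfl fun j hj => ?_
  have hj' := Finset.mem_range.1 hj
  have i1 := ((hHT ρ h₁.rpos).choose_spec.2 a _ _ (h₁.bd hj' k)).2.2.1
  have i2 := ((hHT ρ h₂.rpos).choose_spec.2 a _ _ (h₂.bd hj' k)).2.2.1
  have e1 : ht (fun z => (z - a) ^ k * (((t₁ * g₁ z + t₂ * g₂ z : ℝ) : ℂ) * c j z)) =
      fun l => (t₁ : ℂ) * ht (fun z => (z - a) ^ k * ((g₁ z : ℂ) * c j z)) l +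
        (t₂ : ℂ) * ht (fun z => (z - a) ^ k * ((g₂ z : ℂ) * c j z)) l := by
    funext l
    unfold ht
    rw [← integral_const_mul, ← integral_const_mul, ← integral_add ((i1 l).const_mul _)
      ((i2 l).const_mul _)]
    refine integral_congr_ae (Eventually.of_forall fun z => ?_)
    push_cast
    ring
  have hc1 := h₁.htc hj' k
  have hc2 := h₂.htc hj' k
  rw [e1, op_add (h := fun l => (t₁ : ℂ) * ht (fun z => (z - a) ^ k * ((g₁ z : ℂ) * c j z)) l)
    (k := fun l => (t₂ : ℂ) * ht (fun z => (z - a) ^ k * ((g₂ z : ℂ) * c j z)) l)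
    (continuous_const.mul hc1) (continuous_const.mul hc2), op_smul hc1, op_smul hc2]
  rfl

/-- MIN for a reflexive (in fact for every) Banach space -/
theorem min_main (hCAU : S_CAU) (hMZ : S_MZ) (hΨ : Cal N R Ψ) {C₀ : ℝ} (hC : CB Ψ C₀) :
    ∃ C₁ : ℝ, 0 < C₁ ∧ ∀ (u : ℕ → X) (m : ℕ) (U₀ : ℝ), ∑ j ∈ Finset.range m, ‖u j‖ ≤ U₀ →
      ∀ (h : ℂ → ℝ) (C δ ρ B : ℝ) (a : ℂ) (c : ℕ → ℂ → ℂ), Dat m a ρ B h c → 0 < C → 0 ≤ δ →
      WT h C δ → C₁ * δ ≤ ∫ z, h z → ∃ g : ℂ → ℝ, Dat m a ρ B g c ∧ (∀ z, g z ≤ h z) ∧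
        (∫ z, h z) / 2 ≤ ∫ z, g z ∧ ‖VV Ψ u m a g c 0‖ ≤ C₁ * C * U₀ + 1 := by
  obtain ⟨D₀, hD₀, hMZ⟩ := hMZ
  have hC0 := hC.1
  refine ⟨4 * D₀ * (C₀ + 1), by positivity, fun u m U₀ hU h C δ ρ B a c hd hCp hδ hWT hδI => ?_⟩
  have hU0 : 0 ≤ U₀ := (Finset.sum_nonneg fun _ _ => norm_nonneg _).trans hU
  set I : ℝ := ∫ z, h z with hI
  have hI0 : 0 ≤ I := integral_nonneg hd.g0
  by_cases hIz : I = 0
  · refine ⟨h, hd, fun z => le_rfl, by linarith, ?_⟩
    have h1 : h =ᵐ[volume] 0 := (integral_eq_zero_iff_of_nonneg hd.g0 hd.gint).1 hIz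
    have h2 : VV Ψ u m a h c 0 = 0 := by
      unfold VV
      refine Finset.sum_eq_zero fun j _ => ?_
      have h3 : ht (fun z => (z - a) ^ 0 * ((h z : ℂ) * c j z)) = fun _ => 0 := by
        funext l
        unfold ht
        refine integral_eq_zero_of_ae ?_
        filter_upwards [h1] with z hz
        rw [hz]
        simp
      rw [h3, op_zero]
      rfl
    rw [h2, norm_zero]
    positivity
  have hIp : 0 < I := lt_of_le_of_ne hI0 (Ne.symm hIz)
  set M : ℝ := 4 * D₀ * (C₀ + 1) * C * U₀ + 1 with hM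
  have hMp : 0 < M := by positivity
  by_contra hcon
  push Not at hcon
  -- the convex set
  set W : Set X := {y | ∃ g : ℂ → ℝ, Dat m a ρ B g c ∧ (∀ z, g z ≤ h z) ∧ I / 2 ≤ ∫ z, g z ∧
    VV Ψ u m a g c 0 = y} with hW
  have hWc : Convex ℝ W := by
    rintro _ ⟨g₁, d₁, l₁, i₁, rfl⟩ _ ⟨g₂, d₂, l₂, i₂, rfl⟩ t₁ t₂ ht₁ ht₂ hsum
    refine ⟨fun z => t₁ * g₁ z + t₂ * g₂ z, ?_, fun z => ?_, ?_, ?_⟩
    · refine ⟨d₁.rpos, (d₁.gm.const_mul t₁).add (d₂.gm.const_mul t₂), fun z => ?_, fun z => ?_,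
        fun z hz => ?_, d₁.cm, d₁.c1⟩
      · exact add_nonneg (mul_nonneg ht₁ (d₁.g0 z)) (mul_nonneg ht₂ (d₂.g0 z))
      · have h1 := mul_le_mul_of_nonneg_left (d₁.gB z) ht₁
        have h2 := mul_le_mul_of_nonneg_left (d₂.gB z) ht₂
        have h3 : t₁ * B + t₂ * B = B := by rw [← add_mul, hsum, one_mul]
        linarith
      · rw [d₁.gs z hz, d₂.gs z hz, mul_zero, mul_zero, add_zero]
    · have h1 := mul_le_mul_of_nonneg_left (l₁ z) ht₁
      have h2 := mul_le_mul_of_nonneg_left (l₂ z) ht₂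
      have h3 : t₁ * h z + t₂ * h z = h z := by rw [← add_mul, hsum, one_mul]
      linarith
    · rw [integral_add (d₁.gint.const_mul t₁) (d₂.gint.const_mul t₂), integral_const_mul,
        integral_const_mul]
      have h1 := mul_le_mul_of_nonneg_left i₁ ht₁
      have h2 := mul_le_mul_of_nonneg_left i₂ ht₂
      have h3 : t₁ * (I / 2) + t₂ * (I / 2) = I / 2 := by rw [← add_mul, hsum, one_mul]
      linarith
    · rw [VV_lin d₁ d₂]
      rfl
  have hdisj : Disjoint (ball (0:X) M) W := by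
    rw [Set.disjoint_left]
    rintro _ hy ⟨g, d, l, i, rfl⟩
    have h1 := hcon g d l i
    rw [mem_ball_zero_iff] at hy
    linarith
  obtain ⟨f, s, hf1, hf2⟩ := RCLike.geometric_hahn_banach_open (𝕜 := ℂ)
    (convex_ball (0:X) M) isOpen_ball hWc hdisj
  have hmemW : ∀ g : ℂ → ℝ, Dat m a ρ B g c → (∀ z, g z ≤ h z) → I / 2 ≤ ∫ z, g z →
      s ≤ (f (VV Ψ u m a g c 0)).re := fun g d l i => hf2 _ ⟨g, d, l, i, rfl⟩
  have hs0 : 0 < s := by
    have := hf1 0 (mem_ball_self hMp)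
    simpa using this
  have hfM : ‖f‖ * M ≤ s := by
    have h1 : ‖f‖ ≤ s / M := by
      refine ContinuousLinearMap.opNorm_le_of_unit_norm (by positivity) fun x hx => ?_
      by_contra hlt
      push Not at hlt
      have hfx : 0 < ‖f x‖ := lt_trans (by positivity) hlt
      have h2 : s / ‖f x‖ < M := by
        rw [div_lt_iff₀ hMp] at hlt
        rw [div_lt_iff₀ hfx]
        linarith
      have h3 := hf1 (((s / ‖f x‖ ^ 2 : ℝ) : ℂ) • (conj (f x)) • x) (by
        rw [mem_ball_zero_iff, norm_smul, norm_smul, RCLike.norm_conj, hx, Complex.norm_real,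
          Real.norm_of_nonneg (by positivity)]
        have e : s / ‖f x‖ ^ 2 * (‖f x‖ * 1) = s / ‖f x‖ := by
          field_simp
        rw [e]
        exact h2)
      have e0 : f (((s / ‖f x‖ ^ 2 : ℝ) : ℂ) • (conj (f x)) • x) =
          ((s / ‖f x‖ ^ 2 : ℝ) : ℂ) * (conj (f x) * f x) := by
        rw [f.map_smul, f.map_smul, smul_eq_mul, smul_eq_mul]
      rw [e0] at h3
      have e : ((s / ‖f x‖ ^ 2 : ℝ) : ℂ) * (conj (f x) * f x) = ((s : ℝ) : ℂ) := by
        have e2 : conj (f x) * f x = ((‖f x‖ ^ 2 : ℝ) : ℂ) := by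
          rw [mul_comm, Complex.mul_conj, Complex.normSq_eq_norm_sq]
        rw [e2, ← Complex.ofReal_mul]
        congr 1
        field_simp
      rw [e] at h3
      simp at h3
    rwa [le_div_iff₀ hMp] at h1
  have hf0 : 0 < ‖f‖ := by
    rcases (norm_nonneg f).eq_or_lt with h0 | h0
    · exfalso
      have h1 := hmemW h hd (fun z => le_rfl) (by linarith)
      have h2 : f = 0 := norm_eq_zero.1 h0.symm
      rw [h2] at h1
      simp at h1
      linarith
    · exact h0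
  obtain ⟨S, _, μ, _, φ, k, hφ, hk, hkb, hK⟩ := real_fin hCAU hΨ hC f m (fun i : Fin m => u i)
  have hsumU : ∑ i : Fin m, ‖u i‖ ≤ U₀ := by
    rw [← Finset.sum_range (fun i => ‖u i‖)]
    exact hU
  set Λ : ℝ := ‖f‖ * (4 * D₀ * C₀ * C * U₀ + 1 / 2) / I with hΛ
  have hΛ0 : 0 < Λ := by positivity
  -- the bad set
  set T : Set ℂ := {z | Λ ≤ √(∑ i, ‖cau μ φ (k i) z‖ ^ 2)} with hT
  have hTm : MeasurableSet T := by
    refine measurableSet_le measurable_const ?_
    exact (Finset.measurable_sum _ fun i _ => ((hK i).meas.norm.pow_const 2)).sqrt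
  have hbad : ∫ z in T, h z ≤ I / 2 := by
    have h1 := hMZ h C δ hd.gint hd.g0 hCp.le hδ hWT (Fin m) S μ φ k hφ hk Λ hΛ0
    refine h1.trans ?_
    have h2 : C * (∫ s, √(∑ i, ‖k i s‖ ^ 2) ∂μ) / Λ ≤ C * (C₀ * (‖f‖ * U₀)) / Λ := by
      have h3 : C₀ * (‖f‖ * ∑ i : Fin m, ‖u i‖) ≤ C₀ * (‖f‖ * U₀) := by gcongr
      gcongr
      exact hkb.trans h3
    have h3 : D₀ * (C * (C₀ * (‖f‖ * U₀)) / Λ) ≤ I / 4 := by
      rw [hΛ]
      have e : D₀ * (C * (C₀ * (‖f‖ * U₀)) / (‖f‖ * (4 * D₀ * C₀ * C * U₀ + 1 / 2) / I)) =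
          I / 4 * ((4 * D₀ * C₀ * C * U₀) / (4 * D₀ * C₀ * C * U₀ + 1 / 2)) := by
        field_simp
      rw [e]
      refine mul_le_of_le_one_right (by positivity) ?_
      rw [div_le_one (by positivity)]
      linarith
    have h4 : D₀ * δ ≤ I / 4 := by
      have h5 : 4 * D₀ * δ ≤ 4 * D₀ * (C₀ + 1) * δ := by
        refine mul_le_mul_of_nonneg_right ?_ hδ
        have : 0 ≤ 4 * D₀ * C₀ := by positivity
        linarith
      linarith
    calc D₀ * (C * (∫ s, √(∑ i, ‖k i s‖ ^ 2) ∂μ) / Λ + δ) ≤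
          D₀ * (C * (C₀ * (‖f‖ * U₀)) / Λ + δ) := by gcongr
      _ = D₀ * (C * (C₀ * (‖f‖ * U₀)) / Λ) + D₀ * δ := by ring
      _ ≤ _ := by linarith
  -- the density
  have hd' : Dat m a ρ B (Tᶜ.indicator h) c := by
    refine ⟨hd.rpos, hd.gm.indicator hTm.compl, fun z => indicator_nonneg (fun z _ => hd.g0 z) z,
      fun z => ?_, fun z hz => ?_, hd.cm, hd.c1⟩
    · by_cases hz : z ∈ Tᶜ
      · rw [indicator_of_mem hz]
        exact hd.gB z
      · rw [indicator_of_notMem hz]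
        exact hd.B0
    · by_cases hz' : z ∈ Tᶜ
      · rw [indicator_of_mem hz']
        exact hd.gs z hz
      · rw [indicator_of_notMem hz']
  have hle : ∀ z, Tᶜ.indicator h z ≤ h z := fun z => indicator_le_self' (fun z _ => hd.g0 z) z
  have hmass : I / 2 ≤ ∫ z, Tᶜ.indicator h z := by
    rw [integral_indicator hTm.compl]
    have h1 := integral_add_compl hTm hd.gint
    linarith
  have h1 := hmemW _ hd' hle hmass
  -- the pairing
  set K' : ℕ → ℂ → ℂ := fun j => if hj : j < m then cau μ φ (k ⟨j, hj⟩) else 0 with hK'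
  have hKK : ∀ j < m, IsK Ψ f (u j) (K' j) := by
    intro j hj
    simp only [hK', dif_pos hj]
    exact hK ⟨j, hj⟩
  obtain ⟨-, h2⟩ := VV_pair hd' u f K' hKK 0
  have h3 : ‖f (VV Ψ u m a (Tᶜ.indicator h) c 0)‖ ≤ Λ * I := by
    rw [h2, hI, ← integral_const_mul]
    refine norm_integral_le_of_norm_le (hd.gint.const_mul _) (Eventually.of_forall fun z => ?_)
    rw [pow_zero, one_mul, norm_mul, Complex.norm_real, Real.norm_of_nonneg (hd'.g0 z)]
    by_cases hz : z ∈ Tᶜ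
    · rw [indicator_of_mem hz, mul_comm]
      refine mul_le_mul_of_nonneg_right ?_ (hd.g0 z)
      have h4 : √(∑ i, ‖cau μ φ (k i) z‖ ^ 2) < Λ := not_le.1 hz
      have h5 : ∑ i, ‖cau μ φ (k i) z‖ ^ 2 = ∑ j ∈ Finset.range m, ‖K' j z‖ ^ 2 := by
        rw [Finset.sum_range]
        refine Finset.sum_congr rfl fun i _ => ?_
        simp [hK']
      rw [h5] at h4
      refine le_trans ?_ h4.le
      calc ‖∑ j ∈ Finset.range m, c j z * K' j z‖ ≤ ∑ j ∈ Finset.range m, ‖c j z‖ * ‖K' j z‖ := by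
            refine (norm_sum_le _ _).trans (le_of_eq ?_)
            refine Finset.sum_congr rfl fun j _ => norm_mul _ _
        _ ≤ √(∑ j ∈ Finset.range m, ‖c j z‖ ^ 2) * √(∑ j ∈ Finset.range m, ‖K' j z‖ ^ 2) :=
            Real.sum_mul_le_sqrt_mul_sqrt _ _ _
        _ ≤ 1 * √(∑ j ∈ Finset.range m, ‖K' j z‖ ^ 2) :=
            mul_le_mul_of_nonneg_right (hd.c1 z) (Real.sqrt_nonneg _)
        _ = _ := one_mul _
    · rw [indicator_of_notMem hz, zero_mul]
      exact mul_nonneg hΛ0.le (hd.g0 z)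
  have h4 : ‖f‖ * M ≤ ‖f‖ * (4 * D₀ * C₀ * C * U₀ + 1 / 2) := by
    have h5 : Λ * I = ‖f‖ * (4 * D₀ * C₀ * C * U₀ + 1 / 2) := by
      rw [hΛ, div_mul_cancel₀ _ hIp.ne']
    rw [← h5]
    exact hfM.trans (h1.trans ((Complex.re_le_norm _).trans h3))
  have h5 := le_of_mul_le_mul_left h4 hf0
  have h6 : 0 ≤ 4 * D₀ * C * U₀ := by positivity
  rw [hM] at h5
  nlinarith

end Pool.Agent.Q88.NB
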