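import Pool.Agent.Q88.NB.Riesz
import Pool.Agent.Q98.NR.Ker
import Pool.Agent.Q98.RB.Main
import Pool.Agent.Q130.TC.Stm2

/-!
# Realisation of families of pairs by Cauchy transforms
-/

set_option autoImplicit false

namespace Pool.Agent.Q88.NB

open MeasureTheory Set Metric Filter Topology
open scoped ENNReal NNReal ComplexConjugate
open Pool.Agent.Y283.NK (ct)
open Pool.Agent.Y271.RO (ht Bd hHT hCTG)
open Pool.Agent.Q98.RB
open Pool.Agent.Q98.NR (IsK)
open Pool.Agent.Q130.TC (cau S_CAU WT S_MZ)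

variable {X : Type} [NormedAddCommGroup X] [NormedSpace ℂ X]
variable {N : X →L[ℂ] X} {R : ℝ} {Ψ : C(DD R, ℂ) →ₐ[ℂ] (X →L[ℂ] X)}

/-- the norm of the calculus -/
def CB (Ψ : C(DD R, ℂ) →ₐ[ℂ] (X →L[ℂ] X)) (C₀ : ℝ) : Prop :=
  0 ≤ C₀ ∧ ∀ h : C(DD R, ℂ), ‖Ψ h‖ ≤ C₀ * ‖h‖

theorem exists_CB (hΨ : Cal N R Ψ) : ∃ C₀, CB Ψ C₀ := by
  let L : C(DD R, ℂ) →L[ℂ] (X →L[ℂ] X) := ⟨Ψ.toLinearMap, hΨ.cont⟩
  exact ⟨‖L‖, norm_nonneg L, fun h => L.le_opNorm h⟩

theorem CB.op {C₀ : ℝ} (h : CB Ψ C₀) : ∀ (k : ℂ → ℂ) (M : ℝ), Continuous k → 0 ≤ M →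
    (∀ z, ‖z‖ ≤ R → ‖k z‖ ≤ M) → ‖op Ψ k‖ ≤ C₀ * M := by
  intro k M hk hM hb
  refine (h.2 _).trans (mul_le_mul_of_nonneg_left ?_ h.1)
  rw [ContinuousMap.norm_le _ hM]
  intro s
  rw [rs_apply hk]
  exact hb s (ι_bd R s)

/-- one pair -/
theorem pair_polar (hΨ : Cal N R Ψ) {C₀ : ℝ} (hC : CB Ψ C₀) (w : X →L[ℂ] ℂ) (x : X) :
    ∃ (μ : Measure (DD R)) (_ : IsFiniteMeasure μ) (σ : DD R → ℂ), Measurable σ ∧
      (∀ s, ‖σ s‖ ≤ 1) ∧ μ.real univ ≤ C₀ * (‖w‖ * ‖x‖) ∧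
      ∀ h : ℂ → ℂ, Continuous h → w (op Ψ h x) = ∫ s, h (ι R s) * σ s ∂μ := by
  let L : C(DD R, ℂ) →L[ℂ] (X →L[ℂ] X) := ⟨Ψ.toLinearMap, hΨ.cont⟩
  let F : StrongDual ℂ C(DD R, ℂ) := w.comp ((ContinuousLinearMap.apply ℂ X x).comp L)
  have hF : ‖F‖ ≤ C₀ * (‖w‖ * ‖x‖) := by
    refine F.opNorm_le_bound (mul_nonneg hC.1 (by positivity)) fun h => ?_
    have h1 : ‖F h‖ ≤ ‖w‖ * (‖Ψ h‖ * ‖x‖) :=
      (w.le_opNorm _).trans (mul_le_mul_of_nonneg_left ((Ψ h).le_opNorm x) (norm_nonneg _))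
    refine h1.trans ?_
    have h2 := hC.2 h
    calc ‖w‖ * (‖Ψ h‖ * ‖x‖) ≤ ‖w‖ * ((C₀ * ‖h‖) * ‖x‖) := by gcongr
      _ = _ := by ring
  obtain ⟨μ, hμ, σ, hσ, hσ1, hm, hr⟩ := exists_polar F
  refine ⟨μ, hμ, σ, hσ, hσ1, hm.trans hF, fun h hh => ?_⟩
  have h2 : w (op Ψ h x) = F (rs R h) := rfl
  rw [h2, hr]
  refine integral_congr_ae (Eventually.of_forall fun s => ?_)
  simp only [rs_apply hh]

section disj

variable {κ : Type} [Countable κ] [MeasurableSpace κ] [MeasurableSingletonClass κ] [DecidableEq κ]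

/-- a summable family of pairs on one measure space -/
theorem disj (hΨ : Cal N R Ψ) {C₀ : ℝ} (hC : CB Ψ C₀) (w : κ → (X →L[ℂ] ℂ)) (x : κ → X)
    (hs : Summable fun p => ‖w p‖ * ‖x p‖) :
    ∃ (μ : Measure (κ × DD R)) (_ : IsFiniteMeasure μ) (σ : κ × DD R → ℂ), Measurable σ ∧
      (∀ q, ‖σ q‖ ≤ 1) ∧ μ.real univ ≤ C₀ * ∑' p, ‖w p‖ * ‖x p‖ ∧
      ∀ p (h : ℂ → ℂ), Continuous h →
        w p (op Ψ h (x p)) = ∫ q, (if q.1 = p then h (ι R q.2) * σ q else 0) ∂μ := by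
  choose μ hμ σ hσ hσ1 hm hr using fun p => pair_polar hΨ hC (w p) (x p)
  set ν : Measure (κ × DD R) := Measure.sum fun p => (μ p).map (Prod.mk p) with hν
  have huniv : ν univ = ∑' p, ENNReal.ofReal ((μ p).real univ) := by
    rw [hν, Measure.sum_apply _ MeasurableSet.univ]
    refine tsum_congr fun p => ?_
    rw [Measure.map_apply measurable_prodMk_left MeasurableSet.univ, preimage_univ,
      ofReal_measureReal]
  have hs1 : Summable fun p => (μ p).real univ :=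
    Summable.of_nonneg_of_le (fun p => by positivity) hm (hs.mul_left C₀)
  have hνfin : ν univ = ENNReal.ofReal (∑' p, (μ p).real univ) := by
    rw [huniv, ENNReal.ofReal_tsum_of_nonneg (fun p => by positivity) hs1]
  have hfin : IsFiniteMeasure ν := ⟨by rw [hνfin]; exact ENNReal.ofReal_lt_top⟩
  have hσm : Measurable fun q : κ × DD R => σ q.1 q.2 :=
    measurable_from_prod_countable_right fun p => hσ p
  refine ⟨ν, hfin, fun q => σ q.1 q.2, hσm, fun q => hσ1 _ _, ?_, ?_⟩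
  · rw [measureReal_def, hνfin, ENNReal.toReal_ofReal (tsum_nonneg fun p => by positivity),
      ← tsum_mul_left]
    exact hs1.tsum_le_tsum hm (hs.mul_left C₀)
  · intro p h hh
    rw [hr p h hh]
    have hmeas : Measurable fun q : κ × DD R =>
        (if q.1 = p then h (ι R q.2) * σ q.1 q.2 else 0) := by
      refine Measurable.ite (measurable_fst (measurableSet_singleton p)) ?_ measurable_const
      exact ((hh.measurable.comp (ι_meas R)).comp measurable_snd).mul hσm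
    obtain ⟨M, hM0, hM⟩ := exists_bd hh R
    have hint : Integrable (fun q : κ × DD R =>
        (if q.1 = p then h (ι R q.2) * σ q.1 q.2 else 0)) ν := by
      refine Integrable.of_bound hmeas.aestronglyMeasurable M (Eventually.of_forall fun q => ?_)
      split_ifs
      · rw [norm_mul]
        calc ‖h (ι R q.2)‖ * ‖σ q.1 q.2‖ ≤ M * 1 :=
              mul_le_mul (hM _ (ι_bd R q.2)) (hσ1 _ _) (norm_nonneg _) hM0
          _ = M := mul_one M
      · simpa using hM0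
    have h1 := hasSum_integral_measure hint
    have h2 : ∀ p', ∫ q, (if q.1 = p then h (ι R q.2) * σ q.1 q.2 else 0)
        ∂((μ p').map (Prod.mk p')) = if p' = p then ∫ s, h (ι R s) * σ p s ∂(μ p) else 0 := by
      intro p'
      rw [(measurableEmbedding_prodMk_left p').integral_map]
      by_cases hp : p' = p
      · subst hp
        simp
      · simp [hp]
    simp_rw [h2] at h1
    exact (hasSum_ite_eq p (∫ s, h (ι R s) * σ p s ∂(μ p))).unique h1

/-- the Cauchy transforms -/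
theorem isK_cau (hCAU : S_CAU) {μ : Measure (κ × DD R)} [IsFiniteMeasure μ] {σ : κ × DD R → ℂ}
    (hσ : Measurable σ) (hσ1 : ∀ q, ‖σ q‖ ≤ 1) {w : X →L[ℂ] ℂ} {x : X} (p : κ)
    (hr : ∀ h : ℂ → ℂ, Continuous h →
      w (op Ψ h x) = ∫ q, (if q.1 = p then h (ι R q.2) * σ q else 0) ∂μ) :
    Integrable (fun q : κ × DD R => if q.1 = p then σ q else 0) μ ∧
    IsK Ψ w x (cau μ (fun q => ι R q.2) fun q => if q.1 = p then σ q else 0) := by
  have hφ : Measurable fun q : κ × DD R => ι R q.2 := (ι_meas R).comp measurable_snd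
  have hkm : Measurable fun q : κ × DD R => if q.1 = p then σ q else 0 :=
    Measurable.ite (measurable_fst (measurableSet_singleton p)) hσ measurable_const
  have hki : Integrable (fun q : κ × DD R => if q.1 = p then σ q else 0) μ := by
    refine Integrable.of_bound hkm.aestronglyMeasurable 1 (Eventually.of_forall fun q => ?_)
    split_ifs
    · exact hσ1 q
    · simp
  refine ⟨hki, (hCAU.1 _ μ _ _ hφ hki).1, fun c r M g hg => ?_⟩
  by_cases hrp : 0 < r
  · obtain ⟨M₀, -, h1⟩ := hCAU.2 r hrp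
    obtain ⟨h2, -, h3⟩ := h1 _ μ _ _ hφ hki c M g hg
    refine ⟨h2, ?_⟩
    rw [h3, hr _ (ht_cont hrp hg)]
    refine integral_congr_ae (Eventually.of_forall fun q => ?_)
    simp only
    split_ifs
    · ring
    · ring
  · have hg0 : g = 0 := by
      funext z
      exact hg.supp z (by rw [ball_eq_empty.2 (not_lt.1 hrp)]; exact notMem_empty z)
    have : ht g = fun _ => 0 := by
      funext l
      rw [hg0]
      simp [ht]
    rw [this, hg0, op_zero]
    simp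

end disj

/-- the pairs of one functional with finitely many vectors -/
theorem real_fin (hCAU : S_CAU) (hΨ : Cal N R Ψ) {C₀ : ℝ} (hC : CB Ψ C₀) (w : X →L[ℂ] ℂ) (m : ℕ)
    (x : Fin m → X) :
    ∃ (S : Type) (_ : MeasurableSpace S) (μ : Measure S) (_ : IsFiniteMeasure μ) (φ : S → ℂ)
      (k : Fin m → S → ℂ), Measurable φ ∧ (∀ i, Integrable (k i) μ) ∧
      ∫ s, √(∑ i, ‖k i s‖ ^ 2) ∂μ ≤ C₀ * (‖w‖ * ∑ i, ‖x i‖) ∧
      ∀ i, IsK Ψ w (x i) (cau μ φ (k i)) := by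
  classical
  obtain ⟨μ, hμ, σ, hσ, hσ1, hm, hr⟩ := disj hΨ hC (fun _ : Fin m => w) x
    (Summable.of_finite)
  have h1 := fun i : Fin m => isK_cau hCAU hσ hσ1 i (hr i)
  refine ⟨Fin m × DD R, inferInstance, μ, hμ, fun q => ι R q.2,
    fun i q => if q.1 = i then σ q else 0, (ι_meas R).comp measurable_snd, fun i => (h1 i).1, ?_,
    fun i => (h1 i).2⟩
  have h2 : ∀ q : Fin m × DD R, √(∑ i, ‖(if q.1 = i then σ q else 0 : ℂ)‖ ^ 2) ≤ 1 := by
    intro q
    have h3 : ∑ i, ‖(if q.1 = i then σ q else 0 : ℂ)‖ ^ 2 = ‖σ q‖ ^ 2 := by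
      rw [Finset.sum_eq_single q.1]
      · rw [if_pos rfl]
      · intro b _ hb
        rw [if_neg (Ne.symm hb)]
        simp
      · intro h
        exact absurd (Finset.mem_univ _) h
    rw [h3, Real.sqrt_sq (norm_nonneg _)]
    exact hσ1 q
  calc ∫ q, √(∑ i, ‖(if q.1 = i then σ q else 0 : ℂ)‖ ^ 2) ∂μ ≤ ∫ _, (1:ℝ) ∂μ :=
        integral_mono_of_nonneg (Eventually.of_forall fun q => Real.sqrt_nonneg _)
          (integrable_const _) (Eventually.of_forall h2)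
    _ = μ.real univ := by simp
    _ ≤ C₀ * ∑' i, ‖w‖ * ‖x i‖ := hm
    _ = _ := by rw [tsum_fintype, ← Finset.mul_sum]

/-- the matrix of a pair of summable sequences, realised by a multiplication operator on `L²` -/
theorem real_mat (hΨ : Cal N R Ψ) (u : ℕ → X) (v : ℕ → (X →L[ℂ] ℂ))
    (hu : Summable fun j => ‖u j‖) (hv : Summable fun j => ‖v j‖) :
    ∃ (S : Type) (_ : MeasurableSpace S) (μ : Measure S) (_ : IsFiniteMeasure μ) (φ : S → ℂ)
      (u' v' : ℕ → Lp ℂ 2 μ), Measurable φ ∧ Summable (fun j => ‖u' j‖ ^ 2) ∧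
      Summable (fun j => ‖v' j‖ ^ 2) ∧ ∀ i j, IsK Ψ (v i) (u j) (ct φ (v' i) (u' j)) := by
  classical
  obtain ⟨C₀, hC⟩ := exists_CB hΨ
  have hs : Summable fun p : ℕ × ℕ => ‖v p.1‖ * ‖u p.2‖ := hv.mul_of_nonneg hu
    (fun _ => norm_nonneg _) (fun _ => norm_nonneg _)
  obtain ⟨μ, hμ, σ, hσ, hσ1, -, hr⟩ := disj (κ := ℕ × ℕ) hΨ hC (fun p => v p.1) (fun p => u p.2) hs
  have hφ : Measurable fun q : (ℕ × ℕ) × DD R => ι R q.2 := (ι_meas R).comp measurable_snd
  have hum : ∀ j, Measurable fun q : (ℕ × ℕ) × DD R => (if q.1.2 = j then σ q else 0) := fun j =>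
    Measurable.ite ((measurable_snd.comp measurable_fst) (measurableSet_singleton j)) hσ
      measurable_const
  have hvm : ∀ i, Measurable fun q : (ℕ × ℕ) × DD R => (if q.1.1 = i then (1:ℂ) else 0) := fun i =>
    Measurable.ite ((measurable_fst.comp measurable_fst) (measurableSet_singleton i))
      measurable_const measurable_const
  have hub : ∀ j q, ‖(if q.1.2 = j then σ q else 0 : ℂ)‖ ≤ 1 := by
    intro j q
    split_ifs
    · exact hσ1 q
    · simp
  have hvb : ∀ (i : ℕ) (q : (ℕ × ℕ) × DD R), ‖(if q.1.1 = i then (1:ℂ) else 0)‖ ≤ 1 := by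
    intro i q
    split_ifs <;> simp
  have huL : ∀ j, MemLp (fun q : (ℕ × ℕ) × DD R => (if q.1.2 = j then σ q else 0)) 2 μ := fun j =>
    MemLp.of_bound (hum j).aestronglyMeasurable 1 (Eventually.of_forall (hub j))
  have hvL : ∀ i, MemLp (fun q : (ℕ × ℕ) × DD R => (if q.1.1 = i then (1:ℂ) else 0)) 2 μ :=
    fun i => MemLp.of_bound (hvm i).aestronglyMeasurable 1 (Eventually.of_forall (hvb i))
  have hnorm : ∀ f : Lp ℂ 2 μ, ‖f‖ ^ 2 = ∫ q, ‖f q‖ ^ 2 ∂μ := by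
    intro f
    have h1 := L2.inner_def (𝕜 := ℂ) f f
    have h2 : ((‖f‖ ^ 2 : ℝ) : ℂ) = ∫ q, ((‖f q‖ ^ 2 : ℝ) : ℂ) ∂μ := by
      have h3 : inner ℂ f f = ((‖f‖ ^ 2 : ℝ) : ℂ) := by
        rw [inner_self_eq_norm_sq_to_K]
        push_cast
        rfl
      rw [← h3, h1]
      refine integral_congr_ae (Eventually.of_forall fun q => ?_)
      show inner ℂ (f q) (f q) = _
      rw [inner_self_eq_norm_sq_to_K]
      push_cast
      rfl
    rw [integral_complex_ofReal] at h2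
    exact_mod_cast h2
  have hsumm : ∀ f : ℕ → (ℕ × ℕ) × DD R → ℂ, (hf : ∀ j, MemLp (f j) 2 μ) →
      (∀ (s : Finset ℕ) q, ∑ j ∈ s, ‖f j q‖ ^ 2 ≤ 1) → Summable fun j => ‖(hf j).toLp (f j)‖ ^ 2 := by
    intro f hf hb
    refine summable_of_sum_le (c := μ.real univ) (fun j => by positivity) fun s => ?_
    have h1 : ∀ j, ‖(hf j).toLp (f j)‖ ^ 2 = ∫ q, ‖f j q‖ ^ 2 ∂μ := by
      intro j
      rw [hnorm]
      refine integral_congr_ae ?_
      filter_upwards [(hf j).coeFn_toLp] with q hq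
      rw [hq]
    have hint : ∀ j, Integrable (fun q => ‖f j q‖ ^ 2) μ := fun j =>
      (hf j).integrable_norm_pow (by norm_num)
    simp_rw [h1]
    rw [← integral_finsetSum _ fun j _ => hint j]
    calc ∫ q, ∑ j ∈ s, ‖f j q‖ ^ 2 ∂μ ≤ ∫ _, (1:ℝ) ∂μ :=
          integral_mono (integrable_finsetSum _ fun j _ => hint j) (integrable_const _)
            fun q => hb s q
      _ = μ.real univ := by simp
  have hone : ∀ (s : Finset ℕ) (i : ℕ) (c : ℂ), ‖c‖ ≤ 1 →
      ∑ j ∈ s, ‖(if i = j then c else 0 : ℂ)‖ ^ 2 ≤ 1 := by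
    intro s i c hc
    calc ∑ j ∈ s, ‖(if i = j then c else 0 : ℂ)‖ ^ 2 ≤
          ∑ j ∈ insert i s, ‖(if i = j then c else 0 : ℂ)‖ ^ 2 :=
          Finset.sum_le_sum_of_subset_of_nonneg (Finset.subset_insert _ _)
            fun _ _ _ => by positivity
      _ = ‖c‖ ^ 2 := by
          rw [Finset.sum_eq_single i]
          · rw [if_pos rfl]
          · intro b _ hb
            rw [if_neg (Ne.symm hb)]
            simp
          · intro h
            exact absurd (Finset.mem_insert_self _ _) h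
      _ ≤ 1 := pow_le_one₀ (norm_nonneg _) hc
  refine ⟨(ℕ × ℕ) × DD R, inferInstance, μ, hμ, fun q => ι R q.2, fun j => (huL j).toLp _,
    fun i => (hvL i).toLp _, hφ, hsumm _ huL fun s q => hone s q.1.2 _ (hσ1 q),
    hsumm _ hvL fun s q => hone s q.1.1 _ (by simp), fun i j => ?_⟩
  obtain ⟨hm, -, h2⟩ := hCTG _ μ (fun q : (ℕ × ℕ) × DD R => ι R q.2) hφ ((hvL i).toLp _)
    ((huL j).toLp _)
  refine ⟨hm, fun c r M g hg => ?_⟩
  obtain ⟨h3, h4⟩ := h2 c r M g hg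
  refine ⟨h3, ?_⟩
  rw [← h4]
  have key : ∀ h : ℂ → ℂ, Continuous h → ∫ q, conj ((hvL i).toLp _ q) *
      (h (ι R q.2) * (huL j).toLp _ q) ∂μ = v i (op Ψ h (u j)) := by
    intro h hh
    rw [hr (i, j) h hh]
    refine integral_congr_ae ?_
    filter_upwards [(hvL i).coeFn_toLp, (huL j).coeFn_toLp] with q h5 h6
    rw [h5, h6]
    by_cases e1 : q.1.1 = i
    · by_cases e2 : q.1.2 = j
      · have e3 : q.1 = (i, j) := Prod.ext e1 e2
        simp [e3]
      · have e3 : q.1 ≠ (i, j) := fun h => e2 (by rw [h])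
        simp [e2, e3]
    · have e3 : q.1 ≠ (i, j) := fun h => e1 (by rw [h])
      simp [e1, e3]
  by_cases hrp : 0 < r
  · exact key _ (ht_cont hrp hg)
  · have hg0 : g = 0 := by
      funext z
      exact hg.supp z (by rw [ball_eq_empty.2 (not_lt.1 hrp)]; exact notMem_empty z)
    have : ht g = fun _ => 0 := by
      funext l
      rw [hg0]
      simp [ht]
    rw [this]
    exact key _ continuous_const

end Pool.Agent.Q88.NB
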