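import Pool.Agent.H731R2.Riesz

/-!
# Riesz representation with a bounded density and control of the mass
-/

set_option autoImplicit false

namespace Pool.Agent.Q88.NB

open MeasureTheory Set Metric Filter Topology
open scoped ENNReal NNReal ComplexConjugate InnerProductSpace

variable {Y : Type} [TopologicalSpace Y] [CompactSpace Y] [T2Space Y] [MeasurableSpace Y]
  [BorelSpace Y]

/-- the retraction to the unit disc -/
noncomputable def rtr (z : ℂ) : ℂ := z * (((max 1 ‖z‖)⁻¹ : ℝ) : ℂ)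

theorem rtr_cont : Continuous rtr := by
  unfold rtr
  refine continuous_id.mul (Complex.continuous_ofReal.comp ?_)
  exact (continuous_const.max continuous_norm).inv₀ fun z =>
    (lt_of_lt_of_le one_pos (le_max_left _ _)).ne'

theorem rtr_norm (z : ℂ) : ‖rtr z‖ ≤ 1 := by
  have h1 : 0 < max 1 ‖z‖ := lt_of_lt_of_le one_pos (le_max_left _ _)
  unfold rtr
  rw [norm_mul, Complex.norm_real, Real.norm_of_nonneg (by positivity), ← div_eq_mul_inv,
    div_le_one h1]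
  exact le_max_right _ _

theorem rtr_dist (z s : ℂ) (hs : ‖s‖ ≤ 1) : ‖rtr z - s‖ ≤ 2 * ‖z - s‖ := by
  rcases le_or_gt ‖z‖ 1 with h | h
  · have e : rtr z = z := by
      unfold rtr
      rw [max_eq_left h]
      simp
    rw [e]
    linarith [norm_nonneg (z - s)]
  · have h1 : ‖rtr z - z‖ = ‖z‖ - 1 := by
      have e : rtr z - z = z * ((‖z‖⁻¹ - 1 : ℝ) : ℂ) := by
        unfold rtr
        rw [max_eq_right h.le]
        push_cast
        ring
      have h2 : ‖z‖⁻¹ - 1 ≤ 0 := by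
        rw [sub_nonpos]
        exact inv_le_one_of_one_le₀ h.le
      rw [e, norm_mul, Complex.norm_real, Real.norm_of_nonpos h2]
      have h3 : ‖z‖ ≠ 0 := by linarith
      field_simp
      ring
    have h2 : ‖z‖ ≤ ‖z - s‖ + 1 := by
      calc ‖z‖ = ‖(z - s) + s‖ := by rw [sub_add_cancel]
        _ ≤ ‖z - s‖ + ‖s‖ := norm_add_le _ _
        _ ≤ _ := by linarith
    calc ‖rtr z - s‖ = ‖(rtr z - z) + (z - s)‖ := by rw [sub_add_sub_cancel]
      _ ≤ ‖rtr z - z‖ + ‖z - s‖ := norm_add_le _ _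
      _ ≤ _ := by linarith

/-- the mass of the density is at most the norm of the functional -/
theorem mass_le (Φ : StrongDual ℂ C(Y, ℂ)) {μ : Measure Y} [IsFiniteMeasure μ] [μ.Regular]
    (u : Lp ℂ 2 μ) (h : ∀ h : C(Y, ℂ), Φ h = ∫ x, h x * u x ∂μ) : ∫ x, ‖u x‖ ∂μ ≤ ‖Φ‖ := by
  -- the sign function
  have hum : AEStronglyMeasurable (u : Y → ℂ) μ := Lp.aestronglyMeasurable u
  set σ : Y → ℂ := fun x => conj (u x) * ((‖u x‖⁻¹ : ℝ) : ℂ) with hσ
  have hσ1 : ∀ x, ‖σ x‖ ≤ 1 := by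
    intro x
    simp only [hσ]
    rw [norm_mul, RCLike.norm_conj, Complex.norm_real, norm_inv, norm_norm]
    exact mul_inv_le_one
  have hσu : ∀ x, σ x * u x = (‖u x‖ : ℂ) := by
    intro x
    simp only [hσ]
    by_cases h0 : u x = 0
    · simp [h0]
    · have h1 : (‖u x‖ : ℂ) ≠ 0 := by exact_mod_cast norm_ne_zero_iff.2 h0
      have h2 : conj (u x) * u x = (‖u x‖ : ℂ) ^ 2 := by
        rw [mul_comm, Complex.mul_conj, Complex.normSq_eq_norm_sq]
        push_cast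
        rfl
      calc conj (u x) * ((‖u x‖⁻¹ : ℝ) : ℂ) * u x = (conj (u x) * u x) * ((‖u x‖ : ℂ))⁻¹ := by
            push_cast
            ring
        _ = _ := by
            rw [h2]
            field_simp
  have hσm : AEStronglyMeasurable σ μ := by
    refine (Complex.continuous_conj.comp_aestronglyMeasurable hum).mul ?_
    exact Complex.continuous_ofReal.comp_aestronglyMeasurable
      (hum.norm.aemeasurable.inv.aestronglyMeasurable)
  have hσL : MemLp σ 2 μ := MemLp.of_bound hσm 1 (Eventually.of_forall hσ1)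
  have hui : Integrable (fun x => ‖u x‖) μ := ((Lp.memLp u).integrable (by norm_num)).norm
  refine le_of_forall_pos_le_add fun ε hε => ?_
  set δ : ℝ := ε / (2 * (‖u‖ + 1)) with hδ
  have hδ0 : 0 < δ := by positivity
  obtain ⟨f, hf⟩ := (ContinuousMap.toLp_denseRange (E := ℂ) (p := 2) (μ := μ) (𝕜 := ℂ)
    (by norm_num)).exists_dist_lt (hσL.toLp σ) hδ0
  set F : C(Y, ℂ) := ⟨fun x => rtr (f x), rtr_cont.comp f.continuous⟩ with hF
  have hF1 : ‖F‖ ≤ 1 := (ContinuousMap.norm_le _ zero_le_one).2 fun x => rtr_norm _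
  have hFae : (ContinuousMap.toLp (E := ℂ) 2 μ ℂ F : Y → ℂ) =ᵐ[μ] F := ContinuousMap.coeFn_toLp μ F
  have hfae : (ContinuousMap.toLp (E := ℂ) 2 μ ℂ f : Y → ℂ) =ᵐ[μ] f := ContinuousMap.coeFn_toLp μ f
  have hd : ‖ContinuousMap.toLp (E := ℂ) 2 μ ℂ F - hσL.toLp σ‖ ≤ 2 * δ := by
    have h1 : ‖ContinuousMap.toLp (E := ℂ) 2 μ ℂ F - hσL.toLp σ‖ ≤
        2 * ‖ContinuousMap.toLp (E := ℂ) 2 μ ℂ f - hσL.toLp σ‖ := by
      refine Lp.norm_le_mul_norm_of_ae_le_mul ?_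
      filter_upwards [Lp.coeFn_sub (ContinuousMap.toLp (E := ℂ) 2 μ ℂ F) (hσL.toLp σ),
        Lp.coeFn_sub (ContinuousMap.toLp (E := ℂ) 2 μ ℂ f) (hσL.toLp σ), hFae, hfae,
        hσL.coeFn_toLp] with x h1 h2 h3 h4 h5
      rw [h1, h2, Pi.sub_apply, Pi.sub_apply, h3, h4, h5]
      exact rtr_dist _ _ (hσ1 x)
    rw [dist_comm, dist_eq_norm] at hf
    linarith
  have e1 : ∫ x, F x * u x ∂μ - ∫ x, σ x * u x ∂μ =
      ∫ x, (F x - σ x) * u x ∂μ := by
    rw [← integral_sub]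
    · refine integral_congr_ae (Eventually.of_forall fun x => ?_)
      ring
    · refine (hui.mono' ((F.continuous.aestronglyMeasurable).mul hum) (Eventually.of_forall fun x => ?_))
      rw [norm_mul]
      exact mul_le_of_le_one_left (norm_nonneg _) (rtr_norm _)
    · refine (hui.mono' (hσm.mul hum) (Eventually.of_forall fun x => ?_))
      rw [norm_mul]
      exact mul_le_of_le_one_left (norm_nonneg _) (hσ1 x)
  have e2 : ‖∫ x, (F x - σ x) * u x ∂μ‖ ≤ 2 * δ * ‖u‖ := by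
    have h1 := norm_inner_le_norm (𝕜 := ℂ) (star (ContinuousMap.toLp (E := ℂ) 2 μ ℂ F -
      hσL.toLp σ)) u
    rw [MeasureTheory.L2.inner_def] at h1
    have h2 : ∫ x, ⟪(star (ContinuousMap.toLp (E := ℂ) 2 μ ℂ F - hσL.toLp σ) : Lp ℂ 2 μ) x,
        u x⟫_ℂ ∂μ = ∫ x, (F x - σ x) * u x ∂μ := by
      refine integral_congr_ae ?_
      filter_upwards [Lp.coeFn_sub (ContinuousMap.toLp (E := ℂ) 2 μ ℂ F) (hσL.toLp σ), hFae,
        hσL.coeFn_toLp, Lp.coeFn_star (ContinuousMap.toLp (E := ℂ) 2 μ ℂ F - hσL.toLp σ)]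
        with x h1 h3 h5 h6
      rw [h6, RCLike.inner_apply, Pi.star_apply, h1, Pi.sub_apply, h3, h5]
      simp only [RCLike.star_def, Complex.conj_conj]
      ring
    rw [h2] at h1
    refine h1.trans ?_
    have h7 : ‖star (ContinuousMap.toLp (E := ℂ) 2 μ ℂ F - hσL.toLp σ)‖ ≤
        ‖ContinuousMap.toLp (E := ℂ) 2 μ ℂ F - hσL.toLp σ‖ := by
      refine Lp.norm_le_norm_of_ae_le ?_
      filter_upwards [Lp.coeFn_star (ContinuousMap.toLp (E := ℂ) 2 μ ℂ F - hσL.toLp σ)] with x hx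
      rw [hx, Pi.star_apply, norm_star]
    exact mul_le_mul_of_nonneg_right (h7.trans hd) (norm_nonneg _)
  have e3 : ∫ x, σ x * u x ∂μ = ((∫ x, ‖u x‖ ∂μ : ℝ) : ℂ) := by
    rw [← integral_complex_ofReal]
    exact integral_congr_ae (Eventually.of_forall hσu)
  have e4 : ‖∫ x, F x * u x ∂μ‖ ≤ ‖Φ‖ := by
    rw [← h F]
    refine (Φ.le_opNorm F).trans ?_
    exact mul_le_of_le_one_right (norm_nonneg _) hF1
  have e5 : ∫ x, ‖u x‖ ∂μ = ‖∫ x, σ x * u x ∂μ‖ := by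
    rw [e3, Complex.norm_real, Real.norm_of_nonneg (integral_nonneg fun x => norm_nonneg _)]
  have e6 : 2 * δ * ‖u‖ ≤ ε := by
    have h1 : 0 ≤ ‖u‖ := norm_nonneg u
    rw [hδ]
    have : 2 * (ε / (2 * (‖u‖ + 1))) * ‖u‖ = ε * (‖u‖ / (‖u‖ + 1)) := by
      field_simp
    rw [this]
    refine mul_le_of_le_one_right hε.le ?_
    rw [div_le_one (by positivity)]
    linarith
  rw [e5]
  calc ‖∫ x, σ x * u x ∂μ‖ = ‖(∫ x, F x * u x ∂μ) - ∫ x, (F x - σ x) * u x ∂μ‖ := by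
        rw [← e1]; congr 1; ring
    _ ≤ ‖∫ x, F x * u x ∂μ‖ + ‖∫ x, (F x - σ x) * u x ∂μ‖ := norm_sub_le _ _
    _ ≤ ‖Φ‖ + ε := by linarith

/-- Riesz representation by a measure of mass at most `‖Φ‖` and a density bounded by one -/
theorem exists_polar (Φ : StrongDual ℂ C(Y, ℂ)) :
    ∃ (μ : Measure Y) (_ : IsFiniteMeasure μ) (σ : Y → ℂ), Measurable σ ∧ (∀ x, ‖σ x‖ ≤ 1) ∧
      μ.real univ ≤ ‖Φ‖ ∧ ∀ h : C(Y, ℂ), Φ h = ∫ x, h x * σ x ∂μ := by
  obtain ⟨μ₀, hf, hr, u, hu⟩ := Pool.Agent.H731R2.exists_density Φ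
  have hm := mass_le Φ u hu
  -- a measurable representative
  obtain ⟨u', hu', hae⟩ : ∃ u' : Y → ℂ, Measurable u' ∧ (u : Y → ℂ) =ᵐ[μ₀] u' :=
    ⟨(Lp.aestronglyMeasurable u).aemeasurable.mk u,
      (Lp.aestronglyMeasurable u).aemeasurable.measurable_mk,
      (Lp.aestronglyMeasurable u).aemeasurable.ae_eq_mk⟩
  have hui : Integrable u' μ₀ := ((Lp.memLp u).integrable (by norm_num)).congr hae
  have hfin : IsFiniteMeasure (μ₀.withDensity fun x => ‖u' x‖ₑ) :=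
    isFiniteMeasure_withDensity (by
      have := hui.2
      unfold HasFiniteIntegral at this
      exact this.ne)
  refine ⟨μ₀.withDensity fun x => ‖u' x‖ₑ, hfin, fun x => u' x * ((‖u' x‖⁻¹ : ℝ) : ℂ), ?_, ?_, ?_, ?_⟩
  · exact hu'.mul (Complex.measurable_ofReal.comp hu'.norm.inv)
  · intro x
    rw [norm_mul, Complex.norm_real, norm_inv, norm_norm]
    exact mul_inv_le_one
  · rw [measureReal_def, withDensity_apply _ MeasurableSet.univ, Measure.restrict_univ]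
    have h1 : ∫ x, ‖u x‖ ∂μ₀ = ∫ x, ‖u' x‖ ∂μ₀ := integral_congr_ae (by
      filter_upwards [hae] with x hx
      rw [hx])
    rw [h1, integral_norm_eq_lintegral_enorm hui.1] at hm
    exact hm
  · intro h
    rw [hu h]
    have hen : ∀ x, (‖u' x‖₊ : ℝ≥0∞) = ‖u' x‖ₑ := fun x => rfl
    have h2 : ∫ x, h x * (u' x * ((‖u' x‖⁻¹ : ℝ) : ℂ)) ∂(μ₀.withDensity fun x => ‖u' x‖ₑ) =
        ∫ x, ‖u' x‖₊ • (h x * (u' x * ((‖u' x‖⁻¹ : ℝ) : ℂ))) ∂μ₀ := by
      exact integral_withDensity_eq_integral_smul hu'.nnnorm _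
    rw [h2]
    refine integral_congr_ae ?_
    filter_upwards [hae] with x hx
    rw [hx, NNReal.smul_def, coe_nnnorm, Complex.real_smul]
    by_cases h0 : u' x = 0
    · rw [h0]; simp
    · have h1 : (‖u' x‖ : ℂ) ≠ 0 := by exact_mod_cast norm_ne_zero_iff.2 h0
      push_cast
      field_simp

end Pool.Agent.Q88.NB
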