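import Pool.Agent.Q88.NB.Real

/-!
# The vectors `∑ ht ((z - a)^k g c_j) (N) u_j`
-/

set_option autoImplicit false

namespace Pool.Agent.Q88.NB

open MeasureTheory Set Metric Filter Topology
open scoped ENNReal NNReal ComplexConjugate
open Pool.Agent.Y283.NK (ct)
open Pool.Agent.Y271.RO (ht Bd hHT hCTG)
open Pool.Agent.Q98.RB
open Pool.Agent.Q98.NR (IsK)
open Pool.Agent.Q130.TC (cau S_CAU WT S_MZ nm Am)

variable {X : Type} [NormedAddCommGroup X] [NormedSpace ℂ X]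
variable {N : X →L[ℂ] X} {R : ℝ} {Ψ : C(DD R, ℂ) →ₐ[ℂ] (X →L[ℂ] X)}

/-- the vectors `∑ ht ((z - a)^k g c_j) (N) u_j` -/
noncomputable def VV (Ψ : C(DD R, ℂ) →ₐ[ℂ] (X →L[ℂ] X)) (u : ℕ → X) (m : ℕ) (a : ℂ) (g : ℂ → ℝ)
    (c : ℕ → ℂ → ℂ) (k : ℕ) : X :=
  ∑ j ∈ Finset.range m, op Ψ (ht fun z => (z - a) ^ k * ((g z : ℂ) * c j z)) (u j)

/-- the operator `x ↦ ∑_{i < m} v i x • u i` -/
noncomputable def fr (u : ℕ → X) (v : ℕ → (X →L[ℂ] ℂ)) (m : ℕ) : X →L[ℂ] X :=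
  ∑ i ∈ Finset.range m, (v i).smulRight (u i)

theorem fr_apply (u : ℕ → X) (v : ℕ → (X →L[ℂ] ℂ)) (m : ℕ) (x : X) :
    fr u v m x = ∑ i ∈ Finset.range m, v i x • u i := by
  unfold fr
  rw [sum_apply]
  rfl

theorem nm_coord {m : ℕ} {c : ℕ → ℂ} {j : ℕ} (hj : j < m) : ‖c j‖ ≤ nm m c := by
  unfold nm
  refine Real.le_sqrt_of_sq_le ?_
  exact Finset.single_le_sum (f := fun i => ‖c i‖ ^ 2) (fun _ _ => by positivity)
    (Finset.mem_range.2 hj)

theorem nm_le_sum (m : ℕ) (c : ℕ → ℂ) : nm m c ≤ ∑ i ∈ Finset.range m, ‖c i‖ := by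
  unfold nm
  rw [Real.sqrt_le_left (Finset.sum_nonneg fun _ _ => norm_nonneg _)]
  exact Finset.sum_sq_le_sq_sum_of_nonneg fun _ _ => norm_nonneg _

theorem nm_nonneg (m : ℕ) (c : ℕ → ℂ) : 0 ≤ nm m c := Real.sqrt_nonneg _

/-- the hypotheses on the density and the vector field -/
structure Dat (m : ℕ) (a : ℂ) (ρ B : ℝ) (g : ℂ → ℝ) (c : ℕ → ℂ → ℂ) : Prop where
  rpos : 0 < ρ
  gm : Measurable g
  g0 : ∀ z, 0 ≤ g z
  gB : ∀ z, g z ≤ B
  gs : ∀ z, z ∉ ball a ρ → g z = 0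
  cm : ∀ j, Measurable (c j)
  c1 : ∀ z, nm m (fun j => c j z) ≤ 1

variable {m : ℕ} {a : ℂ} {ρ B : ℝ} {g : ℂ → ℝ} {c : ℕ → ℂ → ℂ}

theorem Dat.B0 (h : Dat m a ρ B g c) : 0 ≤ B := (h.g0 0).trans (h.gB 0)

theorem Dat.cb (h : Dat m a ρ B g c) {j : ℕ} (hj : j < m) (z : ℂ) : ‖c j z‖ ≤ 1 :=
  (nm_coord (c := fun j => c j z) hj).trans (h.c1 z)

theorem Dat.gint (h : Dat m a ρ B g c) : Integrable g := by
  have h1 : Integrable (fun z => (ball a ρ).indicator (fun _ => B) z) :=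
    (integrable_indicator_iff measurableSet_ball).2 (integrableOn_const measure_ball_lt_top.ne)
  refine h1.mono' h.gm.aestronglyMeasurable (Eventually.of_forall fun z => ?_)
  rw [Real.norm_of_nonneg (h.g0 z)]
  by_cases hz : z ∈ ball a ρ
  · rw [indicator_of_mem hz]
    exact h.gB z
  · rw [indicator_of_notMem hz, h.gs z hz]

theorem Dat.nb (h : Dat m a ρ B g c) {j : ℕ} (hj : j < m) (k : ℕ) (z : ℂ) :
    ‖(z - a) ^ k * ((g z : ℂ) * c j z)‖ ≤ ρ ^ k * g z := by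
  rw [norm_mul, norm_mul, norm_pow, Complex.norm_real, Real.norm_of_nonneg (h.g0 z)]
  by_cases hz : z ∈ ball a ρ
  · rw [mem_ball, dist_eq_norm] at hz
    refine mul_le_mul (pow_le_pow_left₀ (norm_nonneg _) hz.le k)
      (mul_le_of_le_one_right (h.g0 z) (h.cb hj z)) ?_ (by have := h.rpos; positivity)
    exact mul_nonneg (h.g0 z) (norm_nonneg _)
  · rw [h.gs z hz]
    simp

theorem Dat.bd (h : Dat m a ρ B g c) {j : ℕ} (hj : j < m) (k : ℕ) :
    Bd (fun z => (z - a) ^ k * ((g z : ℂ) * c j z)) a ρ (ρ ^ k * B) where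
  meas := ((measurable_id.sub_const a).pow_const k).mul
    ((Complex.measurable_ofReal.comp h.gm).mul (h.cm j))
  nonneg := by have := h.rpos; have := h.B0; positivity
  bd := fun z => (h.nb hj k z).trans (mul_le_mul_of_nonneg_left (h.gB z) (by
    have := h.rpos; positivity))
  supp := fun z hz => by rw [h.gs z hz]; simp

theorem Dat.htc (h : Dat m a ρ B g c) {j : ℕ} (hj : j < m) (k : ℕ) :
    Continuous (ht fun z => (z - a) ^ k * ((g z : ℂ) * c j z)) :=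
  ht_cont h.rpos (h.bd hj k)

/-- the charges -/
theorem Dat.charge (h : Dat m a ρ B g c) {j : ℕ} (hj : j < m) (k : ℕ) :
    ‖∫ z, (z - a) ^ k * ((g z : ℂ) * c j z)‖ ≤ ρ ^ k * ∫ z, g z := by
  rw [← integral_const_mul]
  exact norm_integral_le_of_norm_le (h.gint.const_mul _) (Eventually.of_forall fun z => h.nb hj k z)

theorem Dat.far (h : Dat m a ρ B g c) {j : ℕ} (hj : j < m) (k : ℕ) {l : ℂ}
    (hl : 2 * ρ ≤ ‖l - a‖) :
    ‖ht (fun z => (z - a) ^ k * ((g z : ℂ) * c j z)) l‖ ≤ ρ ^ k * (∫ z, g z) / ρ := by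
  unfold ht
  have hρ := h.rpos
  have e : ρ ^ k * (∫ z, g z) / ρ = ∫ z, (ρ ^ k / ρ) * g z := by
    rw [integral_const_mul]
    ring
  rw [e]
  refine norm_integral_le_of_norm_le (h.gint.const_mul _) (Eventually.of_forall fun z => ?_)
  rw [norm_mul, norm_inv]
  by_cases hz : z ∈ ball a ρ
  · rw [mem_ball, dist_eq_norm] at hz
    have h1 : ρ ≤ ‖z - l‖ := by
      have h2 : ‖l - a‖ ≤ ‖z - l‖ + ‖z - a‖ := by
        have e : l - a = -(z - l) + (z - a) := by ring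
        rw [e]
        refine (norm_add_le _ _).trans ?_
        rw [norm_neg]
      linarith
    calc ‖(z - a) ^ k * ((g z : ℂ) * c j z)‖ * ‖z - l‖⁻¹ ≤ (ρ ^ k * g z) * ρ⁻¹ :=
          mul_le_mul (h.nb hj k z) (inv_anti₀ hρ h1) (by positivity)
            (mul_nonneg (by positivity) (h.g0 z))
      _ = _ := by ring
  · have h2 := h.gs z hz
    simp only [h2, Complex.ofReal_zero, zero_mul, mul_zero, norm_zero, le_refl]

/-- the recursion -/
theorem VV_step (hΨ : Cal N R Ψ) (h : Dat m a ρ B g c) (u : ℕ → X) (k : ℕ) :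
    N (VV Ψ u m a g c k) - a • VV Ψ u m a g c k = VV Ψ u m a g c (k + 1) -
      ∑ j ∈ Finset.range m, (∫ z, (z - a) ^ k * ((g z : ℂ) * c j z)) • u j := by
  unfold VV
  rw [map_sum, Finset.smul_sum, ← Finset.sum_sub_distrib, ← Finset.sum_sub_distrib]
  refine Finset.sum_congr rfl fun j hj => ?_
  have hj' := Finset.mem_range.1 hj
  obtain ⟨K, -, hK⟩ := hHT ρ h.rpos
  obtain ⟨-, -, -, -, h5⟩ := hK a _ _ (h.bd hj' k)
  have h6 := op_step hΨ (h.htc hj' k) (h.htc hj' (k + 1)) a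
    (-∫ z, (z - a) ^ k * ((g z : ℂ) * c j z)) (fun l => by
      have e : (fun z => (z - a) ^ (k + 1) * ((g z : ℂ) * c j z)) =
          fun z => (z - a) * ((z - a) ^ k * ((g z : ℂ) * c j z)) := by
        funext z
        ring
      rw [e, h5 a l]
      ring) (u j)
  rw [h6, neg_smul, ← sub_eq_add_neg]

/-- the functionals -/
theorem VV_pair (h : Dat m a ρ B g c) (u : ℕ → X) (w : X →L[ℂ] ℂ) (K : ℕ → ℂ → ℂ)
    (hK : ∀ j < m, IsK Ψ w (u j) (K j)) (k : ℕ) :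
    Integrable (fun z => (z - a) ^ k * ((g z : ℂ) * ∑ j ∈ Finset.range m, c j z * K j z)) ∧
    w (VV Ψ u m a g c k) =
      ∫ z, (z - a) ^ k * ((g z : ℂ) * ∑ j ∈ Finset.range m, c j z * K j z) := by
  have e : (fun z => (z - a) ^ k * ((g z : ℂ) * ∑ j ∈ Finset.range m, c j z * K j z)) =
      fun z => ∑ j ∈ Finset.range m, ((z - a) ^ k * ((g z : ℂ) * c j z)) * K j z := by
    funext z
    rw [Finset.mul_sum, Finset.mul_sum]
    refine Finset.sum_congr rfl fun j _ => ?_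
    ring
  have h1 : ∀ j ∈ Finset.range m, Integrable fun z =>
      ((z - a) ^ k * ((g z : ℂ) * c j z)) * K j z := fun j hj =>
    ((hK j (Finset.mem_range.1 hj)).int a ρ _ _ (h.bd (Finset.mem_range.1 hj) k)).1
  rw [e]
  refine ⟨integrable_finsetSum _ h1, ?_⟩
  rw [integral_finsetSum _ h1]
  unfold VV
  rw [map_sum]
  refine Finset.sum_congr rfl fun j hj => ?_
  exact ((hK j (Finset.mem_range.1 hj)).int a ρ _ _ (h.bd (Finset.mem_range.1 hj) k)).2.symm

/-- the bounds -/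
theorem VV_bound (hΨ : Cal N R Ψ) {C₀ : ℝ} (hC : CB Ψ C₀) (h : Dat m a ρ B g c) (u : ℕ → X)
    {U₀ : ℝ} (hU : ∑ j ∈ Finset.range m, ‖u j‖ ≤ U₀) (k : ℕ) :
    ‖VV Ψ u m a g c k‖ ≤ C₀ * (‖VV Ψ u m a g c 0‖ + 2 * (∫ z, g z) * U₀ / ρ) * (4 * ρ) ^ k := by
  have hρ := h.rpos
  have hC0 := hC.1
  have hI : 0 ≤ ∫ z, g z := integral_nonneg h.g0
  have hU0 : 0 ≤ U₀ := (Finset.sum_nonneg fun _ _ => norm_nonneg _).trans hU
  set η := cf a (2 * ρ) with hη
  have hηc : Continuous η := cf_cont a (2 * ρ)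
  set G : ℝ := (∫ z, g z) * U₀ with hG
  have hG0 : 0 ≤ G := mul_nonneg hI hU0
  -- the operators `η (z - a)^i`
  have hpc : ∀ i : ℕ, Continuous fun z : ℂ => η z * (z - a) ^ i := fun i => by fun_prop
  have hop : ∀ i : ℕ, ‖op Ψ (fun z => η z * (z - a) ^ i)‖ ≤ C₀ * (4 * ρ) ^ i := by
    intro i
    refine hC.op _ _ (hpc i) (by positivity) fun z _ => ?_
    rw [norm_mul, norm_pow]
    rcases le_or_gt (4 * ρ) ‖z - a‖ with h1 | h1
    · rw [hη, cf_zero (t := 2 * ρ) (by positivity) (by linarith), norm_zero, zero_mul]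
      positivity
    · calc ‖η z‖ * ‖z - a‖ ^ i ≤ 1 * (4 * ρ) ^ i :=
            mul_le_mul (cf_norm _ _ _) (pow_le_pow_left₀ (norm_nonneg _) h1.le i) (by positivity)
              zero_le_one
        _ = _ := one_mul _
  have hs : ∀ k, ‖∑ j ∈ Finset.range m, (∫ z, (z - a) ^ k * ((g z : ℂ) * c j z)) • u j‖ ≤
      ρ ^ k * G := by
    intro k
    calc _ ≤ ∑ j ∈ Finset.range m, ‖(∫ z, (z - a) ^ k * ((g z : ℂ) * c j z)) • u j‖ :=
          norm_sum_le _ _
      _ ≤ ∑ j ∈ Finset.range m, (ρ ^ k * ∫ z, g z) * ‖u j‖ := by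
          refine Finset.sum_le_sum fun j hj => ?_
          rw [norm_smul]
          exact mul_le_mul_of_nonneg_right (h.charge (Finset.mem_range.1 hj) k) (norm_nonneg _)
      _ = (ρ ^ k * ∫ z, g z) * ∑ j ∈ Finset.range m, ‖u j‖ := by rw [Finset.mul_sum]
      _ ≤ (ρ ^ k * ∫ z, g z) * U₀ := mul_le_mul_of_nonneg_left hU (by positivity)
      _ = _ := by rw [hG]; ring
  -- the near part
  have hnear : ∀ k i, ‖op Ψ (fun z => η z * (z - a) ^ i) (VV Ψ u m a g c k)‖ ≤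
      C₀ * (4 * ρ) ^ (i + k) * (‖VV Ψ u m a g c 0‖ + (1 - (1 / 4) ^ k) / (3 * ρ) * G) := by
    intro k
    induction k with
    | zero =>
      intro i
      have h1 := (op Ψ (fun z => η z * (z - a) ^ i)).le_opNorm (VV Ψ u m a g c 0)
      have h2 := mul_le_mul_of_nonneg_right (hop i) (norm_nonneg (VV Ψ u m a g c 0))
      simp only [add_zero, pow_zero, sub_self, zero_div, zero_mul]
      exact h1.trans h2
    | succ k ih =>
      intro i
      have e1 : VV Ψ u m a g c (k + 1) = (N (VV Ψ u m a g c k) - a • VV Ψ u m a g c k) +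
          ∑ j ∈ Finset.range m, (∫ z, (z - a) ^ k * ((g z : ℂ) * c j z)) • u j := by
        rw [VV_step hΨ h u k]
        abel
      have e2 : op Ψ (fun z => η z * (z - a) ^ i) (N (VV Ψ u m a g c k) - a • VV Ψ u m a g c k) =
          op Ψ (fun z => η z * (z - a) ^ (i + 1)) (VV Ψ u m a g c k) := by
        have e3 : N (VV Ψ u m a g c k) - a • VV Ψ u m a g c k =
            op Ψ (fun z => z - a) (VV Ψ u m a g c k) := by
          rw [op_sub continuous_id' continuous_const, op_id hΨ, op_const]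
          rfl
        rw [e3, ← op_mul_apply (hpc i) (by fun_prop)]
        congr 2
        funext z
        ring
      rw [e1, map_add, e2]
      have h1 := ih (i + 1)
      have h2 : ‖op Ψ (fun z => η z * (z - a) ^ i)
          (∑ j ∈ Finset.range m, (∫ z, (z - a) ^ k * ((g z : ℂ) * c j z)) • u j)‖ ≤
          C₀ * (4 * ρ) ^ i * (ρ ^ k * G) :=
        ((op Ψ _).le_opNorm _).trans (mul_le_mul (hop i) (hs k) (norm_nonneg _) (by positivity))
      refine (norm_add_le _ _).trans ((add_le_add h1 h2).trans (le_of_eq ?_))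
      have e4 : (4 * ρ) ^ (i + 1 + k) = (4 * ρ) ^ i * (4 * ρ) * (4 * ρ) ^ k := by ring
      have e5 : (4 * ρ) ^ (i + (k + 1)) = (4 * ρ) ^ i * (4 * ρ) * (4 * ρ) ^ k := by ring
      have e6 : (4 * ρ) ^ k = 4 ^ k * ρ ^ k := mul_pow _ _ _
      have e7 : ((1:ℝ) / 4) ^ (k + 1) = (1 / 4) * (1 / 4) ^ k := by ring
      have e8 : (4:ℝ) ^ k * (1 / 4) ^ k = 1 := by rw [← mul_pow]; norm_num
      rw [e4, e5, e7, e6]
      field_simp
      have e9 : ((1:ℝ) / 4) ^ k = 1 / 4 ^ k := by rw [div_pow, one_pow]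
      rw [e9]
      field_simp
      ring
  -- the far part
  have hfar : ‖op Ψ (fun z => 1 - η z) (VV Ψ u m a g c k)‖ ≤ C₀ * (ρ ^ k * G / ρ) := by
    unfold VV
    rw [map_sum]
    have h1 : ∀ j ∈ Finset.range m, ‖op Ψ (fun z => 1 - η z)
        (op Ψ (ht fun z => (z - a) ^ k * ((g z : ℂ) * c j z)) (u j))‖ ≤
        C₀ * (ρ ^ k * (∫ z, g z) / ρ) * ‖u j‖ := by
      intro j hj
      have hj' := Finset.mem_range.1 hj
      have hc1 : Continuous fun z => 1 - η z := continuous_const.sub hηc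
      rw [← op_mul_apply (h := fun z => 1 - η z) hc1 (h.htc hj' k)]
      refine ((op Ψ _).le_opNorm _).trans (mul_le_mul_of_nonneg_right ?_ (norm_nonneg _))
      refine hC.op _ _ (hc1.mul (h.htc hj' k)) (by positivity)
        fun z _ => ?_
      rcases le_or_gt ‖z - a‖ (2 * ρ) with h2 | h2
      · rw [hη, cf_one (t := 2 * ρ) (by positivity) h2, sub_self, zero_mul, norm_zero]
        positivity
      · have h3 := h.far hj' k h2.le
        rw [norm_mul]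
        have h4 : ‖(1:ℂ) - η z‖ ≤ 1 := by
          have e : (1:ℂ) - η z = ((1 - cfr a (2 * ρ) z : ℝ) : ℂ) := by
            rw [hη]
            unfold cf
            push_cast
            rfl
          rw [e, Complex.norm_real, Real.norm_of_nonneg (sub_nonneg.2 (cfr_le _ _ _))]
          linarith [cfr_nonneg a (2 * ρ) z]
        calc _ ≤ 1 * (ρ ^ k * (∫ z, g z) / ρ) :=
              mul_le_mul h4 h3 (norm_nonneg _) zero_le_one
          _ = _ := one_mul _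
    calc _ ≤ ∑ j ∈ Finset.range m, C₀ * (ρ ^ k * (∫ z, g z) / ρ) * ‖u j‖ :=
          (norm_sum_le _ _).trans (Finset.sum_le_sum h1)
      _ = C₀ * (ρ ^ k * (∫ z, g z) / ρ) * ∑ j ∈ Finset.range m, ‖u j‖ := by rw [Finset.mul_sum]
      _ ≤ C₀ * (ρ ^ k * (∫ z, g z) / ρ) * U₀ := mul_le_mul_of_nonneg_left hU (by positivity)
      _ = _ := by rw [hG]; ring
  -- together
  have e1 : VV Ψ u m a g c k = op Ψ (fun z => η z * (z - a) ^ 0) (VV Ψ u m a g c k) +
      op Ψ (fun z => 1 - η z) (VV Ψ u m a g c k) := by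
    have e2 : (fun z => η z * (z - a) ^ 0) = η := by
      funext z
      rw [pow_zero, mul_one]
    rw [e2, op_sub continuous_const hηc, op_const, one_smul]
    simp
  rw [e1]
  refine (norm_add_le _ _).trans ((add_le_add (hnear k 0) hfar).trans ?_)
  have h1 : (1 - (1 / 4 : ℝ) ^ k) / (3 * ρ) * G ≤ 1 / (3 * ρ) * G := by
    refine mul_le_mul_of_nonneg_right ?_ hG0
    refine div_le_div_of_nonneg_right ?_ (by positivity)
    have : (0:ℝ) ≤ (1 / 4) ^ k := by positivity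
    linarith
  have h2 : ρ ^ k * G / ρ ≤ (4 * ρ) ^ k * (G / ρ) := by
    have h3 : ρ ^ k ≤ (4 * ρ) ^ k := pow_le_pow_left₀ hρ.le (by linarith) k
    calc ρ ^ k * G / ρ = ρ ^ k * (G / ρ) := by ring
      _ ≤ _ := mul_le_mul_of_nonneg_right h3 (by positivity)
  have h3 : 1 / (3 * ρ) * G + G / ρ ≤ 2 * G / ρ := by
    have e : 1 / (3 * ρ) * G = 1 / 3 * (G / ρ) := by field_simp
    have e' : 2 * G / ρ = 2 * (G / ρ) := by ring
    have : 0 ≤ G / ρ := by positivity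
    rw [e, e']
    linarith
  have h4 : (0:ℝ) ≤ (4 * ρ) ^ k := by positivity
  rw [zero_add]
  calc C₀ * (4 * ρ) ^ k * (‖VV Ψ u m a g c 0‖ + (1 - (1 / 4) ^ k) / (3 * ρ) * G) +
        C₀ * (ρ ^ k * G / ρ) ≤
        C₀ * (4 * ρ) ^ k * (‖VV Ψ u m a g c 0‖ + 1 / (3 * ρ) * G) +
        C₀ * ((4 * ρ) ^ k * (G / ρ)) := by gcongr
    _ = C₀ * (4 * ρ) ^ k * (‖VV Ψ u m a g c 0‖ + (1 / (3 * ρ) * G + G / ρ)) := by ring
    _ ≤ C₀ * (4 * ρ) ^ k * (‖VV Ψ u m a g c 0‖ + 2 * G / ρ) := by gcongr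
    _ = _ := by rw [hG]; ring

end Pool.Agent.Q88.NB
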